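import Mathlib

/-!
# Squares dividing values of `x ^ 2 + a`, in short intervals

Elementary bounds: the number of `x` in an interval for which `x ^ 2 + a` is divisible by the square of a large
prime. Large squares are treated by Pell equations: `x ^ 2 = r y ^ 2 + N` has at most `N ^ 2` solutions with
`T < x ≤ 2 T`.
-/

set_option autoImplicit false

namespace Pool.Agent.CNC

open Finset

/-- the size contradiction -/
lemma pell_size (N T X1 X2 A B n : ℤ) (hn : n = |N|) (hn0 : 1 ≤ n) (hnT : 15 * n ≤ T ^ 2)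
    (hA : A = X1 * X2) (hB0 : 0 ≤ B) (b1 : T < X1) (b2 : X1 ≤ 2 * T) (b3 : T < X2) (b4 : X2 ≤ 2 * T) (hT0 : 0 ≤ T)
    (hB2 : B ^ 2 = A ^ 2 - N * (X1 ^ 2 + X2 ^ 2) + N ^ 2) (hD : 2 * n ≤ |A - B|) : False := by
  have hNabs : n ^ 2 = N ^ 2 := by rw [hn]; exact sq_abs N
  have hAT : T ^ 2 ≤ A := by
    rw [hA, pow_two]
    exact mul_le_mul b1.le b3.le hT0 (by linarith)
  have hA0 : 0 ≤ A := by linarith [sq_nonneg T]
  have h5A : 2 * (X1 ^ 2 + X2 ^ 2) ≤ 5 * A := by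
    rw [hA]
    have := mul_nonneg (show 0 ≤ 2 * X1 - X2 by linarith) (show 0 ≤ 2 * X2 - X1 by linarith)
    linarith [this, (by ring : (2 * X1 - X2) * (2 * X2 - X1) = 5 * (X1 * X2) - 2 * (X1 ^ 2 + X2 ^ 2))]
  obtain ⟨Q, hQ⟩ : ∃ Q : ℤ, Q = X1 ^ 2 + X2 ^ 2 := ⟨_, rfl⟩
  rw [← hQ] at h5A hB2
  have hQ0 : 0 ≤ Q := by rw [hQ]; positivity
  have hAB : 0 ≤ A + B := by linarith
  have hmain : 2 * n * (A + B) ≤ n * Q + n ^ 2 := by
    have h1 : |A - B| * (A + B) = |(A - B) * (A + B)| := by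
      rw [abs_mul, abs_of_nonneg hAB]
    have h2 : (A - B) * (A + B) = N * Q - N ^ 2 := by linear_combination -hB2
    have h3 : |N * Q - N ^ 2| ≤ n * Q + n ^ 2 := by
      refine (abs_sub _ _).trans ?_
      rw [abs_mul, abs_of_nonneg hQ0, abs_of_nonneg (sq_nonneg N), ← hn, hNabs]
    calc 2 * n * (A + B) ≤ |A - B| * (A + B) := mul_le_mul_of_nonneg_right hD hAB
      _ = |(A - B) * (A + B)| := h1
      _ ≤ _ := by rw [h2]; exact h3
  have hmain2 : 2 * (A + B) ≤ Q + n := by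
    have h1 : n * (2 * (A + B)) ≤ n * (Q + n) := by
      have e1 : n * (2 * (A + B)) = 2 * n * (A + B) := by ring
      have e2 : n * (Q + n) = n * Q + n ^ 2 := by ring
      rw [e1, e2]
      exact hmain
    exact le_of_mul_le_mul_left h1 (by linarith)
  have h4B : 4 * B ≤ A + 2 * n := by linarith
  have h1 : N * Q ≤ n * Q := mul_le_mul_of_nonneg_right (by rw [hn]; exact le_abs_self N) hQ0
  have h2 : n * (2 * Q) ≤ n * (5 * A) := mul_le_mul_of_nonneg_left h5A (by linarith)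
  have h3 := sq_nonneg N
  have hBlow : 2 * A ^ 2 - 5 * (n * A) ≤ 2 * B ^ 2 := by
    have e1 : n * (2 * Q) = 2 * (n * Q) := by ring
    have e2 : n * (5 * A) = 5 * (n * A) := by ring
    rw [hB2]
    linarith
  have hA15 : 15 * n ≤ A := by linarith
  have h16 : (4 * B) ^ 2 ≤ (A + 2 * n) ^ 2 := pow_le_pow_left₀ (by linarith) h4B 2
  have e3 : (A + 2 * n) ^ 2 = A ^ 2 + 4 * (n * A) + 4 * n ^ 2 := by ring
  have e4 : (4 * B) ^ 2 = 16 * B ^ 2 := by ring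
  have h6 : 15 * (n * A) ≤ A ^ 2 := by
    have := mul_le_mul_of_nonneg_right hA15 hA0
    linarith [this, (by ring : 15 * n * A = 15 * (n * A)), (by ring : A * A = A ^ 2)]
  have h7 : 15 * n ^ 2 ≤ n * A := by
    have := mul_le_mul_of_nonneg_left hA15 (show 0 ≤ n by linarith)
    linarith [this, (by ring : n * (15 * n) = 15 * n ^ 2)]
  have h8 : 1 ≤ n ^ 2 := by nlinarith
  rw [e3, e4] at h16
  linarith

/-- few solutions of `x² = r y² + N` with `T < x ≤ 2 T` -/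
theorem pell_few (N : ℤ) (hN : N ≠ 0) (T : ℕ) (hT : 15 * N.natAbs ≤ T ^ 2) (r : ℕ) (hr : 1 ≤ r)
    (S : Finset ℕ) (hS : ∀ x ∈ S, T < x ∧ x ≤ 2 * T ∧ ∃ y : ℕ, (x : ℤ) ^ 2 = r * (y : ℤ) ^ 2 + N) :
    S.card ≤ N.natAbs ^ 2 := by
  classical
  by_contra hcon
  rw [not_le] at hcon
  choose! y hy using fun x hx => (hS x hx).2.2
  have hNpos : 0 < N.natAbs := Int.natAbs_pos.2 hN
  have hcard : (range N.natAbs ×ˢ range N.natAbs).card < S.card := by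
    rw [card_product, card_range]
    nlinarith
  obtain ⟨x1, hx1, x2, hx2, hne, heq⟩ := exists_ne_map_eq_of_card_lt_of_maps_to hcard
    (f := fun x => (x % N.natAbs, y x % N.natAbs)) (by
      intro x _
      simp only [coe_product, coe_range, Set.mem_prod, Set.mem_Iio]
      exact ⟨Nat.mod_lt _ hNpos, Nat.mod_lt _ hNpos⟩)
  simp only [Prod.mk.injEq] at heq
  obtain ⟨e1, e2⟩ := heq
  have d1 : N ∣ (x2 : ℤ) - x1 := by
    have h := (Nat.modEq_iff_dvd.1 e1)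
    rwa [Int.natAbs_dvd] at h
  have d2 : N ∣ (y x2 : ℤ) - y x1 := by
    have h := (Nat.modEq_iff_dvd.1 e2)
    rwa [Int.natAbs_dvd] at h
  obtain ⟨p1, p2, -⟩ := hS x1 hx1
  obtain ⟨q1, q2, -⟩ := hS x2 hx2
  have g1 := hy x1 hx1
  have g2 := hy x2 hx2
  obtain ⟨Y1, hY1⟩ : ∃ Y1 : ℤ, Y1 = (y x1 : ℤ) := ⟨_, rfl⟩
  obtain ⟨Y2, hY2⟩ : ∃ Y2 : ℤ, Y2 = (y x2 : ℤ) := ⟨_, rfl⟩
  obtain ⟨X1, hX1⟩ : ∃ X1 : ℤ, X1 = (x1 : ℤ) := ⟨_, rfl⟩
  obtain ⟨X2, hX2⟩ : ∃ X2 : ℤ, X2 = (x2 : ℤ) := ⟨_, rfl⟩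
  rw [← hY1, ← hX1] at g1
  rw [← hY2, ← hX2] at g2
  rw [← hX1, ← hX2] at d1
  rw [← hY1, ← hY2] at d2
  have hXne : X1 ≠ X2 := by
    rw [hX1, hX2]
    exact_mod_cast hne
  have hY1' : 0 ≤ Y1 := by rw [hY1]; positivity
  have hY2' : 0 ≤ Y2 := by rw [hY2]; positivity
  have b1 : (T : ℤ) < X1 := by rw [hX1]; exact_mod_cast p1
  have b2 : X1 ≤ 2 * (T : ℤ) := by rw [hX1]; exact_mod_cast p2
  have b3 : (T : ℤ) < X2 := by rw [hX2]; exact_mod_cast q1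
  have b4 : X2 ≤ 2 * (T : ℤ) := by rw [hX2]; exact_mod_cast q2
  have hT0 : (0 : ℤ) ≤ T := by positivity
  have hrr : (1 : ℤ) ≤ r := by exact_mod_cast hr
  obtain ⟨i, hi⟩ := d1
  obtain ⟨j, hj⟩ := d2
  have hx2e : X2 = X1 + N * i := by linarith
  have hy2e : Y2 = Y1 + N * j := by linarith
  obtain ⟨U, hU⟩ : ∃ U : ℤ, X1 * X2 - r * Y1 * Y2 = N * U :=
    ⟨1 + X1 * i - r * Y1 * j, by rw [hx2e, hy2e]; linear_combination g1⟩
  obtain ⟨V, hV⟩ : ∃ V : ℤ, X1 * Y2 - X2 * Y1 = N * V :=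
    ⟨X1 * j - i * Y1, by rw [hx2e, hy2e]; ring⟩
  have hUV : U ^ 2 - r * V ^ 2 = 1 := by
    have h1 : N ^ 2 * (U ^ 2 - r * V ^ 2) = N ^ 2 * 1 := by
      have : N ^ 2 * (U ^ 2 - r * V ^ 2) = (N * U) ^ 2 - r * (N * V) ^ 2 := by ring
      rw [this, ← hU, ← hV]
      linear_combination (X2 ^ 2 - r * Y2 ^ 2) * g1 + N * g2
    exact mul_left_cancel₀ (pow_ne_zero 2 hN) h1
  have hV0 : V ≠ 0 := by
    rintro rfl
    rw [mul_zero, sub_eq_zero] at hV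
    have h1 : N * Y2 ^ 2 = N * Y1 ^ 2 := by
      linear_combination -Y2 ^ 2 * g1 + Y1 ^ 2 * g2 + (X1 * Y2 + X2 * Y1) * hV
    have h2 : Y2 ^ 2 = Y1 ^ 2 := mul_left_cancel₀ hN h1
    have h3 : Y2 = Y1 := by
      exact (pow_left_inj₀ hY2' hY1' two_ne_zero).1 h2
    have h4 : X1 ^ 2 = X2 ^ 2 := by rw [g1, g2, h3]
    exact hXne ((pow_left_inj₀ (by linarith) (by linarith) two_ne_zero).1 h4)
  have hV1 : 1 ≤ V ^ 2 := by
    have := sq_nonneg V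
    have h0 : V ^ 2 ≠ 0 := pow_ne_zero 2 hV0
    omega
  have hU4 : 4 ≤ U ^ 2 := by
    have h1 : 2 ≤ U ^ 2 := by nlinarith
    by_contra h2
    have h3 : U ≤ 1 := by nlinarith
    have h4 : -1 ≤ U := by nlinarith
    nlinarith
  obtain ⟨A, hA⟩ : ∃ A : ℤ, A = X1 * X2 := ⟨_, rfl⟩
  obtain ⟨B, hB⟩ : ∃ B : ℤ, B = r * Y1 * Y2 := ⟨_, rfl⟩
  have hn0 : 1 ≤ |N| := Int.one_le_abs hN
  have hnT : 15 * |N| ≤ (T : ℤ) ^ 2 := by
    have : ((15 * N.natAbs : ℕ) : ℤ) ≤ ((T ^ 2 : ℕ) : ℤ) := by exact_mod_cast hT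
    push_cast at this
    exact this
  have hB0 : 0 ≤ B := by rw [hB]; positivity
  have hB2 : B ^ 2 = A ^ 2 - N * (X1 ^ 2 + X2 ^ 2) + N ^ 2 := by
    rw [hA, hB]
    have h1 : (r : ℤ) * Y1 ^ 2 = X1 ^ 2 - N := by linarith
    have h2 : (r : ℤ) * Y2 ^ 2 = X2 ^ 2 - N := by linarith
    have h3 : ((r : ℤ) * Y1 * Y2) ^ 2 = (r * Y1 ^ 2) * (r * Y2 ^ 2) := by ring
    rw [h3, h1, h2]
    ring
  have hD : 2 * |N| ≤ |A - B| := by
    have h1 : |A - B| = |N| * |U| := by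
      rw [hA, hB, hU, abs_mul]
    have h2 : 2 ≤ |U| := by
      by_contra h3
      have h4 : |U| ≤ 1 := by omega
      have h5 : U ^ 2 ≤ 1 := by
        rw [← sq_abs]
        have := abs_nonneg U
        nlinarith
      omega
    rw [h1]
    have := mul_le_mul_of_nonneg_left h2 (abs_nonneg N)
    linarith
  exact pell_size N T X1 X2 A B |N| rfl hn0 hnT hA hB0 b1 b2 b3 b4 hT0 hB2 hD

/-- few `x` in `(T, 2T]` for which `x² + a` is divisible by the square of a number `≥ P` -/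
theorem big_squares (a : ℤ) (ha : a ≠ 0) (T P R : ℕ) (hT : 15 * a.natAbs ≤ T ^ 2) (hP : 0 < P)
    (hR : 4 * T ^ 2 + a.natAbs ≤ R * P ^ 2) (S : Finset ℕ)
    (hS : ∀ x ∈ S, T < x ∧ x ≤ 2 * T ∧ ∃ y : ℕ, P ≤ y ∧ (y : ℤ) ^ 2 ∣ (x : ℤ) ^ 2 + a) :
    S.card ≤ R * a.natAbs ^ 2 := by
  classical
  have hsub : S ⊆ (Icc 1 R).biUnion (fun r => S.filter (fun x : ℕ =>
      ∃ y : ℕ, (x : ℤ) ^ 2 = r * (y : ℤ) ^ 2 + (-a))) := by
    intro x hx
    obtain ⟨h1, h2, y, h3, q, hq⟩ := hS x hx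
    have hTi : 15 * |a| ≤ (T : ℤ) ^ 2 := by
      have : ((15 * a.natAbs : ℕ) : ℤ) ≤ ((T ^ 2 : ℕ) : ℤ) := by exact_mod_cast hT
      push_cast at this
      exact this
    have h1i : (T : ℤ) < x := by exact_mod_cast h1
    have h2i : (x : ℤ) ≤ 2 * T := by exact_mod_cast h2
    have ha1 := Int.one_le_abs ha
    have ha2 := neg_abs_le a
    have ha3 := le_abs_self a
    have hpos : 0 < (x : ℤ) ^ 2 + a := by nlinarith
    have hy0 : (0 : ℤ) < y := by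
      have : 0 < y := by omega
      exact_mod_cast this
    have hq0 : 0 < q := by
      by_contra h
      have h' : q ≤ 0 := by omega
      have : (y : ℤ) ^ 2 * q ≤ 0 := mul_nonpos_of_nonneg_of_nonpos (by positivity) h'
      omega
    obtain ⟨r, hr⟩ := Int.eq_ofNat_of_zero_le hq0.le
    rw [mem_biUnion]
    refine ⟨r, ?_, ?_⟩
    · rw [mem_Icc]
      refine ⟨by omega, ?_⟩
      have hRi : 4 * (T : ℤ) ^ 2 + |a| ≤ R * (P : ℤ) ^ 2 := by
        have : ((4 * T ^ 2 + a.natAbs : ℕ) : ℤ) ≤ ((R * P ^ 2 : ℕ) : ℤ) := by exact_mod_cast hR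
        push_cast at this
        exact this
      have h3i : (P : ℤ) ≤ y := by exact_mod_cast h3
      have hP0 : (0 : ℤ) < P := by exact_mod_cast hP
      have h4 : (P : ℤ) ^ 2 * q ≤ (P : ℤ) ^ 2 * R := by
        calc (P : ℤ) ^ 2 * q ≤ (y : ℤ) ^ 2 * q := by
              apply mul_le_mul_of_nonneg_right _ hq0.le
              exact pow_le_pow_left₀ hP0.le h3i 2
          _ = (x : ℤ) ^ 2 + a := hq.symm
          _ ≤ 4 * (T : ℤ) ^ 2 + |a| := by nlinarith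
          _ ≤ _ := by linarith
      have h5 : q ≤ R := le_of_mul_le_mul_left h4 (by positivity)
      have : (r : ℤ) ≤ R := by rw [← hr]; exact h5
      exact_mod_cast this
    · rw [mem_filter]
      refine ⟨hx, y, ?_⟩
      have : ((r : ℕ) : ℤ) = q := hr.symm
      rw [this]
      linarith
  refine (card_le_card hsub).trans ?_
  refine (card_biUnion_le).trans ?_
  have : ∀ r ∈ Icc 1 R, (S.filter (fun x : ℕ => ∃ y : ℕ, (x : ℤ) ^ 2 = r * (y : ℤ) ^ 2 + (-a))).card ≤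
      a.natAbs ^ 2 := by
    intro r hr
    rw [mem_Icc] at hr
    have := pell_few (-a) (neg_ne_zero.2 ha) T (by rw [Int.natAbs_neg]; exact hT) r hr.1
      (S.filter (fun x : ℕ => ∃ y : ℕ, (x : ℤ) ^ 2 = r * (y : ℤ) ^ 2 + (-a))) (fun x hx => by
        rw [mem_filter] at hx
        obtain ⟨h1, h2, -⟩ := hS x hx.1
        exact ⟨h1, h2, hx.2⟩)
    rwa [Int.natAbs_neg] at this
  refine (sum_le_sum this).trans ?_
  rw [sum_const, Nat.card_Icc, smul_eq_mul]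
  simp

/-- pairwise congruent elements of an interval -/
theorem class_card (q t0 H : ℕ) (hq : 0 < q) (S : Finset ℕ) (hS : ∀ t ∈ S, t0 ≤ t ∧ t < t0 + H)
    (hc : ∀ s ∈ S, ∀ t ∈ S, s ≡ t [MOD q]) : S.card ≤ H / q + 1 := by
  rw [← card_range (H / q + 1)]
  apply card_le_card_of_injOn (fun t => (t - t0) / q)
  · intro t ht
    obtain ⟨h1, h2⟩ := hS t ht
    simp only [coe_range, Set.mem_Iio]
    have : (t - t0) / q ≤ H / q := Nat.div_le_div_right (by omega)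
    omega
  · intro s hs t ht hst
    simp only at hst
    obtain ⟨h1, h2⟩ := hS s hs
    obtain ⟨h3, h4⟩ := hS t ht
    have h5 : (s - t0) ≡ (t - t0) [MOD q] := by
      have := hc s hs t ht
      have h6 : (s - t0) + t0 ≡ (t - t0) + t0 [MOD q] := by
        rwa [Nat.sub_add_cancel h1, Nat.sub_add_cancel h3]
      exact Nat.ModEq.add_right_cancel' t0 h6
    have h6 := Nat.div_add_mod (s - t0) q
    have h7 := Nat.div_add_mod (t - t0) q
    unfold Nat.ModEq at h5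
    rw [hst, h5, h7] at h6
    omega

/-- at most two classes modulo `p²` -/
theorem mid_squares (W : ℕ) (a : ℤ) (p : ℕ) (hp : p.Prime) (hp2 : p ≠ 2) (hpW : ¬ p ∣ W)
    (hpa : ¬ (p : ℤ) ∣ a) (t0 H : ℕ) :
    ((Ico t0 (t0 + H)).filter (fun t : ℕ => (p : ℤ) ^ 2 ∣ (1 + W * t : ℤ) ^ 2 + a)).card ≤
      2 * (H / p ^ 2 + 1) := by
  classical
  set S := (Ico t0 (t0 + H)).filter (fun t : ℕ => (p : ℤ) ^ 2 ∣ (1 + W * t : ℤ) ^ 2 + a) with hSd
  rcases S.eq_empty_or_nonempty with h0 | ⟨s, hs⟩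
  · rw [h0, card_empty]
    omega
  have hpi : Prime (p : ℤ) := Nat.prime_iff_prime_int.mp hp
  have hpWi : ¬ (p : ℤ) ∣ W := by exact_mod_cast hpW
  have hp2i : ¬ (p : ℤ) ∣ 2 := by
    intro h
    have h1 : p ∣ 2 := by exact_mod_cast h
    exact hp2 ((Nat.prime_dvd_prime_iff_eq hp Nat.prime_two).1 h1)
  have hmem : ∀ t ∈ S, t0 ≤ t ∧ t < t0 + H ∧ (p : ℤ) ^ 2 ∣ (1 + W * t : ℤ) ^ 2 + a := by
    intro t ht
    rw [hSd, mem_filter, mem_Ico] at ht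
    exact ⟨ht.1.1, ht.1.2, ht.2⟩
  -- `p` does not divide `1 + W t`
  have hunit : ∀ t ∈ S, ¬ (p : ℤ) ∣ 1 + W * t := by
    intro t ht h
    obtain ⟨-, -, h1⟩ := hmem t ht
    have h2 : (p : ℤ) ∣ (1 + W * t : ℤ) ^ 2 + a := (Dvd.intro_left _ (by ring : (p : ℤ) * p = p ^ 2)).trans h1
    exact hpa ((dvd_add_right (h.trans (Dvd.intro_left _ (by ring : (1 + W * t : ℤ) * (1 + W * t) = (1 + W * t : ℤ) ^ 2)))).1 h2)
  have hcop : IsCoprime ((p : ℤ) ^ 2) W := by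
    apply IsCoprime.pow_left
    exact (hpi.coprime_iff_not_dvd).2 hpWi
  have hsplit : ∀ t ∈ S, (p : ℤ) ^ 2 ∣ (t : ℤ) - s ∨ (p : ℤ) ^ 2 ∣ 2 + W * (t + s) := by
    intro t ht
    obtain ⟨-, -, h1⟩ := hmem t ht
    obtain ⟨-, -, h2⟩ := hmem s hs
    have h3 : (p : ℤ) ^ 2 ∣ W * (((t : ℤ) - s) * (2 + W * (t + s))) := by
      have := dvd_sub h1 h2
      have e : (1 + W * t : ℤ) ^ 2 + a - ((1 + W * s : ℤ) ^ 2 + a) =
        W * (((t : ℤ) - s) * (2 + W * (t + s))) := by ring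
      rwa [e] at this
    have h4 : (p : ℤ) ^ 2 ∣ ((t : ℤ) - s) * (2 + W * (t + s)) := hcop.dvd_of_dvd_mul_left h3
    by_cases h5 : (p : ℤ) ∣ (t : ℤ) - s
    · left
      have h6 : ¬ (p : ℤ) ∣ 2 + W * (t + s) := by
        intro h7
        have h8 : (p : ℤ) ∣ 2 * (1 + W * s) := by
          have e : 2 * (1 + W * s : ℤ) = (2 + W * (t + s)) - W * ((t : ℤ) - s) := by ring
          rw [e]
          exact dvd_sub h7 (Dvd.dvd.mul_left h5 _)
        rcases hpi.dvd_or_dvd h8 with h9 | h9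
        · exact hp2i h9
        · exact hunit s hs h9
      have h7 : IsCoprime ((p : ℤ) ^ 2) (2 + W * (t + s)) :=
        IsCoprime.pow_left ((hpi.coprime_iff_not_dvd).2 h6)
      exact h7.dvd_of_dvd_mul_right h4
    · right
      have h7 : IsCoprime ((p : ℤ) ^ 2) ((t : ℤ) - s) :=
        IsCoprime.pow_left ((hpi.coprime_iff_not_dvd).2 h5)
      exact h7.dvd_of_dvd_mul_left h4
  have hsub : S ⊆ S.filter (fun t : ℕ => (p : ℤ) ^ 2 ∣ (t : ℤ) - s) ∪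
      S.filter (fun t : ℕ => (p : ℤ) ^ 2 ∣ 2 + W * ((t : ℤ) + s)) := by
    intro t ht
    rcases hsplit t ht with h | h
    · exact mem_union_left _ (mem_filter.2 ⟨ht, h⟩)
    · exact mem_union_right _ (mem_filter.2 ⟨ht, h⟩)
  have hp2pos : 0 < p ^ 2 := pow_pos hp.pos 2
  have c1 : (S.filter (fun t : ℕ => (p : ℤ) ^ 2 ∣ (t : ℤ) - s)).card ≤ H / p ^ 2 + 1 := by
    apply class_card (p ^ 2) t0 H hp2pos
    · intro t ht
      rw [mem_filter] at ht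
      exact ⟨(hmem t ht.1).1, (hmem t ht.1).2.1⟩
    · intro u hu t ht
      rw [mem_filter] at hu ht
      rw [Nat.modEq_iff_dvd]
      have := dvd_sub ht.2 hu.2
      push_cast
      have e : (t : ℤ) - s - ((u : ℤ) - s) = (t : ℤ) - u := by ring
      rwa [e] at this
  have c2 : (S.filter (fun t : ℕ => (p : ℤ) ^ 2 ∣ 2 + W * ((t : ℤ) + s))).card ≤ H / p ^ 2 + 1 := by
    apply class_card (p ^ 2) t0 H hp2pos
    · intro t ht
      rw [mem_filter] at ht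
      exact ⟨(hmem t ht.1).1, (hmem t ht.1).2.1⟩
    · intro u hu t ht
      rw [mem_filter] at hu ht
      rw [Nat.modEq_iff_dvd]
      have := dvd_sub ht.2 hu.2
      push_cast
      have e : (2 + W * ((t : ℤ) + s)) - (2 + W * ((u : ℤ) + s)) = W * ((t : ℤ) - u) := by ring
      rw [e] at this
      exact hcop.dvd_of_dvd_mul_left this
  have := (card_le_card hsub).trans (card_union_le _ _)
  omega

/-- all squares of primes `> z` -/
theorem bad_card (W : ℕ) (hW : 0 < W) (a : ℤ) (ha : a ≠ 0) (hWa : (W : ℤ) ∣ a) (z : ℕ) (hz : 2 ≤ z)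
    (hza : ∀ p : ℕ, p.Prime → z < p → (p : ℤ) ∣ a → p ∣ W) (t0 H T P R : ℕ) (hzP : z ≤ P)
    (hT : 15 * a.natAbs ≤ T ^ 2) (hR : 4 * T ^ 2 + a.natAbs ≤ R * P ^ 2) (hT1 : T ≤ W * t0)
    (hT2 : 1 + W * (t0 + H) ≤ 2 * T) (S : Finset ℕ) (hS : ∀ t ∈ S, t0 ≤ t ∧ t < t0 + H ∧
      ∃ p : ℕ, p.Prime ∧ z < p ∧ (p : ℤ) ^ 2 ∣ (1 + W * t : ℤ) ^ 2 + a) :
    (S.card : ℝ) ≤ 2 * H / z + 2 * P + R * (a.natAbs : ℝ) ^ 2 := by
  classical
  set S1 := ((Ioc z P).filter (fun p => p.Prime ∧ ¬ p ∣ W)).biUnion (fun p =>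
    (Ico t0 (t0 + H)).filter (fun t : ℕ => (p : ℤ) ^ 2 ∣ (1 + W * t : ℤ) ^ 2 + a)) with hS1
  set S2 := S.filter (fun t : ℕ => ∃ y : ℕ, P ≤ y ∧ (y : ℤ) ^ 2 ∣ (1 + W * t : ℤ) ^ 2 + a) with hS2
  have hsub : S ⊆ S1 ∪ S2 := by
    intro t ht
    obtain ⟨h1, h2, p, h3, h4, h5⟩ := hS t ht
    rw [mem_union]
    by_cases hpP : p ≤ P
    · left
      rw [hS1, mem_biUnion]
      refine ⟨p, ?_, ?_⟩
      · rw [mem_filter, mem_Ioc]
        refine ⟨⟨h4, hpP⟩, h3, ?_⟩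
        intro hpW
        have hpi : Prime (p : ℤ) := Nat.prime_iff_prime_int.mp h3
        have hpWi : (p : ℤ) ∣ W := by exact_mod_cast hpW
        have h6 : (p : ℤ) ∣ (1 + W * t : ℤ) ^ 2 + a :=
          (Dvd.intro_left _ (by ring : (p : ℤ) * p = p ^ 2)).trans h5
        have h7 : (p : ℤ) ∣ 1 := by
          have e : (1 : ℤ) = ((1 + W * t : ℤ) ^ 2 + a) - a - W * (t * (2 + W * t)) := by ring
          rw [e]
          exact dvd_sub (dvd_sub h6 (hpWi.trans hWa)) (Dvd.dvd.mul_right hpWi _)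
        exact hpi.not_isUnit (isUnit_of_dvd_one h7)
      · rw [mem_filter, mem_Ico]
        exact ⟨⟨h1, h2⟩, h5⟩
    · right
      rw [hS2, mem_filter]
      exact ⟨ht, p, by omega, h5⟩
  have c1 : (S1.card : ℝ) ≤ 2 * H / z + 2 * P := by
    have h1 : (S1.card : ℝ) ≤ ∑ p ∈ (Ioc z P).filter (fun p => p.Prime ∧ ¬ p ∣ W),
        (2 * ((H : ℝ) * ((p : ℝ) ^ 2)⁻¹ + 1)) := by
      have h2 := card_biUnion_le (s := (Ioc z P).filter (fun p => p.Prime ∧ ¬ p ∣ W))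
        (t := fun p => (Ico t0 (t0 + H)).filter (fun t : ℕ => (p : ℤ) ^ 2 ∣ (1 + W * t : ℤ) ^ 2 + a))
      rw [← hS1] at h2
      have h3 : (S1.card : ℝ) ≤ ∑ p ∈ (Ioc z P).filter (fun p => p.Prime ∧ ¬ p ∣ W),
          (((Ico t0 (t0 + H)).filter (fun t : ℕ => (p : ℤ) ^ 2 ∣ (1 + W * t : ℤ) ^ 2 + a)).card : ℝ) := by
        exact_mod_cast h2
      refine h3.trans (sum_le_sum ?_)
      intro p hp
      rw [mem_filter, mem_Ioc] at hp
      obtain ⟨⟨hp1, hp2⟩, hp3, hp4⟩ := hp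
      have h4 := mid_squares W a p hp3 (by omega) hp4 (fun h => hp4 (hza p hp3 hp1 h)) t0 H
      have h5 : (((Ico t0 (t0 + H)).filter (fun t : ℕ => (p : ℤ) ^ 2 ∣ (1 + W * t : ℤ) ^ 2 + a)).card : ℝ) ≤
          2 * (((H / p ^ 2 : ℕ) : ℝ) + 1) := by exact_mod_cast h4
      refine h5.trans ?_
      have h6 : ((H / p ^ 2 : ℕ) : ℝ) ≤ H * ((p : ℝ) ^ 2)⁻¹ := by
        have := @Nat.cast_div_le ℝ _ _ _ H (p ^ 2)
        rw [Nat.cast_pow] at this
        rwa [div_eq_mul_inv] at this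
      linarith
    have h7 : ∑ p ∈ (Ioc z P).filter (fun p => p.Prime ∧ ¬ p ∣ W), (2 * ((H : ℝ) * ((p : ℝ) ^ 2)⁻¹ + 1)) ≤
        ∑ p ∈ Ioc z P, (2 * ((H : ℝ) * ((p : ℝ) ^ 2)⁻¹ + 1)) := by
      apply sum_le_sum_of_subset_of_nonneg (filter_subset _ _)
      intro p _ _
      positivity
    have h8 : ∑ p ∈ Ioc z P, (2 * ((H : ℝ) * ((p : ℝ) ^ 2)⁻¹ + 1)) =
        2 * H * (∑ p ∈ Ioc z P, ((p : ℝ) ^ 2)⁻¹) + 2 * ((Ioc z P).card : ℝ) := by
      rw [mul_sum, card_eq_sum_ones, Nat.cast_sum, mul_sum, ← sum_add_distrib]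
      refine sum_congr rfl fun p _ => ?_
      push_cast
      ring
    have h9 : ∑ p ∈ Ioc z P, ((p : ℝ) ^ 2)⁻¹ ≤ (z : ℝ)⁻¹ := by
      have := sum_Ioc_inv_sq_le_sub (α := ℝ) (k := z) (n := P) (by omega) hzP
      have h10 : (0 : ℝ) ≤ (P : ℝ)⁻¹ := by positivity
      linarith
    have h10 : ((Ioc z P).card : ℝ) ≤ P := by
      rw [Nat.card_Ioc]
      have : P - z ≤ P := Nat.sub_le _ _
      exact_mod_cast this
    have h11 : 2 * (H : ℝ) * (∑ p ∈ Ioc z P, ((p : ℝ) ^ 2)⁻¹) ≤ 2 * H * (z : ℝ)⁻¹ :=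
      mul_le_mul_of_nonneg_left h9 (by positivity)
    calc (S1.card : ℝ) ≤ _ := h1
      _ ≤ _ := h7
      _ = _ := h8
      _ ≤ 2 * H * (z : ℝ)⁻¹ + 2 * P := by linarith
      _ = _ := by rw [div_eq_mul_inv]
  have c2 : S2.card ≤ R * a.natAbs ^ 2 := by
    have hinj : Function.Injective (fun t : ℕ => 1 + W * t) := by
      intro s t h
      simp only at h
      exact Nat.eq_of_mul_eq_mul_left hW (by omega)
    rw [← card_image_of_injective S2 hinj]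
    apply big_squares a ha T P R hT (by omega) hR
    intro x hx
    rw [mem_image] at hx
    obtain ⟨t, ht, rfl⟩ := hx
    rw [hS2, mem_filter] at ht
    obtain ⟨h1, h2, -⟩ := hS t ht.1
    have h3 : W * t0 ≤ W * t := Nat.mul_le_mul_left W h1
    have h4 : W * t ≤ W * (t0 + H) := Nat.mul_le_mul_left W (by omega)
    refine ⟨by omega, by omega, ?_⟩
    obtain ⟨y, hy1, hy2⟩ := ht.2
    refine ⟨y, hy1, ?_⟩
    push_cast
    exact hy2
  have h1 := (card_le_card hsub).trans (card_union_le _ _)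
  have h2 : (S.card : ℝ) ≤ S1.card + S2.card := by exact_mod_cast h1
  have h3 : (S2.card : ℝ) ≤ R * (a.natAbs : ℝ) ^ 2 := by exact_mod_cast c2
  linarith

end Pool.Agent.CNC
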