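import Pool.Agent.CNC.A
import Pool.Agent.TH464.PO.Gen

/-!
# The sieve in intervals, and the two counts of good indices
-/

set_option autoImplicit false

namespace Pool.Agent.CNC

open Finset Filter
open Pool.Agent.W123.RP Pool.Agent.H373R2.T7 Pool.Agent.TH464.PW Pool.Agent.TH464.PO

open Classical in
/-- the lower bound sieve for periodic conditions with at most `c` classes, in all intervals -/
theorem sift_gen (c : ℕ) (hc : 1 ≤ c) : ∃ K z0 : ℕ, 1 ≤ K ∧ 2 ≤ z0 ∧ ∃ v : ℝ, 0 < v ∧ ∀ H z s : ℕ, z0 ≤ z →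
    z ^ K ≤ H → ∀ Q : ℕ → ℕ → Prop, PerB Q c → (∀ p : ℕ, p.Prime → nuB Q p < p) →
      v * (H / Real.log z ^ c) ≤
        ((Ico (s + 1) (s + 1 + H)).filter (fun t => ∀ p ∈ pz z, ¬ Q p t)).card := by
  obtain ⟨v0, hv0, hV⟩ := V_lower_unif c
  obtain ⟨K, x0, hK, hF⟩ := sys_fund c hc (1 / 2) (by norm_num)
  have hev := logpow_rpow c (4 / v0) (1 / 2) (by positivity) (by norm_num)
  rw [eventually_atTop] at hev
  obtain ⟨n0, hn0⟩ := hev
  refine ⟨K, max (max x0 n0) 2, hK, le_max_right _ _, v0 / 4, by positivity, ?_⟩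
  intro N z s hz hzN Q0 hQ0 hadm0
  have hz1 : x0 ≤ z := ((le_max_left _ _).trans (le_max_left _ _)).trans hz
  have hz2 : n0 ≤ z := ((le_max_right _ _).trans (le_max_left _ _)).trans hz
  have hz3 : 2 ≤ z := (le_max_right _ _).trans hz
  have hzN1 : z ≤ N := by
    calc z = z ^ 1 := (pow_one z).symm
      _ ≤ z ^ K := Nat.pow_le_pow_right (by omega) hK
      _ ≤ N := hzN
  have hadm : ∀ p : ℕ, p.Prime → nuB (Qt Q0 s) p < p := fun p hp => by
    rw [nuB_Qt Q0 c hQ0]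
    exact hadm0 p hp
  have h1 := hF N z hz1 hzN (Qt Q0 s) (perB_Qt Q0 c hQ0 s) N
  have h2 := hV (Qt Q0 s) (perB_Qt Q0 c hQ0 s) hadm z hz3
  unfold Vq at h2
  obtain ⟨V, hVd⟩ : ∃ V : ℝ, V = ∏ p ∈ pz z, (1 - (nuB (Qt Q0 s) p : ℝ) / p) := ⟨_, rfl⟩
  rw [← hVd] at h1 h2
  have hzr : (2 : ℝ) ≤ z := by exact_mod_cast hz3
  have hL : 0 < Real.log z := Real.log_pos (by linarith)
  have hL3 : 0 < Real.log z ^ c := by positivity
  have hNr : (z : ℝ) ≤ N := by exact_mod_cast hzN1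
  have hN0 : (0 : ℝ) < N := by linarith
  have h3 := hn0 z hz2
  have h4 : √(N : ℝ) ≤ N * V / 4 := by
    have e1 : Real.log z ^ c * (4 / v0) ≤ √(N : ℝ) := by
      have e2 : (z : ℝ) ^ ((1 : ℝ) / 2) ≤ √(N : ℝ) := by
        rw [← Real.sqrt_eq_rpow]
        exact Real.sqrt_le_sqrt hNr
      rw [mul_comm]
      exact h3.trans e2
    have e3 : √(N : ℝ) * √(N : ℝ) = N := Real.mul_self_sqrt hN0.le
    have e4 : 4 ≤ √(N : ℝ) * V := by
      calc (4 : ℝ) = (Real.log z ^ c * (4 / v0)) * (v0 / Real.log z ^ c) := by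
            field_simp
        _ ≤ √(N : ℝ) * V := mul_le_mul e1 h2 (by positivity) (by positivity)
    have e5 : 0 ≤ √(N : ℝ) := Real.sqrt_nonneg _
    have e6 := mul_le_mul_of_nonneg_left e4 e5
    have e7 : √(N : ℝ) * (√(N : ℝ) * V) = N * V := by rw [← mul_assoc, e3]
    linarith
  have h5 := (abs_le.1 h1).1
  have h6 : (N : ℝ) * V / 4 ≤ (((Icc 1 N).filter (fun n : ℕ => ∀ p ∈ pz z, ¬ Qt Q0 s p n)).card : ℝ) := by
    linarith
  have h7 : ((Icc 1 N).filter (fun n : ℕ => ∀ p ∈ pz z, ¬ Qt Q0 s p n)).card ≤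
      ((Ico (s + 1) (s + 1 + N)).filter (fun t => ∀ p ∈ pz z, ¬ Q0 p t)).card := by
    apply card_le_card_of_injOn (fun n => n + s)
    · intro t ht
      simp only [coe_filter, mem_Icc, Set.mem_setOf_eq] at ht
      simp only [coe_filter, mem_Ico, Set.mem_setOf_eq]
      exact ⟨⟨by omega, by omega⟩, ht.2⟩
    · intro a _ b _ hab
      simp only at hab
      omega
  have h8 : (((Icc 1 N).filter (fun n : ℕ => ∀ p ∈ pz z, ¬ Qt Q0 s p n)).card : ℝ) ≤
      ((Ico (s + 1) (s + 1 + N)).filter (fun t => ∀ p ∈ pz z, ¬ Q0 p t)).card := by exact_mod_cast h7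
  refine le_trans ?_ (h6.trans h8)
  calc v0 / 4 * (N / Real.log z ^ c) = N * (v0 / Real.log z ^ c) / 4 := by ring
    _ ≤ N * V / 4 := by
        have := mul_le_mul_of_nonneg_left h2 hN0.le
        linarith

/-- the constant `k (W j) ^ 2` -/
def cc (k W j : ℕ) : ℕ := k * (W * j) ^ 2

/-- the values `(1 + W t)² ± c` -/
def Fv (k W : ℕ) (q : ℕ × Bool) (t : ℕ) : ℤ := (1 + W * t : ℤ) ^ 2 + (bif q.2 then (cc k W q.1 : ℤ) else -(cc k W q.1 : ℤ))

/-- the index set of the factors -/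
def Ix (J : ℕ) : Finset (ℕ × Bool) := Icc 1 J ×ˢ univ

lemma card_Ix (J : ℕ) : (Ix J).card = 2 * J := by
  unfold Ix
  rw [card_product, Nat.card_Icc, card_univ, Fintype.card_bool]
  omega

/-- no prime `≤ z` outside `W` divides a value -/
def Low (k W J z t : ℕ) : Prop := ∀ q ∈ Ix J, ∀ p : ℕ, p.Prime → p ≤ z → ¬ p ∣ W → ¬ (p : ℤ) ∣ Fv k W q t

/-- no square of a prime `> z` divides a value -/
def High (k W J z t : ℕ) : Prop := ∀ q ∈ Ix J, ∀ p : ℕ, p.Prime → z < p → ¬ (p : ℤ) ^ 2 ∣ Fv k W q t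

/-- the numerical hypotheses on the interval `s + 1 ≤ t ≤ s + H` -/
structure Num (k W J s H T P R : ℕ) : Prop where
  hT : 15 * cc k W J ≤ T ^ 2
  hR : 4 * T ^ 2 + cc k W J ≤ R * P ^ 2
  hT1 : T ≤ W * (s + 1)
  hT2 : 1 + W * (s + 1 + H) ≤ 2 * T

lemma cc_mono (k W : ℕ) {i j : ℕ} (h : i ≤ j) : cc k W i ≤ cc k W j := by
  unfold cc
  apply Nat.mul_le_mul_left
  apply Nat.pow_le_pow_left
  exact Nat.mul_le_mul_left W h

open Classical in
/-- few indices with a large square -/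
theorem high_card (k W J z : ℕ) (hk : 0 < k) (hkW : k ∣ W) (hW : 0 < W) (hz : 2 ≤ z) (hJz : J ≤ z)
    (s H T P R : ℕ) (hzP : z ≤ P) (hN : Num k W J s H T P R) :
    ((((Ico (s + 1) (s + 1 + H)).filter (fun t => ¬ High k W J z t)).card : ℕ) : ℝ) ≤
      2 * J * (2 * H / z + 2 * P + R * (cc k W J : ℝ) ^ 2) := by
  have hsub : (Ico (s + 1) (s + 1 + H)).filter (fun t => ¬ High k W J z t) ⊆
      (Ix J).biUnion (fun q => (Ico (s + 1) (s + 1 + H)).filter (fun t =>
        ∃ p : ℕ, p.Prime ∧ z < p ∧ (p : ℤ) ^ 2 ∣ Fv k W q t)) := by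
    intro t ht
    rw [mem_filter] at ht
    obtain ⟨h1, h2⟩ := ht
    unfold High at h2
    push Not at h2
    obtain ⟨q, hq, p, hp1, hp2, hp3⟩ := h2
    rw [mem_biUnion]
    exact ⟨q, hq, mem_filter.2 ⟨h1, p, hp1, hp2, hp3⟩⟩
  have h1 := (card_le_card hsub).trans card_biUnion_le
  have h2 : ((((Ico (s + 1) (s + 1 + H)).filter (fun t => ¬ High k W J z t)).card : ℕ) : ℝ) ≤
      ∑ q ∈ Ix J, ((((Ico (s + 1) (s + 1 + H)).filter (fun t =>
        ∃ p : ℕ, p.Prime ∧ z < p ∧ (p : ℤ) ^ 2 ∣ Fv k W q t)).card : ℕ) : ℝ) := by exact_mod_cast h1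
  refine h2.trans ?_
  have h3 : ∀ q ∈ Ix J, ((((Ico (s + 1) (s + 1 + H)).filter (fun t =>
        ∃ p : ℕ, p.Prime ∧ z < p ∧ (p : ℤ) ^ 2 ∣ Fv k W q t)).card : ℕ) : ℝ) ≤
      2 * H / z + 2 * P + R * (cc k W J : ℝ) ^ 2 := by
    intro q hq
    unfold Ix at hq
    rw [mem_product, mem_Icc] at hq
    obtain ⟨⟨hq1, hq2⟩, -⟩ := hq
    obtain ⟨a, ha⟩ : ∃ a : ℤ, a = (bif q.2 then (cc k W q.1 : ℤ) else -(cc k W q.1 : ℤ)) := ⟨_, rfl⟩
    have hcpos : 0 < cc k W q.1 := by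
      unfold cc
      positivity
    have hcJ : cc k W q.1 ≤ cc k W J := cc_mono k W hq2
    have hab : a.natAbs = cc k W q.1 := by
      rw [ha]
      cases q.2 <;> simp
    have ha0 : a ≠ 0 := by
      intro h
      rw [h] at hab
      simp only [Int.natAbs_zero] at hab
      omega
    have hdv : ∀ d : ℕ, (d : ℤ) ∣ a ↔ d ∣ cc k W q.1 := by
      intro d
      rw [← hab, ← Int.natCast_dvd_natCast, Int.dvd_natAbs]
    have hWa : (W : ℤ) ∣ a := by
      rw [hdv]
      unfold cc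
      rw [mul_pow]
      exact Dvd.dvd.mul_left (Dvd.dvd.mul_right (dvd_pow_self W two_ne_zero) _) _
    have := bad_card W hW a ha0 hWa z hz (by
      intro p hp hpz hpa
      rw [hdv] at hpa
      unfold cc at hpa
      rcases hp.dvd_mul.1 hpa with h | h
      · exact h.trans hkW
      · have h := hp.dvd_of_dvd_pow h
        rcases hp.dvd_mul.1 h with h | h
        · exact h
        · have := Nat.le_of_dvd (by omega) h
          omega) (s + 1) H T P R hzP (by rw [hab]; have := hN.hT; omega) (by rw [hab]; have := hN.hR; omega)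
      hN.hT1 hN.hT2 ((Ico (s + 1) (s + 1 + H)).filter (fun t =>
        ∃ p : ℕ, p.Prime ∧ z < p ∧ (p : ℤ) ^ 2 ∣ Fv k W q t)) (by
        intro t ht
        rw [mem_filter, mem_Ico] at ht
        obtain ⟨⟨h4, h5⟩, p, h6, h7, h8⟩ := ht
        refine ⟨h4, h5, p, h6, h7, ?_⟩
        unfold Fv at h8
        rw [← ha] at h8
        exact h8)
    refine this.trans ?_
    rw [hab]
    have h9 : (cc k W q.1 : ℝ) ≤ cc k W J := by exact_mod_cast hcJ
    have h10 : (cc k W q.1 : ℝ) ^ 2 ≤ (cc k W J : ℝ) ^ 2 := pow_le_pow_left₀ (by positivity) h9 2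
    have h11 : (R : ℝ) * (cc k W q.1 : ℝ) ^ 2 ≤ R * (cc k W J : ℝ) ^ 2 :=
      mul_le_mul_of_nonneg_left h10 (by positivity)
    linarith
  refine (sum_le_sum h3).trans ?_
  rw [sum_const, card_Ix, nsmul_eq_mul]
  push_cast
  exact le_rfl

/-- the sieve conditions -/
def Qc (k W J p t : ℕ) : Prop := ¬ p ∣ W ∧ ∃ q ∈ Ix J, (p : ℤ) ∣ Fv k W q t

open Classical in
/-- one factor has at most two roots modulo `p` -/
lemma two_roots (k W p : ℕ) (hp : p.Prime) (hpW : ¬ p ∣ W) (q : ℕ × Bool) :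
    ((range p).filter (fun t : ℕ => (p : ℤ) ∣ Fv k W q t)).card ≤ 2 := by
  obtain ⟨S, hS⟩ : ∃ S, S = (range p).filter (fun t : ℕ => (p : ℤ) ∣ Fv k W q t) := ⟨_, rfl⟩
  rw [← hS]
  rcases S.eq_empty_or_nonempty with h0 | ⟨s, hs⟩
  · rw [h0, card_empty]
    omega
  have hpi : Prime (p : ℤ) := Nat.prime_iff_prime_int.mp hp
  have hpWi : ¬ (p : ℤ) ∣ W := by exact_mod_cast hpW
  have hmem : ∀ t ∈ S, t < p ∧ (p : ℤ) ∣ Fv k W q t := by
    intro t ht
    rw [hS, mem_filter, mem_range] at ht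
    exact ht
  have hlt : ∀ u ∈ S, ∀ t ∈ S, (p : ℤ) ∣ (t : ℤ) - u → t = u := by
    intro u hu t ht h
    have h1 := (hmem u hu).1
    have h2 := (hmem t ht).1
    have h3 : (t : ℤ) - u = 0 := by
      apply Int.eq_zero_of_abs_lt_dvd h
      rw [abs_lt]
      constructor <;> omega
    omega
  have hsplit : ∀ t ∈ S, (p : ℤ) ∣ (t : ℤ) - s ∨ (p : ℤ) ∣ 2 + W * ((t : ℤ) + s) := by
    intro t ht
    have h1 := (hmem t ht).2
    have h2 := (hmem s hs).2
    have h3 : (p : ℤ) ∣ W * (((t : ℤ) - s) * (2 + W * (t + s))) := by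
      have := dvd_sub h1 h2
      have e : Fv k W q t - Fv k W q s = W * (((t : ℤ) - s) * (2 + W * (t + s))) := by
        unfold Fv
        ring
      rwa [e] at this
    rcases hpi.dvd_or_dvd h3 with h | h
    · exact absurd h hpWi
    · exact hpi.dvd_or_dvd h
  have c1 : (S.filter (fun t : ℕ => (p : ℤ) ∣ (t : ℤ) - s)).card ≤ 1 := by
    rw [card_le_one]
    intro a ha b hb
    rw [mem_filter] at ha hb
    rw [hlt s hs a ha.1 ha.2, hlt s hs b hb.1 hb.2]
  have c2 : (S.filter (fun t : ℕ => (p : ℤ) ∣ 2 + W * ((t : ℤ) + s))).card ≤ 1 := by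
    rw [card_le_one]
    intro a ha b hb
    rw [mem_filter] at ha hb
    apply hlt b hb.1 a ha.1
    have := dvd_sub ha.2 hb.2
    have e : (2 + W * ((a : ℤ) + s)) - (2 + W * ((b : ℤ) + s)) = W * ((a : ℤ) - b) := by ring
    rw [e] at this
    rcases hpi.dvd_or_dvd this with h | h
    · exact absurd h hpWi
    · exact h
  have hsub : S ⊆ S.filter (fun t : ℕ => (p : ℤ) ∣ (t : ℤ) - s) ∪
      S.filter (fun t : ℕ => (p : ℤ) ∣ 2 + W * ((t : ℤ) + s)) := by
    intro t ht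
    rcases hsplit t ht with h | h
    · exact mem_union_left _ (mem_filter.2 ⟨ht, h⟩)
    · exact mem_union_right _ (mem_filter.2 ⟨ht, h⟩)
  have := (card_le_card hsub).trans (card_union_le _ _)
  omega

lemma Fv_mod (k W : ℕ) (q : ℕ × Bool) (p t : ℕ) : (p : ℤ) ∣ Fv k W q t ↔ (p : ℤ) ∣ Fv k W q (t % p) := by
  have e : Fv k W q t - Fv k W q (t % p) =
      (p : ℤ) * (W * (t / p : ℕ) * (2 + W * (t + (t % p : ℕ)))) := by
    have h := Nat.div_add_mod t p
    have h' : (t : ℤ) = (p : ℤ) * (t / p : ℕ) + (t % p : ℕ) := by exact_mod_cast h.symm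
    unfold Fv
    generalize hu : ((t / p : ℕ) : ℤ) = u at h' ⊢
    generalize hw : ((t % p : ℕ) : ℤ) = w at h' ⊢
    rw [h']
    ring
  constructor
  · intro h
    have h1 : (p : ℤ) ∣ Fv k W q t - Fv k W q (t % p) := by rw [e]; exact Dvd.intro _ rfl
    have h2 := dvd_sub h h1
    rwa [sub_sub_cancel] at h2
  · intro h
    have h1 : (p : ℤ) ∣ Fv k W q t - Fv k W q (t % p) := by rw [e]; exact Dvd.intro _ rfl
    have h2 := dvd_add h1 h
    rwa [sub_add_cancel] at h2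

lemma nu_le (k W J p : ℕ) (hp : p.Prime) : nuB (Qc k W J) p ≤ 4 * J ∧ (p ∣ W → nuB (Qc k W J) p = 0) := by
  classical
  constructor
  · by_cases hpW : p ∣ W
    · unfold nuB
      rw [filter_eq_empty_iff.mpr (fun t _ h => h.1 hpW), card_empty]
      omega
    · unfold nuB
      have hsub : (range p).filter (fun t => Qc k W J p t) ⊆
          (Ix J).biUnion (fun q => (range p).filter (fun t : ℕ => (p : ℤ) ∣ Fv k W q t)) := by
        intro t ht
        rw [mem_filter] at ht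
        obtain ⟨h1, -, q, hq, h2⟩ := ht
        rw [mem_biUnion]
        exact ⟨q, hq, mem_filter.2 ⟨h1, h2⟩⟩
      refine (card_le_card hsub).trans (card_biUnion_le.trans ?_)
      refine (sum_le_sum (fun q _ => two_roots k W p hp hpW q)).trans ?_
      rw [sum_const, card_Ix, smul_eq_mul]
      omega
  · intro hpW
    unfold nuB
    rw [Finset.card_eq_zero]
    exact filter_eq_empty_iff.mpr (fun t _ h => h.1 hpW)

lemma perB_Qc (k W J : ℕ) : PerB (Qc k W J) (4 * J) where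
  per := by
    intro p t
    unfold Qc
    constructor
    · rintro ⟨h1, q, h2, h3⟩
      exact ⟨h1, q, h2, (Fv_mod k W q p t).1 h3⟩
    · rintro ⟨h1, q, h2, h3⟩
      exact ⟨h1, q, h2, (Fv_mod k W q p t).2 h3⟩
  few := fun p hp => (nu_le k W J p hp).1

open Classical in
/-- a positive proportion of the indices is good -/
theorem count_pos (k W J z : ℕ) (hk : 0 < k) (hkW : k ∣ W) (hW : 0 < W) (hJ : 1 ≤ J) (hz : 16 * J ≤ z)
    (hzW : ∀ p : ℕ, p.Prime → p ≤ z → p ∣ W)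
    (s H T P R : ℕ) (hzP : z ≤ P) (hN : Num k W J s H T P R)
    (hH : 2 * J * (2 * P + R * (cc k W J : ℝ) ^ 2) ≤ (H : ℝ) / 4) :
    (H : ℝ) / 2 ≤ (((Ico (s + 1) (s + 1 + H)).filter (fun t => Low k W J z t ∧ High k W J z t)).card : ℝ) := by
  have h1 := high_card k W J z hk hkW hW (by omega) (by omega) s H T P R hzP hN
  have hz0 : (0 : ℝ) < z := by
    have : 0 < z := by omega
    exact_mod_cast this
  have h2 : 2 * (J : ℝ) * (2 * H / z) ≤ (H : ℝ) / 4 := by
    have h3 : 16 * (J : ℝ) ≤ z := by exact_mod_cast hz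
    rw [show 2 * (J : ℝ) * (2 * H / z) = (4 * J * H) / z by ring, div_le_iff₀ hz0]
    have h4 : (0 : ℝ) ≤ H := Nat.cast_nonneg _
    nlinarith
  have h5 : ((((Ico (s + 1) (s + 1 + H)).filter (fun t => ¬ High k W J z t)).card : ℕ) : ℝ) ≤ (H : ℝ) / 2 := by
    refine h1.trans ?_
    nlinarith
  have h6 := card_filter_add_card_filter_not (s := Ico (s + 1) (s + 1 + H)) (fun t => High k W J z t)
  have h7 : (((Ico (s + 1) (s + 1 + H)).filter (fun t => High k W J z t)).card : ℝ) +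
      (((Ico (s + 1) (s + 1 + H)).filter (fun t => ¬ High k W J z t)).card : ℝ) = H := by
    have h8 : (Ico (s + 1) (s + 1 + H)).card = H := by rw [Nat.card_Ico]; omega
    rw [h8] at h6
    exact_mod_cast h6
  have h9 : (Ico (s + 1) (s + 1 + H)).filter (fun t => High k W J z t) =
      (Ico (s + 1) (s + 1 + H)).filter (fun t => Low k W J z t ∧ High k W J z t) := by
    apply filter_congr
    intro t _
    constructor
    · intro h
      exact ⟨fun q _ p hp hpz hpW => absurd (hzW p hp hpz) hpW, h⟩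
    · exact fun h => h.2
  rw [h9] at h7
  linarith

open Classical in
/-- almost primes -/
theorem count_low (J : ℕ) (hJ : 1 ≤ J) : ∃ K z0 : ℕ, 1 ≤ K ∧ 2 ≤ z0 ∧ ∃ v : ℝ, 0 < v ∧
    ∀ k W : ℕ, 0 < k → k ∣ W → 0 < W → (∀ p : ℕ, p.Prime → p ≤ 4 * J → p ∣ W) →
    ∀ z s H T P R : ℕ, z0 ≤ z → J ≤ z → z ^ K ≤ H → z ≤ P → Num k W J s H T P R →
      v * (H / Real.log z ^ (4 * J)) - 2 * J * (2 * H / z + 2 * P + R * (cc k W J : ℝ) ^ 2) ≤
        (((Ico (s + 1) (s + 1 + H)).filter (fun t => Low k W J z t ∧ High k W J z t)).card : ℝ) := by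
  obtain ⟨K, z0, hK, hz0, v, hv, hS⟩ := sift_gen (4 * J) (by omega)
  refine ⟨K, z0, hK, hz0, v, hv, ?_⟩
  intro k W hk hkW hW hpW z s H T P R hz hJz hzH hzP hN
  have h1 := hS H z s hz hzH (Qc k W J) (perB_Qc k W J) (fun p hp => by
    by_cases h : p ≤ 4 * J
    · rw [(nu_le k W J p hp).2 (hpW p hp h)]
      exact hp.pos
    · have := (nu_le k W J p hp).1
      omega)
  have h2 := high_card k W J z hk hkW hW (by omega) hJz s H T P R hzP hN
  have h3 : ((Ico (s + 1) (s + 1 + H)).filter (fun t => ∀ p ∈ pz z, ¬ Qc k W J p t)).card ≤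
      ((Ico (s + 1) (s + 1 + H)).filter (fun t => Low k W J z t ∧ High k W J z t)).card +
      ((Ico (s + 1) (s + 1 + H)).filter (fun t => ¬ High k W J z t)).card := by
    rw [← card_union_of_disjoint]
    · apply card_le_card
      intro t ht
      rw [mem_filter] at ht
      rw [mem_union, mem_filter, mem_filter]
      by_cases hh : High k W J z t
      · left
        refine ⟨ht.1, ?_, hh⟩
        intro q hq p hp hpz hpW hd
        exact ht.2 p (mem_pz.2 ⟨hpz, hp⟩) ⟨hpW, q, hq, hd⟩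
      · exact Or.inr ⟨ht.1, hh⟩
    · rw [disjoint_left]
      intro t h4 h5
      rw [mem_filter] at h4 h5
      exact h5.2 h4.2.2
  have h4 : (((Ico (s + 1) (s + 1 + H)).filter (fun t => ∀ p ∈ pz z, ¬ Qc k W J p t)).card : ℝ) ≤
      (((Ico (s + 1) (s + 1 + H)).filter (fun t => Low k W J z t ∧ High k W J z t)).card : ℝ) +
      (((Ico (s + 1) (s + 1 + H)).filter (fun t => ¬ High k W J z t)).card : ℝ) := by exact_mod_cast h3
  linarith

end Pool.Agent.CNC
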