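import Pool.Agent.CNC.B

/-!
# The values are squarefree congruent numbers
-/

set_option autoImplicit false

namespace Pool.Agent.CNC

open Finset

/-- `n` is the area of a right triangle with rational sides -/
def Cong (n : ℕ) : Prop :=
  ∃ a b c : ℚ, 0 < a ∧ 0 < b ∧ 0 < c ∧ a ^ 2 + b ^ 2 = c ^ 2 ∧ (n : ℚ) = a * b / 2

/-- the numbers `k (x ^ 2 - k w ^ 2) (x ^ 2 + k w ^ 2)` are congruent -/
lemma cong_val (k x w : ℕ) (hk : 0 < k) (hx : 0 < x) (hw : 0 < w) (h : k * w ^ 2 < x ^ 2) :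
    Cong (k * ((x ^ 2 - k * w ^ 2) * (x ^ 2 + k * w ^ 2))) := by
  have hx' : (0 : ℚ) < x := by exact_mod_cast hx
  have hw' : (0 : ℚ) < w := by exact_mod_cast hw
  have hk' : (0 : ℚ) < k := by exact_mod_cast hk
  have h' : (k : ℚ) * (w : ℚ) ^ 2 < (x : ℚ) ^ 2 := by exact_mod_cast h
  have hkw : (0 : ℚ) < k * (w : ℚ) ^ 2 := by positivity
  refine ⟨((x : ℚ) ^ 4 - (k * w ^ 2) ^ 2) / (x * w), 2 * k * x * w, ((x : ℚ) ^ 4 + (k * w ^ 2) ^ 2) / (x * w),
    ?_, by positivity, by positivity, ?_, ?_⟩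
  · apply div_pos _ (by positivity)
    have : (x : ℚ) ^ 4 - (k * w ^ 2) ^ 2 = (x ^ 2 - k * w ^ 2) * (x ^ 2 + k * w ^ 2) := by ring
    rw [this]
    exact mul_pos (by linarith) (by linarith)
  · field_simp
    ring
  · push_cast [Nat.cast_sub h.le]
    field_simp
    ring

section

variable {k W J z t : ℕ} (hk : Squarefree k) (hkW : k ∣ W) (hW : 0 < W) (hz : 2 ≤ z) (hJz : J ≤ z)
  (hlow : Low k W J z t) (hhigh : High k W J z t)

include hkW hW in
/-- the lower factor as a natural number -/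
lemma Fv_minus (j : ℕ) (h : cc k W j ≤ (1 + W * t) ^ 2) :
    (((1 + W * t) ^ 2 - cc k W j : ℕ) : ℤ) = Fv k W (j, false) t := by
  unfold Fv
  push_cast [Nat.cast_sub h]
  simp
  ring

lemma Fv_plus (k W j t : ℕ) : (((1 + W * t) ^ 2 + cc k W j : ℕ) : ℤ) = Fv k W (j, true) t := by
  unfold Fv
  push_cast
  simp

/-- the factors are prime to `W` -/
lemma not_dvd_W (k W j t : ℕ) (s : Bool) (p : ℕ) (hp : p.Prime) (hpW : p ∣ W) : ¬ (p : ℤ) ∣ Fv k W (j, s) t := by
  intro h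
  have hpi : Prime (p : ℤ) := Nat.prime_iff_prime_int.mp hp
  have hpWi : (p : ℤ) ∣ W := by exact_mod_cast hpW
  have hc : (p : ℤ) ∣ (cc k W j : ℤ) := by
    have : p ∣ cc k W j := by
      unfold cc
      rw [mul_pow]
      exact Dvd.dvd.mul_left (Dvd.dvd.mul_right (hpW.trans (dvd_pow_self W two_ne_zero)) _) _
    exact_mod_cast this
  have h1 : (p : ℤ) ∣ (bif s then (cc k W j : ℤ) else -(cc k W j : ℤ)) := by
    cases s
    · exact (dvd_neg).2 hc
    · exact hc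
  unfold Fv at h
  have h2 : (p : ℤ) ∣ (1 + W * t : ℤ) ^ 2 := (dvd_add_left h1).1 h
  have h3 : (p : ℤ) ∣ 1 := by
    have e : (1 : ℤ) = (1 + W * t : ℤ) ^ 2 - W * (t * (2 + W * t)) := by ring
    rw [e]
    exact dvd_sub h2 (Dvd.dvd.mul_right hpWi _)
  exact hpi.not_isUnit (isUnit_of_dvd_one h3)

include hlow in
/-- all prime factors of the factors exceed `z` -/
lemma big_prime (j : ℕ) (hj1 : 1 ≤ j) (hj2 : j ≤ J) (s : Bool) (p : ℕ) (hp : p.Prime)
    (h : (p : ℤ) ∣ Fv k W (j, s) t) : z < p := by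
  by_contra hcon
  rw [not_lt] at hcon
  by_cases hpW : p ∣ W
  · exact not_dvd_W k W j t s p hp hpW h
  · refine hlow (j, s) ?_ p hp hcon hpW h
    unfold Ix
    rw [mem_product, mem_Icc]
    exact ⟨⟨hj1, hj2⟩, mem_univ _⟩

include hlow hhigh in
lemma sqf_factor (j : ℕ) (hj1 : 1 ≤ j) (hj2 : j ≤ J) (s : Bool) (m : ℕ) (hm : (m : ℤ) = Fv k W (j, s) t) :
    Squarefree m := by
  rw [Nat.squarefree_iff_prime_squarefree]
  intro p hp h
  have h1 : ((p * p : ℕ) : ℤ) ∣ Fv k W (j, s) t := by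
    rw [← hm]
    exact_mod_cast h
  have h2 : (p : ℤ) ∣ Fv k W (j, s) t := by
    refine dvd_trans ?_ h1
    push_cast
    exact Dvd.intro _ rfl
  have h3 := big_prime hlow j hj1 hj2 s p hp h2
  refine hhigh (j, s) ?_ p hp h3 ?_
  · unfold Ix
    rw [mem_product, mem_Icc]
    exact ⟨⟨hj1, hj2⟩, mem_univ _⟩
  · push_cast at h1
    rwa [pow_two]

/-- the quotient -/
def rr (k W t j : ℕ) : ℕ := ((1 + W * t) ^ 2 - cc k W j) * ((1 + W * t) ^ 2 + cc k W j)

include hk hkW hW hz hJz hlow hhigh in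
/-- the values are squarefree; all prime factors of the quotient by `k` are larger than `z` -/
lemma sqf_val (j : ℕ) (hj1 : 1 ≤ j) (hj2 : j ≤ J) (h : cc k W j ≤ (1 + W * t) ^ 2) :
    Squarefree (k * rr k W t j) ∧ ∀ p : ℕ, p.Prime → p ∣ rr k W t j → z < p := by
  obtain ⟨A, hA⟩ : ∃ A : ℕ, A = (1 + W * t) ^ 2 - cc k W j := ⟨_, rfl⟩
  obtain ⟨B, hB⟩ : ∃ B : ℕ, B = (1 + W * t) ^ 2 + cc k W j := ⟨_, rfl⟩
  have hAi : (A : ℤ) = Fv k W (j, false) t := by rw [hA]; exact Fv_minus hkW hW j h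
  have hBi : (B : ℤ) = Fv k W (j, true) t := by rw [hB]; exact Fv_plus k W j t
  have hpA : ∀ p : ℕ, p.Prime → p ∣ A → z < p := fun p hp hd =>
    big_prime hlow j hj1 hj2 false p hp (by rw [← hAi]; exact_mod_cast hd)
  have hpB : ∀ p : ℕ, p.Prime → p ∣ B → z < p := fun p hp hd =>
    big_prime hlow j hj1 hj2 true p hp (by rw [← hBi]; exact_mod_cast hd)
  have hsA : Squarefree A := sqf_factor hlow hhigh j hj1 hj2 false A hAi
  have hsB : Squarefree B := sqf_factor hlow hhigh j hj1 hj2 true B hBi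
  have hWA : ∀ p : ℕ, p.Prime → p ∣ W → ¬ p ∣ A := fun p hp hpW hd =>
    not_dvd_W k W j t false p hp hpW (by rw [← hAi]; exact_mod_cast hd)
  have hWB : ∀ p : ℕ, p.Prime → p ∣ W → ¬ p ∣ B := fun p hp hpW hd =>
    not_dvd_W k W j t true p hp hpW (by rw [← hBi]; exact_mod_cast hd)
  have hAB : Nat.Coprime A B := by
    apply Nat.coprime_of_dvd
    intro p hp h1 h2
    have h3 := hpA p hp h1
    have h4 : p ∣ 2 * cc k W j := by
      have : B - A = 2 * cc k W j := by omega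
      rw [← this]
      exact Nat.dvd_sub h2 h1
    rcases hp.dvd_mul.1 h4 with h5 | h5
    · have := Nat.le_of_dvd (by norm_num) h5
      omega
    · unfold cc at h5
      rcases hp.dvd_mul.1 h5 with h6 | h6
      · exact hWA p hp (h6.trans hkW) h1
      · have h6 := hp.dvd_of_dvd_pow h6
        rcases hp.dvd_mul.1 h6 with h7 | h7
        · exact hWA p hp h7 h1
        · have := Nat.le_of_dvd (by omega) h7
          omega
  have hkA : Nat.Coprime k A := by
    apply Nat.coprime_of_dvd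
    intro p hp h1 h2
    exact hWA p hp (h1.trans hkW) h2
  have hkB : Nat.Coprime k B := by
    apply Nat.coprime_of_dvd
    intro p hp h1 h2
    exact hWB p hp (h1.trans hkW) h2
  have hrr : rr k W t j = A * B := by rw [hA, hB]; rfl
  constructor
  · rw [hrr, Nat.squarefree_mul (Nat.Coprime.mul_right hkA hkB), Nat.squarefree_mul hAB]
    exact ⟨hk, hsA, hsB⟩
  · intro p hp hd
    rw [hrr] at hd
    rcases hp.dvd_mul.1 hd with h1 | h1
    · exact hpA p hp h1
    · exact hpB p hp h1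

end

/-- the class modulo `W` -/
lemma val_mod (k W t j : ℕ) (hkW : k ∣ W) (h : cc k W j ≤ (1 + W * t) ^ 2) :
    k * rr k W t j ≡ k [MOD W] := by
  rw [← Int.natCast_modEq_iff]
  have h1 : ((k * rr k W t j : ℕ) : ℤ) = k * (((1 + W * t : ℤ) ^ 2 - cc k W j) * ((1 + W * t : ℤ) ^ 2 + cc k W j)) := by
    unfold rr
    push_cast [Nat.cast_sub h]
    rfl
  rw [h1]
  have h2 : (W : ℤ) ∣ (cc k W j : ℤ) := by
    have : W ∣ cc k W j := by
      unfold cc
      rw [mul_pow]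
      exact Dvd.dvd.mul_left (Dvd.dvd.mul_right (dvd_pow_self W two_ne_zero) _) _
    exact_mod_cast this
  obtain ⟨u, hu⟩ := h2
  apply Int.ModEq.symm
  rw [Int.modEq_iff_dvd, hu]
  exact ⟨k * ((t * (2 + W * t)) * ((1 + W * t : ℤ) ^ 2 + 1) - W * u ^ 2), by ring⟩

/-- the value as a difference of fourth powers -/
lemma rr_eq (k W t j : ℕ) (h : cc k W j ≤ (1 + W * t) ^ 2) :
    rr k W t j + cc k W j ^ 2 = (1 + W * t) ^ 4 := by
  unfold rr
  obtain ⟨e, he⟩ := Nat.exists_eq_add_of_le h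
  rw [he, Nat.add_sub_cancel_left]
  have : (1 + W * t) ^ 4 = ((1 + W * t) ^ 2) ^ 2 := by ring
  rw [this, he]
  ring

/-- the differences -/
def dd (k W J : ℕ) (i : ℕ) : ℕ := k * (cc k W J ^ 2 - cc k W (J - i) ^ 2)

lemma val_add (k W J t i : ℕ) (h : cc k W J ≤ (1 + W * t) ^ 2) :
    k * rr k W t J + dd k W J i = k * rr k W t (J - i) := by
  have h1 := cc_mono k W (Nat.sub_le J i)
  have h2 := rr_eq k W t J h
  have h3 := rr_eq k W t (J - i) (h1.trans h)
  have h4 : cc k W (J - i) ^ 2 ≤ cc k W J ^ 2 := Nat.pow_le_pow_left h1 2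
  unfold dd
  rw [← Nat.mul_add]
  congr 1
  omega

lemma dd_lt (k W J : ℕ) (hk : 0 < k) (hW : 0 < W) (i i' : ℕ) (h : i < i') (h' : i' ≤ J) :
    dd k W J i < dd k W J i' := by
  unfold dd
  apply Nat.mul_lt_mul_of_pos_left _ hk
  have h1 : cc k W (J - i') < cc k W (J - i) := by
    unfold cc
    apply Nat.mul_lt_mul_of_pos_left _ hk
    apply Nat.pow_lt_pow_left _ two_ne_zero
    exact Nat.mul_lt_mul_of_pos_left (by omega) hW
  have h2 : cc k W (J - i') ^ 2 < cc k W (J - i) ^ 2 := Nat.pow_lt_pow_left h1 two_ne_zero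
  have h3 : cc k W (J - i) ^ 2 ≤ cc k W J ^ 2 := Nat.pow_le_pow_left (cc_mono k W (Nat.sub_le J i)) 2
  omega

lemma dd_zero (k W J : ℕ) : dd k W J 0 = 0 := by
  unfold dd
  simp

/-- few prime factors -/
lemma pow_len (m y : ℕ) (hm : m ≠ 0) (h : ∀ p : ℕ, p.Prime → p ∣ m → y ≤ p) :
    y ^ m.primeFactorsList.length ≤ m := by
  have key : ∀ l : List ℕ, (∀ q ∈ l, y ≤ q) → y ^ l.length ≤ l.prod := by
    intro l
    induction l with
    | nil => simp
    | cons a l ih =>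
      intro hl
      rw [List.length_cons, List.prod_cons, pow_succ, mul_comm]
      exact Nat.mul_le_mul (hl a (by simp)) (ih fun q hq => hl q (by simp [hq]))
  have h1 := key m.primeFactorsList (fun q hq => h q (Nat.prime_of_mem_primeFactorsList hq)
    (Nat.dvd_of_mem_primeFactorsList hq))
  rwa [Nat.prod_primeFactorsList hm] at h1

end Pool.Agent.CNC
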