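import Pool.Agent.CNC.C

/-!
# The windows
-/

set_option autoImplicit false

namespace Pool.Agent.CNC

open Finset Filter

/-- the first admissible `x` -/
lemma exists_x0 (k : ℕ) (hk : 0 < k) (c X : ℝ) (hX : 0 < X) : ∃ x0 : ℕ, 1 ≤ x0 ∧
    X ≤ k * ((x0 : ℝ) ^ 4 - c ^ 2) ∧ k * (((x0 : ℝ) - 1) ^ 4 - c ^ 2) < X := by
  classical
  have hk' : (1 : ℝ) ≤ k := by exact_mod_cast hk
  have hex : ∃ x : ℕ, X ≤ k * ((x : ℝ) ^ 4 - c ^ 2) := by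
    obtain ⟨x, hx⟩ := exists_nat_ge (X + c ^ 2 + 1)
    refine ⟨x, ?_⟩
    have h0 : 0 ≤ c ^ 2 := sq_nonneg c
    have h1 : (1 : ℝ) ≤ x := by linarith
    have h2 : (x : ℝ) ≤ (x : ℝ) ^ 4 := le_self_pow₀ h1 (by norm_num)
    have h3 : X ≤ (x : ℝ) ^ 4 - c ^ 2 := by linarith
    calc X ≤ 1 * ((x : ℝ) ^ 4 - c ^ 2) := by linarith
      _ ≤ k * ((x : ℝ) ^ 4 - c ^ 2) := mul_le_mul_of_nonneg_right hk' (by linarith)
  refine ⟨Nat.find hex, ?_, Nat.find_spec hex, ?_⟩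
  · by_contra h
    have h0 : Nat.find hex = 0 := by omega
    have h1 := Nat.find_spec hex
    rw [h0] at h1
    have h2 : (k : ℝ) * ((((0 : ℕ) : ℝ)) ^ 4 - c ^ 2) ≤ 0 := by
      have : (((0 : ℕ) : ℝ)) ^ 4 - c ^ 2 ≤ 0 := by
        simp only [Nat.cast_zero]
        nlinarith [sq_nonneg c]
      exact mul_nonpos_of_nonneg_of_nonpos (by linarith) this
    linarith
  · have h0 : 1 ≤ Nat.find hex := by
      by_contra h
      have h0 : Nat.find hex = 0 := by omega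
      have h1 := Nat.find_spec hex
      rw [h0] at h1
      have h2 : (k : ℝ) * ((((0 : ℕ) : ℝ)) ^ 4 - c ^ 2) ≤ 0 := by
        have : (((0 : ℕ) : ℝ)) ^ 4 - c ^ 2 ≤ 0 := by
          simp only [Nat.cast_zero]
          nlinarith [sq_nonneg c]
        exact mul_nonpos_of_nonneg_of_nonpos (by linarith) this
      linarith
    have h1 := Nat.find_min hex (m := Nat.find hex - 1) (by omega)
    rw [not_le] at h1
    have h2 : ((Nat.find hex - 1 : ℕ) : ℝ) = (Nat.find hex : ℝ) - 1 := by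
      rw [Nat.cast_sub h0, Nat.cast_one]
    rwa [h2] at h1

/-- the window of indices for the interval `[U ^ 12, U ^ 12 + Y]` -/
theorem window (k W J : ℕ) (hk : 0 < k) (hW : 0 < W) (U Y : ℝ)
    (hU : (cc k W J : ℝ) + k + 2 * W + 16 * J + 40 ≤ U) (hY1 : 768 * k * W * (2 * U ^ 9) ≤ Y) (hY2 : Y ≤ U ^ 12) :
    ∃ s H T P R : ℕ, Num k W J s H T P R ∧ U ^ 2 ≤ P ∧
      2 * (P : ℝ) + R * (cc k W J : ℝ) ^ 2 ≤ (4 + 21 * (cc k W J : ℝ) ^ 2) * U ^ 2 ∧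
      Y / (2 * (768 * k * W) * U ^ 9) ≤ H ∧ (H : ℝ) ≤ U ^ 3 ∧
      ∀ t : ℕ, s + 1 ≤ t → t < s + 1 + H → cc k W J ≤ (1 + W * t) ^ 2 ∧
        U ^ 12 ≤ ((k * rr k W t J : ℕ) : ℝ) ∧ ((k * rr k W t J : ℕ) : ℝ) ≤ U ^ 12 + Y := by
  obtain ⟨c, hc⟩ : ∃ c : ℕ, c = cc k W J := ⟨_, rfl⟩
  rw [← hc] at hU ⊢
  have hk' : (1 : ℝ) ≤ k := by exact_mod_cast hk
  have hW' : (1 : ℝ) ≤ W := by exact_mod_cast hW
  have hc0 : (0 : ℝ) ≤ c := Nat.cast_nonneg c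
  have hJ0 : (0 : ℝ) ≤ J := Nat.cast_nonneg J
  have hU40 : 40 ≤ U := by linarith
  have hUc : (c : ℝ) ≤ U := by linarith
  have hUk : (k : ℝ) ≤ U := by linarith
  have hU0 : 0 < U := by linarith
  have hU1 : 1 ≤ U := by linarith
  obtain ⟨x0, hx1, hx2, hx3⟩ := exists_x0 k hk (c : ℝ) (U ^ 12) (by positivity)
  have hx1' : (1 : ℝ) ≤ x0 := by exact_mod_cast hx1
  -- upper bound of `x0`
  have hcU : (c : ℝ) ^ 2 ≤ U ^ 2 := pow_le_pow_left₀ hc0 hUc 2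
  have hU2 : U ^ 2 ≤ U ^ 12 := pow_le_pow_right₀ hU1 (by norm_num)
  have hU3 : (40 : ℝ) ≤ U ^ 3 := hU40.trans (le_self_pow₀ hU1 (by norm_num))
  have hup : (x0 : ℝ) ≤ 2 * U ^ 3 := by
    by_contra hcon
    rw [not_le] at hcon
    have h1 : 3 / 2 * U ^ 3 ≤ (x0 : ℝ) - 1 := by linarith
    have h2 : (3 / 2 * U ^ 3) ^ 4 ≤ ((x0 : ℝ) - 1) ^ 4 := pow_le_pow_left₀ (by positivity) h1 4
    have h3 : (3 / 2 * U ^ 3) ^ 4 = 81 / 16 * U ^ 12 := by ring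
    rw [h3] at h2
    have h12 : 0 ≤ U ^ 12 := by positivity
    have h4 : U ^ 12 ≤ ((x0 : ℝ) - 1) ^ 4 - c ^ 2 := by linarith
    have h5 : 1 * (((x0 : ℝ) - 1) ^ 4 - c ^ 2) ≤ k * (((x0 : ℝ) - 1) ^ 4 - c ^ 2) :=
      mul_le_mul_of_nonneg_right hk' (by nlinarith)
    linarith
  -- lower bound of `k x0`
  have hlow : U ^ 3 ≤ k * x0 := by
    by_contra hcon
    rw [not_le] at hcon
    have h1 : (k * x0 : ℝ) ^ 4 < (U ^ 3) ^ 4 := pow_lt_pow_left₀ hcon (by positivity) (by norm_num)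
    have h2 : (k : ℝ) * ((x0 : ℝ) ^ 4 - c ^ 2) ≤ (k * x0 : ℝ) ^ 4 := by
      have h3 : (k : ℝ) ≤ k ^ 4 := le_self_pow₀ hk' (by norm_num)
      calc (k : ℝ) * ((x0 : ℝ) ^ 4 - c ^ 2) ≤ k * (x0 : ℝ) ^ 4 := by
            apply mul_le_mul_of_nonneg_left _ (by positivity)
            linarith [sq_nonneg (c : ℝ)]
        _ ≤ k ^ 4 * (x0 : ℝ) ^ 4 := mul_le_mul_of_nonneg_right h3 (by positivity)
        _ = _ := by ring
    have h4 : (U ^ 3) ^ 4 = U ^ 12 := by ring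
    linarith
  have hlow2 : U ^ 2 ≤ x0 := by
    have h1 : U * U ^ 2 ≤ U * (x0 : ℝ) := by
      calc U * U ^ 2 = U ^ 3 := by ring
        _ ≤ (k : ℝ) * (x0 : ℝ) := hlow
        _ ≤ U * (x0 : ℝ) := mul_le_mul_of_nonneg_right hUk (by positivity)
    exact le_of_mul_le_mul_left h1 hU0
  obtain ⟨C1, hC1⟩ : ∃ C1 : ℝ, C1 = 768 * k * W := ⟨_, rfl⟩
  have hC10 : 0 < C1 := by rw [hC1]; positivity
  rw [← hC1] at hY1 ⊢
  obtain ⟨H, hH⟩ : ∃ H : ℕ, H = ⌊Y / (C1 * U ^ 9)⌋₊ := ⟨_, rfl⟩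
  have hden : 0 < C1 * U ^ 9 := by positivity
  have hYd : 2 ≤ Y / (C1 * U ^ 9) := by
    rw [le_div_iff₀ hden]
    linarith
  have hY0 : 0 ≤ Y := le_trans (by positivity) hY1
  have hHup : (H : ℝ) ≤ Y / (C1 * U ^ 9) := by
    rw [hH]
    exact Nat.floor_le (by positivity)
  have hHlow : Y / (C1 * U ^ 9) < H + 1 := by
    rw [hH]
    exact Nat.lt_floor_add_one _
  have hH1 : (1 : ℝ) ≤ H := by
    have h1 : (1 : ℝ) < H := by linarith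
    exact h1.le
  have hHY : (H : ℝ) * (C1 * U ^ 9) ≤ Y := by
    rwa [le_div_iff₀ hden] at hHup
  -- `W H` is small compared with `x0`
  have hWH : 768 * (W : ℝ) * H ≤ x0 := by
    have h1 : (H : ℝ) * (C1 * U ^ 9) ≤ U ^ 12 := hHY.trans hY2
    have h2 : (k : ℝ) * (768 * W * H) * U ^ 9 ≤ U ^ 3 * U ^ 9 := by
      calc (k : ℝ) * (768 * W * H) * U ^ 9 = H * (C1 * U ^ 9) := by rw [hC1]; ring
        _ ≤ U ^ 12 := h1
        _ = U ^ 3 * U ^ 9 := by ring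
    have h3 : (k : ℝ) * (768 * W * H) ≤ U ^ 3 := le_of_mul_le_mul_right h2 (by positivity)
    have h4 : (k : ℝ) * (768 * W * H) ≤ k * x0 := h3.trans hlow
    exact le_of_mul_le_mul_left h4 (by linarith)
  have hWH1 : 1 ≤ (W : ℝ) * H := by nlinarith
  have hx0W : 2 * (1 + (W : ℝ)) ≤ x0 := by
    have : U ≤ U ^ 2 := le_self_pow₀ hU1 (by norm_num)
    linarith
  have hsum : 1 + (W : ℝ) + W * H ≤ x0 := by nlinarith
  obtain ⟨s, hs⟩ : ∃ s : ℕ, s = x0 / W := ⟨_, rfl⟩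
  have hs1 : W * s ≤ x0 := by rw [hs]; exact Nat.mul_div_le x0 W
  have hs2 : x0 < W * (s + 1) := by rw [hs]; exact Nat.lt_mul_div_succ x0 hW
  have hs1' : (W : ℝ) * s ≤ x0 := by exact_mod_cast hs1
  have hs2' : (x0 : ℝ) < W * (s + 1) := by exact_mod_cast hs2
  refine ⟨s, H, x0, ⌈U ^ 2⌉₊, ⌈20 * U ^ 2⌉₊, ?_, Nat.le_ceil _, ?_, ?_, ?_, ?_⟩
  · refine ⟨?_, ?_, ?_, ?_⟩
    · rw [← hc]
      have h1 : 15 * (c : ℝ) ≤ (x0 : ℝ) ^ 2 := by
        have h2 : (U ^ 2) ^ 2 ≤ (x0 : ℝ) ^ 2 := pow_le_pow_left₀ (by positivity) hlow2 2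
        have h3 : U ^ 2 ≤ (U ^ 2) ^ 2 := le_self_pow₀ (by nlinarith) (by norm_num)
        nlinarith
      exact_mod_cast h1
    · rw [← hc]
      have h1 : U ^ 2 ≤ (⌈U ^ 2⌉₊ : ℝ) := Nat.le_ceil _
      have h2 : 20 * U ^ 2 ≤ (⌈20 * U ^ 2⌉₊ : ℝ) := Nat.le_ceil _
      have h3 : 4 * (x0 : ℝ) ^ 2 + c ≤ (⌈20 * U ^ 2⌉₊ : ℝ) * (⌈U ^ 2⌉₊ : ℝ) ^ 2 := by
        have h4 : (x0 : ℝ) ^ 2 ≤ (2 * U ^ 3) ^ 2 := pow_le_pow_left₀ (by positivity) hup 2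
        have h5 : (U ^ 2) ^ 2 ≤ (⌈U ^ 2⌉₊ : ℝ) ^ 2 := pow_le_pow_left₀ (by positivity) h1 2
        have h6 : 20 * U ^ 2 * (U ^ 2) ^ 2 ≤ (⌈20 * U ^ 2⌉₊ : ℝ) * (⌈U ^ 2⌉₊ : ℝ) ^ 2 :=
          mul_le_mul h2 h5 (by positivity) (by positivity)
        have h7 : (c : ℝ) ≤ U ^ 6 := hUc.trans (le_self_pow₀ hU1 (by norm_num))
        have h8 : 20 * U ^ 2 * (U ^ 2) ^ 2 = 20 * U ^ 6 := by ring
        have h9 : (2 * U ^ 3) ^ 2 = 4 * U ^ 6 := by ring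
        rw [h8] at h6
        rw [h9] at h4
        have h10 : 0 ≤ U ^ 6 := by positivity
        linarith
      exact_mod_cast h3
    · exact hs2.le
    · have h1 : 1 + (W : ℝ) * (s + 1 + H) ≤ 2 * x0 := by nlinarith
      exact_mod_cast h1
  · have h1 : (⌈U ^ 2⌉₊ : ℝ) ≤ 2 * U ^ 2 := by
      have := Nat.ceil_lt_add_one (show 0 ≤ U ^ 2 by positivity)
      nlinarith
    have h2 : (⌈20 * U ^ 2⌉₊ : ℝ) ≤ 21 * U ^ 2 := by
      have := Nat.ceil_lt_add_one (show 0 ≤ 20 * U ^ 2 by positivity)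
      nlinarith
    have h3 : (⌈20 * U ^ 2⌉₊ : ℝ) * (c : ℝ) ^ 2 ≤ 21 * U ^ 2 * (c : ℝ) ^ 2 :=
      mul_le_mul_of_nonneg_right h2 (sq_nonneg _)
    linarith
  · have h1 : Y / (2 * C1 * U ^ 9) = Y / (C1 * U ^ 9) / 2 := by
      field_simp
    rw [h1]
    linarith
  · have h1 : (H : ℝ) ≤ 768 * W * H := by nlinarith
    have h2 : (k : ℝ) * H * U ^ 9 ≤ U ^ 3 * U ^ 9 := by
      calc (k : ℝ) * H * U ^ 9 ≤ k * (768 * W * H) * U ^ 9 := by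
            apply mul_le_mul_of_nonneg_right _ (by positivity)
            exact mul_le_mul_of_nonneg_left h1 (by positivity)
        _ = H * (C1 * U ^ 9) := by rw [hC1]; ring
        _ ≤ U ^ 12 := hHY.trans hY2
        _ = U ^ 3 * U ^ 9 := by ring
    have h3 : (k : ℝ) * H ≤ U ^ 3 := le_of_mul_le_mul_right h2 (by positivity)
    nlinarith
  · intro t ht1 ht2
    obtain ⟨x, hx⟩ : ∃ x : ℕ, x = 1 + W * t := ⟨_, rfl⟩
    have hxr : (x : ℝ) = 1 + W * t := by rw [hx]; push_cast; ring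
    have ht1' : (s : ℝ) + 1 ≤ t := by exact_mod_cast ht1
    have ht2' : (t : ℝ) + 1 ≤ s + 1 + H := by exact_mod_cast ht2
    have hxlow : (x0 : ℝ) ≤ x := by
      rw [hxr]
      nlinarith
    have hxup : (x : ℝ) ≤ 1 + x0 + W * H := by
      rw [hxr]
      nlinarith
    have hx4 : (x : ℝ) ≤ 4 * U ^ 3 := by nlinarith
    have hcx : c ≤ (1 + W * t) ^ 2 := by
      rw [← hx]
      have h1 : (c : ℝ) ≤ (x : ℝ) ^ 2 := by
        have h2 : (U ^ 2) ^ 2 ≤ (x : ℝ) ^ 2 := pow_le_pow_left₀ (by positivity) (hlow2.trans hxlow) 2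
        have h3 : U ≤ (U ^ 2) ^ 2 := by
          calc U ≤ U ^ 4 := le_self_pow₀ hU1 (by norm_num)
            _ = _ := by ring
        linarith
      exact_mod_cast h1
    refine ⟨hcx, ?_⟩
    have hval : ((k * rr k W t J : ℕ) : ℝ) = k * ((x : ℝ) ^ 4 - (c : ℝ) ^ 2) := by
      have h1 := rr_eq k W t J (by rw [← hc]; exact hcx)
      rw [← hc, ← hx] at h1
      have h2 : ((rr k W t J : ℕ) : ℝ) + (c : ℝ) ^ 2 = (x : ℝ) ^ 4 := by exact_mod_cast h1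
      rw [Nat.cast_mul]
      congr 1
      linarith
    rw [hval]
    constructor
    · refine hx2.trans ?_
      apply mul_le_mul_of_nonneg_left _ (by positivity)
      have := pow_le_pow_left₀ (by positivity) hxlow 4
      linarith
    · obtain ⟨b, hb⟩ : ∃ b : ℝ, b = (x0 : ℝ) - 1 := ⟨_, rfl⟩
      rw [← hb] at hx3
      have hb0 : 0 ≤ b := by rw [hb]; linarith
      have hbx : b ≤ x := by rw [hb]; linarith
      have h1 : (x : ℝ) ^ 4 - b ^ 4 ≤ 4 * (x - b) * (x : ℝ) ^ 3 := by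
        have e : (x : ℝ) ^ 4 - b ^ 4 = (x - b) * ((x : ℝ) ^ 3 + x ^ 2 * b + x * b ^ 2 + b ^ 3) := by ring
        rw [e]
        have hx0' : (0 : ℝ) ≤ x := Nat.cast_nonneg x
        have e1 : (x : ℝ) ^ 2 * b ≤ x ^ 3 := by
          calc (x : ℝ) ^ 2 * b ≤ x ^ 2 * x := mul_le_mul_of_nonneg_left hbx (by positivity)
            _ = x ^ 3 := by ring
        have e2 : (x : ℝ) * b ^ 2 ≤ x ^ 3 := by
          calc (x : ℝ) * b ^ 2 ≤ x * x ^ 2 := mul_le_mul_of_nonneg_left (pow_le_pow_left₀ hb0 hbx 2) (by positivity)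
            _ = x ^ 3 := by ring
        have e3 : b ^ 3 ≤ (x : ℝ) ^ 3 := pow_le_pow_left₀ hb0 hbx 3
        have e4 : (x : ℝ) ^ 3 + x ^ 2 * b + x * b ^ 2 + b ^ 3 ≤ 4 * x ^ 3 := by linarith
        calc (x - b) * ((x : ℝ) ^ 3 + x ^ 2 * b + x * b ^ 2 + b ^ 3) ≤ (x - b) * (4 * x ^ 3) :=
              mul_le_mul_of_nonneg_left e4 (by linarith)
          _ = _ := by ring
      have h2 : (x : ℝ) - b ≤ 3 * (W * H) := by rw [hb]; linarith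
      have h3 : (x : ℝ) ^ 3 ≤ 64 * U ^ 9 := by
        calc (x : ℝ) ^ 3 ≤ (4 * U ^ 3) ^ 3 := pow_le_pow_left₀ (Nat.cast_nonneg x) hx4 3
          _ = _ := by ring
      have h4 : 4 * (x - b) * (x : ℝ) ^ 3 ≤ 4 * (3 * (W * H)) * (64 * U ^ 9) := by
        apply mul_le_mul _ h3 (by positivity) (by positivity)
        linarith
      have h5 : (k : ℝ) * (4 * (3 * (W * H)) * (64 * U ^ 9)) ≤ Y := by
        calc (k : ℝ) * (4 * (3 * (W * H)) * (64 * U ^ 9)) = H * (C1 * U ^ 9) := by rw [hC1]; ring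
          _ ≤ Y := hHY
      have h6 : (k : ℝ) * ((x : ℝ) ^ 4 - c ^ 2) ≤
          k * (b ^ 4 - c ^ 2) + k * (4 * (3 * (W * H)) * (64 * U ^ 9)) := by
        have : (x : ℝ) ^ 4 - c ^ 2 ≤ (b ^ 4 - c ^ 2) + (4 * (3 * (W * H)) * (64 * U ^ 9)) := by linarith
        calc (k : ℝ) * ((x : ℝ) ^ 4 - c ^ 2) ≤
            k * ((b ^ 4 - c ^ 2) + (4 * (3 * (W * H)) * (64 * U ^ 9))) :=
              mul_le_mul_of_nonneg_left this (by positivity)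
          _ = _ := by ring
      linarith

/-- the value is strictly increasing -/
lemma val_inj (k W J s t : ℕ) (hk : 0 < k) (hW : 0 < W) (hs : cc k W J ≤ (1 + W * s) ^ 2)
    (ht : cc k W J ≤ (1 + W * t) ^ 2) (h : k * rr k W s J = k * rr k W t J) : s = t := by
  have h1 : rr k W s J = rr k W t J := Nat.eq_of_mul_eq_mul_left hk h
  have h2 := rr_eq k W s J hs
  have h3 := rr_eq k W t J ht
  have h4 : (1 + W * s) ^ 4 = (1 + W * t) ^ 4 := by rw [← h2, ← h3, h1]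
  have h5 : 1 + W * s = 1 + W * t := (pow_left_inj₀ (by omega) (by omega) (by norm_num)).1 h4
  exact Nat.eq_of_mul_eq_mul_left hW (by omega)

end Pool.Agent.CNC
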