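import Pool.Agent.CNC.D

/-!
# Clusters of congruent numbers
-/

set_option autoImplicit false

namespace Pool.Agent.CNC

open Finset Filter

/-- the modulus -/
def WW (k M J : ℕ) : ℕ := 8 * M * k * (16 * J).factorial

lemma dvd_WW (k M J : ℕ) : 8 * M ∣ WW k M J := by
  unfold WW
  rw [mul_assoc]
  exact Dvd.intro _ rfl

lemma k_dvd_WW (k M J : ℕ) : k ∣ WW k M J := by
  unfold WW
  exact Dvd.dvd.mul_right (Dvd.intro_left _ rfl) _

lemma WW_pos (k M J : ℕ) (hk : 0 < k) (hM : 0 < M) : 0 < WW k M J := by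
  unfold WW
  have := Nat.factorial_pos (16 * J)
  positivity

lemma prime_dvd_WW (k M J p : ℕ) (hp : p.Prime) (h : p ≤ 16 * J) : p ∣ WW k M J := by
  unfold WW
  exact Dvd.dvd.mul_left (hp.dvd_factorial.2 h) _

/-- `m` has at most `R` prime factors (with multiplicity), all larger than `X ^ (1 / R)` -/
def AP (R : ℕ) (X : ℝ) (m : ℕ) : Prop :=
  m.primeFactorsList.length ≤ R ∧ ∀ p : ℕ, p.Prime → p ∣ m → X ^ (1 / (R : ℝ)) < (p : ℝ)

/-- the cluster at `n` -/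
def Cl (k M J z : ℕ) (n : ℕ) : Prop := ∀ i : ℕ, i < J →
  Squarefree (n + dd k (WW k M J) J i) ∧ n + dd k (WW k M J) J i ≡ k [MOD 8 * M] ∧
    Cong (n + dd k (WW k M J) J i) ∧
    ∃ r : ℕ, n + dd k (WW k M J) J i = k * r ∧ ∀ p : ℕ, p.Prime → p ∣ r → z < p

open Classical in
/-- from the indices to the numbers -/
theorem transfer (k M J z s H : ℕ) (hk : Squarefree k) (hM : 0 < M) (hz : 2 ≤ z) (hJz : J ≤ z)
    (X Y : ℝ) (hX : ∀ t : ℕ, s + 1 ≤ t → t < s + 1 + H → cc k (WW k M J) J ≤ (1 + WW k M J * t) ^ 2 ∧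
        X ≤ ((k * rr k (WW k M J) t J : ℕ) : ℝ) ∧ ((k * rr k (WW k M J) t J : ℕ) : ℝ) ≤ X + Y) :
    (((Ico (s + 1) (s + 1 + H)).filter (fun t => Low k (WW k M J) J z t ∧ High k (WW k M J) J z t)).card : ℝ) ≤
      ({n : ℕ | X ≤ n ∧ (n : ℝ) ≤ X + Y ∧ Cl k M J z n}.ncard : ℝ) := by
  have hk0 : 0 < k := Nat.pos_of_ne_zero (fun h => by rw [h] at hk; exact not_squarefree_zero hk)
  obtain ⟨W, hW⟩ : ∃ W, W = WW k M J := ⟨_, rfl⟩
  have hW0 : 0 < W := by rw [hW]; exact WW_pos k M J hk0 hM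
  have hkW : k ∣ W := by rw [hW]; exact k_dvd_WW k M J
  have h8 : 8 * M ∣ W := by rw [hW]; exact dvd_WW k M J
  unfold Cl
  rw [← hW] at hX ⊢
  obtain ⟨G, hG⟩ : ∃ G, G = (Ico (s + 1) (s + 1 + H)).filter (fun t => Low k W J z t ∧ High k W J z t) := ⟨_, rfl⟩
  rw [← hG]
  have hmem : ∀ t ∈ G, (cc k W J ≤ (1 + W * t) ^ 2 ∧ X ≤ ((k * rr k W t J : ℕ) : ℝ) ∧
      ((k * rr k W t J : ℕ) : ℝ) ≤ X + Y) ∧ Low k W J z t ∧ High k W J z t := by
    intro t ht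
    rw [hG, mem_filter, mem_Ico] at ht
    exact ⟨hX t ht.1.1 ht.1.2, ht.2⟩
  have hinj : Set.InjOn (fun t => k * rr k W t J) (G : Set ℕ) := by
    intro a ha b hb hab
    exact val_inj k W J a b hk0 hW0 (hmem a ha).1.1 (hmem b hb).1.1 hab
  rw [← card_image_of_injOn hinj, ← Set.ncard_coe_finset]
  have hfin : {n : ℕ | X ≤ n ∧ (n : ℝ) ≤ X + Y ∧ ∀ i : ℕ, i < J →
      Squarefree (n + dd k W J i) ∧ n + dd k W J i ≡ k [MOD 8 * M] ∧ Cong (n + dd k W J i) ∧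
      ∃ r : ℕ, n + dd k W J i = k * r ∧ ∀ p : ℕ, p.Prime → p ∣ r → z < p}.Finite := by
    apply (Set.finite_le_nat ⌊X + Y⌋₊).subset
    intro n hn
    exact Nat.le_floor hn.2.1
  have hsub : ((G.image (fun t => k * rr k W t J) : Finset ℕ) : Set ℕ) ⊆
      {n : ℕ | X ≤ n ∧ (n : ℝ) ≤ X + Y ∧ ∀ i : ℕ, i < J →
      Squarefree (n + dd k W J i) ∧ n + dd k W J i ≡ k [MOD 8 * M] ∧ Cong (n + dd k W J i) ∧
      ∃ r : ℕ, n + dd k W J i = k * r ∧ ∀ p : ℕ, p.Prime → p ∣ r → z < p} := by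
    intro n hn
    rw [coe_image] at hn
    obtain ⟨t, ht, rfl⟩ := hn
    obtain ⟨⟨h1, h2, h3⟩, h4, h5⟩ := hmem t ht
    refine ⟨h2, h3, ?_⟩
    intro i hi
    simp only
    rw [val_add k W J t i h1]
    have hj1 : 1 ≤ J - i := by omega
    have hj2 : J - i ≤ J := Nat.sub_le _ _
    have hcle := (cc_mono k W hj2).trans h1
    obtain ⟨g1, g2⟩ := sqf_val hk hkW hW0 hz hJz h4 h5 (J - i) hj1 hj2 hcle
    refine ⟨g1, (val_mod k W t (J - i) hkW hcle).of_dvd h8, ?_, rr k W t (J - i), rfl, g2⟩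
    have hlt : cc k W (J - i) < (1 + W * t) ^ 2 := by
      refine lt_of_le_of_ne hcle ?_
      intro h
      have hr0 : rr k W t (J - i) = 0 := by
        unfold rr
        rw [h, Nat.sub_self, zero_mul]
      rw [hr0, mul_zero] at g1
      exact not_squarefree_zero g1
    have hc := cong_val k (1 + W * t) (W * (J - i)) hk0 (by omega) (Nat.mul_pos hW0 (by omega)) hlt
    exact hc
  exact_mod_cast Set.ncard_le_ncard hsub hfin

/-- **positive proportion** -/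
theorem clusters_pos (M k J : ℕ) (hM : 0 < M) (hk : Squarefree k) (hJ : 1 ≤ J) :
    ∃ C c U0 : ℝ, 0 < c ∧ ∀ U : ℝ, U0 ≤ U → ∀ Y : ℝ, C * U ^ 11 ≤ Y → Y ≤ U ^ 12 →
      c * (Y / U ^ 9) ≤ ({n : ℕ | U ^ 12 ≤ n ∧ (n : ℝ) ≤ U ^ 12 + Y ∧ Cl k M J (16 * J) n}.ncard : ℝ) := by
  have hk0 : 0 < k := Nat.pos_of_ne_zero (fun h => by rw [h] at hk; exact not_squarefree_zero hk)
  obtain ⟨W, hW⟩ : ∃ W, W = WW k M J := ⟨_, rfl⟩
  have hW0 : 0 < W := by rw [hW]; exact WW_pos k M J hk0 hM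
  have hk' : (1 : ℝ) ≤ k := by exact_mod_cast hk0
  have hW' : (1 : ℝ) ≤ W := by exact_mod_cast hW0
  have hJ' : (1 : ℝ) ≤ J := by exact_mod_cast hJ
  obtain ⟨q, hq⟩ : ∃ q : ℝ, q = 4 + 21 * (cc k W J : ℝ) ^ 2 := ⟨_, rfl⟩
  have hq0 : 4 ≤ q := by rw [hq]; linarith [sq_nonneg (cc k W J : ℝ)]
  obtain ⟨C1, hC1⟩ : ∃ C1 : ℝ, C1 = 768 * k * W := ⟨_, rfl⟩
  have hC10 : 1 ≤ C1 := by rw [hC1]; nlinarith
  refine ⟨16 * C1 * J * q, 1 / (4 * C1), (cc k W J : ℝ) + k + 2 * W + 16 * J + 40, by positivity, ?_⟩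
  intro U hU Y hY1 hY2
  have hcc0 : (0 : ℝ) ≤ cc k W J := Nat.cast_nonneg _
  have hU40 : 40 ≤ U := by nlinarith
  have hU0 : 0 < U := by linarith
  have hY1' : C1 * (2 * U ^ 9) ≤ Y := by
    refine le_trans ?_ hY1
    have h1 : 1 ≤ U ^ 2 := one_le_pow₀ (by linarith)
    have h2 : 2 ≤ 16 * J * q * U ^ 2 := by
      have : 1 ≤ J * q := by nlinarith
      nlinarith
    calc C1 * (2 * U ^ 9) ≤ C1 * ((16 * J * q * U ^ 2) * U ^ 9) := by
          apply mul_le_mul_of_nonneg_left _ (by linarith)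
          exact mul_le_mul_of_nonneg_right h2 (by positivity)
      _ = _ := by ring
  obtain ⟨s, H, T, P, R, h1, h2, h3, h4, -, h5⟩ := window k W J hk0 hW0 U Y hU (by rw [← hC1]; exact hY1') hY2
  rw [← hq] at h3
  rw [← hC1] at h4
  have hH : 2 * J * (2 * P + R * (cc k W J : ℝ) ^ 2) ≤ (H : ℝ) / 4 := by
    have h6 : 2 * (J : ℝ) * (2 * P + R * (cc k W J : ℝ) ^ 2) ≤ 2 * J * (q * U ^ 2) :=
      mul_le_mul_of_nonneg_left h3 (by positivity)
    have h7 : 8 * J * (q * U ^ 2) ≤ Y / (2 * C1 * U ^ 9) := by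
      rw [le_div_iff₀ (by positivity)]
      calc 8 * J * (q * U ^ 2) * (2 * C1 * U ^ 9) = 16 * C1 * J * q * U ^ 11 := by ring
        _ ≤ Y := hY1
    linarith
  have hzP : 16 * J ≤ P := by
    have h6 : (16 * J : ℝ) ≤ P := by
      have : U ≤ U ^ 2 := le_self_pow₀ (by linarith) (by norm_num)
      nlinarith
    exact_mod_cast h6
  have h8 := count_pos k W J (16 * J) hk0 (by rw [hW]; exact k_dvd_WW k M J) hW0 hJ le_rfl
    (fun p hp hpz => by rw [hW]; exact prime_dvd_WW k M J p hp hpz) s H T P R hzP h1 hH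
  have h9 := transfer k M J (16 * J) s H hk hM (by omega) (by omega) (U ^ 12) Y (by rw [← hW]; exact h5)
  rw [← hW] at h9
  refine le_trans ?_ (h8.trans h9)
  have h10 : 1 / (4 * C1) * (Y / U ^ 9) = Y / (2 * C1 * U ^ 9) / 2 := by
    field_simp
    ring
  rw [h10]
  linarith

lemma ev_log (A b : ℝ) (hb : 0 < b) (n : ℕ) : ∀ᶠ U : ℝ in atTop, A * Real.log (U ^ 12) ^ n ≤ U ^ b := by
  have h1 := (isLittleO_log_rpow_rpow_atTop (n : ℝ) hb).bound
    (show 0 < 1 / ((|A| + 1) * 12 ^ n) by positivity)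
  filter_upwards [h1, eventually_ge_atTop 1] with U h2 h3
  have hl : 0 ≤ Real.log U := Real.log_nonneg h3
  rw [Real.rpow_natCast, Real.norm_of_nonneg (by positivity), Real.norm_of_nonneg (by positivity)] at h2
  have h4 : Real.log (U ^ 12) = 12 * Real.log U := by
    rw [Real.log_pow]
    norm_num
  rw [h4, mul_pow]
  have h5 : (|A| + 1) * 12 ^ n * Real.log U ^ n ≤ U ^ b := by
    have h6 := mul_le_mul_of_nonneg_left h2 (show 0 ≤ (|A| + 1) * 12 ^ n by positivity)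
    have h7 : (|A| + 1) * 12 ^ n * (1 / ((|A| + 1) * 12 ^ n) * U ^ b) = U ^ b := by field_simp
    rwa [h7] at h6
  refine le_trans ?_ h5
  have h6 : 0 ≤ (12 : ℝ) ^ n * Real.log U ^ n := by positivity
  have h7 : A ≤ |A| + 1 := by linarith [le_abs_self A]
  calc A * (12 ^ n * Real.log U ^ n) ≤ (|A| + 1) * (12 ^ n * Real.log U ^ n) := mul_le_mul_of_nonneg_right h7 h6
    _ = _ := by ring

/-- **almost primes** -/
theorem clusters_ap (M k J : ℕ) (hM : 0 < M) (hk : Squarefree k) (hJ : 1 ≤ J) (ε : ℝ) (hε : 0 < ε) :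
    ∃ K : ℕ, 1 ≤ K ∧ ∃ c U0 : ℝ, 0 < c ∧ ∀ U : ℝ, U0 ≤ U → ∀ Y : ℝ, U ^ (11 + ε) ≤ Y → Y ≤ U ^ 12 →
      c * (Y / (U ^ 9 * Real.log (U ^ 12) ^ (4 * J))) ≤
        ({n : ℕ | U ^ 12 ≤ n ∧ (n : ℝ) ≤ U ^ 12 + Y ∧ Cl k M J ⌊U ^ (2 / (K : ℝ))⌋₊ n}.ncard : ℝ) := by
  have hk0 : 0 < k := Nat.pos_of_ne_zero (fun h => by rw [h] at hk; exact not_squarefree_zero hk)
  obtain ⟨W, hW⟩ : ∃ W, W = WW k M J := ⟨_, rfl⟩
  have hW0 : 0 < W := by rw [hW]; exact WW_pos k M J hk0 hM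
  have hk' : (1 : ℝ) ≤ k := by exact_mod_cast hk0
  have hW' : (1 : ℝ) ≤ W := by exact_mod_cast hW0
  have hJ' : (1 : ℝ) ≤ J := by exact_mod_cast hJ
  obtain ⟨q, hq⟩ : ∃ q : ℝ, q = 4 + 21 * (cc k W J : ℝ) ^ 2 := ⟨_, rfl⟩
  have hq0 : 4 ≤ q := by rw [hq]; linarith [sq_nonneg (cc k W J : ℝ)]
  obtain ⟨C1, hC1⟩ : ∃ C1 : ℝ, C1 = 768 * k * W := ⟨_, rfl⟩
  have hC10 : 1 ≤ C1 := by rw [hC1]; nlinarith
  obtain ⟨K, z0, hK, hz0, v, hv, hcount⟩ := count_low J hJ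
  have hK' : (1 : ℝ) ≤ K := by exact_mod_cast hK
  have hK0 : 0 < 2 / (K : ℝ) := by positivity
  have e1 := ev_log (2 * C1) ε hε 0
  have e2 := ev_log (32 * J / v) (2 / (K : ℝ)) hK0 (4 * J)
  have e3 := ev_log (16 * J * C1 * q / v) ε hε (4 * J)
  have e4 : ∀ᶠ U : ℝ in atTop, (z0 : ℝ) + J + 2 ≤ U ^ (2 / (K : ℝ)) :=
    (tendsto_rpow_atTop hK0).eventually_ge_atTop _
  obtain ⟨U1, hU1⟩ := eventually_atTop.1 ((e1.and e2).and (e3.and e4))
  refine ⟨K, hK, v / (4 * C1), max U1 ((cc k W J : ℝ) + k + 2 * W + 16 * J + 40), by positivity, ?_⟩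
  intro U hU Y hY1 hY2
  obtain ⟨⟨f1, f2⟩, f3, f4⟩ := hU1 U ((le_max_left _ _).trans hU)
  have hU' := (le_max_right _ _).trans hU
  have hcc0 : (0 : ℝ) ≤ cc k W J := Nat.cast_nonneg _
  have hU40 : 40 ≤ U := by nlinarith
  have hUp : 0 < U := by linarith
  have hU1' : 1 ≤ U := by linarith
  rw [pow_zero, mul_one] at f1
  have hsplit : U ^ (11 + ε) = U ^ 11 * U ^ ε := by
    rw [Real.rpow_add hUp]
    congr 1
    exact_mod_cast Real.rpow_natCast U 11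
  have hY1' : C1 * (2 * U ^ 9) ≤ Y := by
    refine le_trans ?_ hY1
    rw [hsplit]
    have h1 : 1 ≤ U ^ 2 := one_le_pow₀ hU1'
    calc C1 * (2 * U ^ 9) = U ^ 9 * (2 * C1) := by ring
      _ ≤ U ^ 11 * U ^ ε := by
          apply mul_le_mul _ f1 (by positivity) (by positivity)
          exact pow_le_pow_right₀ hU1' (by norm_num)
  obtain ⟨s, H, T, P, R, h1, h2, h3, h4, hH3, h5⟩ := window k W J hk0 hW0 U Y hU' (by rw [← hC1]; exact hY1') hY2
  rw [← hq] at h3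
  rw [← hC1] at h4
  obtain ⟨z, hz⟩ : ∃ z : ℕ, z = ⌊U ^ (2 / (K : ℝ))⌋₊ := ⟨_, rfl⟩
  rw [← hz]
  have hzup : (z : ℝ) ≤ U ^ (2 / (K : ℝ)) := by rw [hz]; exact Nat.floor_le (by positivity)
  have hzlow : U ^ (2 / (K : ℝ)) < z + 1 := by rw [hz]; exact Nat.lt_floor_add_one _
  have hzz0 : z0 + J + 1 ≤ z := by
    have : (z0 : ℝ) + J + 1 < z + 1 := by linarith
    have h6 : z0 + J + 1 < z + 1 := by exact_mod_cast this
    omega
  have hHlow : U ^ 2 * U ^ ε / (2 * C1) ≤ H := by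
    refine le_trans ?_ h4
    rw [div_le_div_iff₀ (by positivity) (by positivity)]
    calc U ^ 2 * U ^ ε * (2 * C1 * U ^ 9) = (U ^ 11 * U ^ ε) * (2 * C1) := by ring
      _ ≤ Y * (2 * C1) := by
          apply mul_le_mul_of_nonneg_right _ (by positivity)
          rw [← hsplit]
          exact hY1
  have hH2 : U ^ 2 ≤ H := by
    refine le_trans ?_ hHlow
    rw [le_div_iff₀ (by positivity)]
    exact mul_le_mul_of_nonneg_left f1 (by positivity)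
  have hU2K : (U ^ (2 / (K : ℝ))) ^ K = U ^ 2 := by
    rw [← Real.rpow_natCast, ← Real.rpow_mul hUp.le]
    have : 2 / (K : ℝ) * K = (2 : ℕ) := by
      push_cast
      field_simp
    rw [this, Real.rpow_natCast]
  have hzH : z ^ K ≤ H := by
    have h6 : (z : ℝ) ^ K ≤ U ^ 2 := by
      rw [← hU2K]
      exact pow_le_pow_left₀ (Nat.cast_nonneg z) hzup K
    have h7 : ((z ^ K : ℕ) : ℝ) ≤ H := by
      push_cast
      exact h6.trans hH2
    exact_mod_cast h7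
  have hzU2 : (z : ℝ) ≤ U ^ 2 := by
    refine hzup.trans ?_
    rw [← hU2K]
    exact le_self_pow₀ (by
      have := Real.one_le_rpow hU1' hK0.le
      exact this) (by omega)
  have hzP : z ≤ P := by
    have : (z : ℝ) ≤ P := hzU2.trans h2
    exact_mod_cast this
  have h6 := hcount k W hk0 (by rw [hW]; exact k_dvd_WW k M J) hW0
    (fun p hp hpz => by rw [hW]; exact prime_dvd_WW k M J p hp (by omega)) z s H T P R (by omega) (by omega) hzH hzP h1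
  have h7 := transfer k M J z s H hk hM (by omega) (by omega) (U ^ 12) Y (by rw [← hW]; exact h5)
  rw [← hW] at h7
  refine le_trans ?_ (h6.trans h7)
  -- the main term
  have hz1 : (1 : ℝ) < z := by
    have : 1 < z := by omega
    exact_mod_cast this
  have hz0' : (0 : ℝ) < z := by linarith
  have hlz : 0 < Real.log z := Real.log_pos hz1
  have hU12 : (1 : ℝ) < U ^ 12 := one_lt_pow₀ (by linarith) (by norm_num)
  obtain ⟨L, hL⟩ : ∃ L : ℝ, L = Real.log (U ^ 12) ^ (4 * J) := ⟨_, rfl⟩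
  have hL0 : 0 < L := by
    rw [hL]
    have := Real.log_pos hU12
    positivity
  have hLz : Real.log z ^ (4 * J) ≤ L := by
    rw [hL]
    apply pow_le_pow_left₀ hlz.le
    apply Real.log_le_log hz0'
    exact hzU2.trans (pow_le_pow_right₀ hU1' (by norm_num))
  rw [← hL] at f2 f3 ⊢
  have hH0 : (0 : ℝ) < H := lt_of_lt_of_le (by positivity) hH2
  have g1 : v * (H / L) ≤ v * (H / Real.log z ^ (4 * J)) := by
    apply mul_le_mul_of_nonneg_left _ hv.le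
    exact div_le_div_of_nonneg_left hH0.le (by positivity) hLz
  have g2 : 2 * (J : ℝ) * (2 * H / z) ≤ v * (H / L) / 4 := by
    have h8 : 32 * J * L ≤ v * (2 * z) := by
      have h9 : 32 * J / v * L ≤ 2 * z := by
        have : (z : ℝ) + 1 ≤ 2 * z := by linarith
        linarith
      rw [div_mul_eq_mul_div, div_le_iff₀ hv] at h9
      linarith
    have h10 : 2 * (J : ℝ) * (2 * H / z) = (4 * J * H) / z := by ring
    have h11 : v * (H / L) / 4 = (v * H / 4) / L := by ring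
    rw [h10, h11, div_le_div_iff₀ hz0' hL0]
    nlinarith
  have g3 : 2 * (J : ℝ) * (2 * P + R * (cc k W J : ℝ) ^ 2) ≤ v * (H / L) / 4 := by
    have h8 : 2 * (J : ℝ) * (2 * P + R * (cc k W J : ℝ) ^ 2) ≤ 2 * J * (q * U ^ 2) :=
      mul_le_mul_of_nonneg_left h3 (by positivity)
    refine h8.trans ?_
    have h9 : v * (H / L) / 4 = (v * H) / (4 * L) := by
      field_simp
    rw [h9, le_div_iff₀ (by positivity)]
    have h10 : 16 * J * C1 * q / v * L ≤ U ^ ε := f3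
    rw [div_mul_eq_mul_div, div_le_iff₀ hv] at h10
    have h11 : v * (U ^ 2 * U ^ ε / (2 * C1)) ≤ v * H := mul_le_mul_of_nonneg_left hHlow hv.le
    refine le_trans ?_ h11
    have h12 : v * (U ^ 2 * U ^ ε / (2 * C1)) = U ^ 2 * (U ^ ε * v) / (2 * C1) := by ring
    rw [h12, le_div_iff₀ (by positivity)]
    calc 2 * (J : ℝ) * (q * U ^ 2) * (4 * L) * (2 * C1) = U ^ 2 * (16 * J * C1 * q * L) := by ring
      _ ≤ U ^ 2 * (U ^ ε * v) := mul_le_mul_of_nonneg_left h10 (by positivity)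
  have g4 : v / (4 * C1) * (Y / (U ^ 9 * L)) ≤ v * (H / L) / 2 := by
    have h8 : v / (4 * C1) * (Y / (U ^ 9 * L)) = v * ((Y / (2 * C1 * U ^ 9)) / L) / 2 := by
      field_simp
      ring
    rw [h8]
    have h9 : (Y / (2 * C1 * U ^ 9)) / L ≤ H / L := div_le_div_of_nonneg_right h4 hL0.le
    have h10 := mul_le_mul_of_nonneg_left h9 hv.le
    linarith
  have g5 : 2 * (J : ℝ) * (2 * H / z + 2 * P + R * (cc k W J : ℝ) ^ 2) =
      2 * (J : ℝ) * (2 * H / z) + 2 * (J : ℝ) * (2 * P + R * (cc k W J : ℝ) ^ 2) := by ring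
  rw [g5]
  linarith

end Pool.Agent.CNC
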