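import Pool.Agent.CNC.E

/-!
# Clusters of congruent numbers: final form
-/

set_option autoImplicit false

namespace Pool.Agent.CNC

open Finset Filter

lemma cl_ap (k M J K : ℕ) (hK : 1 ≤ K) (hk0 : 0 < k) (U Y : ℝ) (hU3 : 3 ≤ U) (hY : Y ≤ U ^ 12)
    (hD : (dd k (WW k M J) J J : ℝ) ≤ U ^ 12) (n : ℕ) (hn : (n : ℝ) ≤ U ^ 12 + Y) (hn0 : 0 < n)
    (hmono : ∀ i, i < J → dd k (WW k M J) J i ≤ dd k (WW k M J) J J)
    (h : Cl k M J ⌊U ^ (2 / (K : ℝ))⌋₊ n) (i : ℕ) (hi : i < J) :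
    ∃ r : ℕ, n + dd k (WW k M J) J i = k * r ∧ AP (7 * K) (U ^ 12) r := by
  obtain ⟨-, -, -, r, hr, hp⟩ := h i hi
  refine ⟨r, hr, ?_⟩
  have hU1 : (1 : ℝ) ≤ U := by linarith
  have hU0 : (0 : ℝ) < U := by linarith
  have hK' : (1 : ℝ) ≤ K := by exact_mod_cast hK
  obtain ⟨z, hz⟩ : ∃ z : ℕ, z = ⌊U ^ (2 / (K : ℝ))⌋₊ := ⟨_, rfl⟩
  rw [← hz] at hp
  have hz1 : U ^ (2 / (K : ℝ)) < z + 1 := by rw [hz]; exact Nat.lt_floor_add_one _
  have hr0 : r ≠ 0 := by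
    rintro rfl
    rw [mul_zero] at hr
    omega
  constructor
  · have h1 := pow_len r (z + 1) hr0 (fun p hpp hpd => hp p hpp hpd)
    have h2 : (r : ℝ) ≤ U ^ 13 := by
      have h3 : r ≤ k * r := Nat.le_mul_of_pos_left _ hk0
      rw [← hr] at h3
      have h4 : r ≤ n + dd k (WW k M J) J J := h3.trans (Nat.add_le_add_left (hmono i hi) n)
      have h5 : (r : ℝ) ≤ n + dd k (WW k M J) J J := by exact_mod_cast h4
      have h6 : U ^ 13 = U * U ^ 12 := by ring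
      have h7 : 3 * U ^ 12 ≤ U * U ^ 12 := mul_le_mul_of_nonneg_right hU3 (by positivity)
      rw [h6]
      linarith
    have h3 : (((z + 1) ^ r.primeFactorsList.length : ℕ) : ℝ) ≤ U ^ 13 := by
      have : (((z + 1) ^ r.primeFactorsList.length : ℕ) : ℝ) ≤ r := by exact_mod_cast h1
      exact this.trans h2
    have h4 : U ^ (2 / (K : ℝ) * r.primeFactorsList.length) ≤ U ^ (13 : ℝ) := by
      rw [Real.rpow_mul hU0.le, Real.rpow_natCast]
      have h5 : (U ^ (2 / (K : ℝ))) ^ r.primeFactorsList.length ≤ ((z : ℝ) + 1) ^ r.primeFactorsList.length :=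
        pow_le_pow_left₀ (by positivity) hz1.le _
      push_cast at h3
      have h6 : U ^ (13 : ℝ) = U ^ 13 := by exact_mod_cast Real.rpow_natCast U 13
      rw [h6]
      exact h5.trans h3
    have h5 : 2 / (K : ℝ) * r.primeFactorsList.length ≤ 13 :=
      (Real.rpow_le_rpow_left_iff (by linarith)).1 h4
    have h6 : 2 * (r.primeFactorsList.length : ℝ) ≤ 13 * K := by
      rw [div_mul_eq_mul_div, div_le_iff₀ (by linarith)] at h5
      exact h5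
    have h7 : (r.primeFactorsList.length : ℝ) ≤ ((7 * K : ℕ) : ℝ) := by
      push_cast
      linarith
    exact_mod_cast h7
  · intro p hpp hpd
    have h1 : (z : ℝ) + 1 ≤ p := by
      have := hp p hpp hpd
      exact_mod_cast this
    refine lt_of_le_of_lt ?_ (lt_of_lt_of_le hz1 h1)
    have h2 : (U ^ 12) ^ (1 / ((7 * K : ℕ) : ℝ)) = U ^ (12 / (7 * (K : ℝ))) := by
      have h12 : U ^ 12 = U ^ (12 : ℝ) := by exact_mod_cast (Real.rpow_natCast U 12).symm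
      rw [h12, ← Real.rpow_mul hU0.le]
      congr 1
      push_cast
      field_simp
    rw [h2]
    apply Real.rpow_le_rpow_of_exponent_le hU1
    rw [div_le_div_iff₀ (by positivity) (by positivity)]
    nlinarith

/-- **Clusters of squarefree congruent numbers in all residue classes.** -/
theorem main (M k m : ℕ) (hM : 0 < M) (hk : Squarefree k) :
    ∃ d : Fin (m + 1) → ℕ, StrictMono d ∧ d 0 = 0 ∧
      (∃ C c X₀ : ℝ, 0 < c ∧ ∀ X Y : ℝ, X₀ ≤ X → C * X ^ (11 / 12 : ℝ) ≤ Y → Y ≤ X →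
        c * (Y / X ^ (3 / 4 : ℝ)) ≤ ({n : ℕ | X ≤ n ∧ (n : ℝ) ≤ X + Y ∧ ∀ i,
          Squarefree (n + d i) ∧ n + d i ≡ k [MOD 8 * M] ∧ Cong (n + d i)}.ncard : ℝ)) ∧
      (∀ ε : ℝ, 0 < ε → ∃ R : ℕ, 1 ≤ R ∧ ∃ c X₀ : ℝ, 0 < c ∧ ∀ X Y : ℝ, X₀ ≤ X → X ^ (11 / 12 + ε) ≤ Y → Y ≤ X →
        c * (Y / (X ^ (3 / 4 : ℝ) * Real.log X ^ (4 * (m + 1)))) ≤
          ({n : ℕ | X ≤ n ∧ (n : ℝ) ≤ X + Y ∧ ∀ i,
            Squarefree (n + d i) ∧ n + d i ≡ k [MOD 8 * M] ∧ Cong (n + d i) ∧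
            ∃ r : ℕ, n + d i = k * r ∧ AP R X r}.ncard : ℝ)) := by
  have hk0 : 0 < k := Nat.pos_of_ne_zero (fun h => by rw [h] at hk; exact not_squarefree_zero hk)
  have hJ1 : 1 ≤ (m + 1) := by omega
  obtain ⟨W, hW⟩ : ∃ W, W = WW k M (m + 1) := ⟨_, rfl⟩
  have hW0 : 0 < W := by rw [hW]; exact WW_pos k M (m + 1) hk0 hM
  have hU : ∀ X : ℝ, 0 < X → (X ^ (1 / 12 : ℝ)) ^ 12 = X ∧ (X ^ (1 / 12 : ℝ)) ^ 11 = X ^ (11 / 12 : ℝ) ∧
      (X ^ (1 / 12 : ℝ)) ^ 9 = X ^ (3 / 4 : ℝ) := by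
    intro X hX
    refine ⟨?_, ?_, ?_⟩
    · rw [← Real.rpow_natCast, ← Real.rpow_mul hX.le]
      norm_num
    · rw [← Real.rpow_natCast, ← Real.rpow_mul hX.le]
      norm_num
    · rw [← Real.rpow_natCast, ← Real.rpow_mul hX.le]
      norm_num
  have hfin : ∀ (B : ℝ) (p : ℕ → Prop), {n : ℕ | (n : ℝ) ≤ B ∧ p n}.Finite := by
    intro B p
    apply (Set.finite_le_nat ⌊B⌋₊).subset
    intro n hn
    exact Nat.le_floor hn.1
  refine ⟨fun i => dd k W (m + 1) i, ?_, ?_, ?_, ?_⟩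
  · intro i j hij
    exact dd_lt k W (m + 1) hk0 hW0 i j hij (by have := j.2; omega)
  · simp only [Fin.val_zero]
    exact dd_zero k W (m + 1)
  · obtain ⟨C, c, U0, hc, h⟩ := clusters_pos M k (m + 1) hM hk hJ1
    refine ⟨C, c, max 1 ((max U0 1) ^ 12), hc, ?_⟩
    intro X Y hX hY1 hY2
    have hX1 : 1 ≤ X := (le_max_left _ _).trans hX
    have hX0 : 0 < X := by linarith
    obtain ⟨e1, e2, e3⟩ := hU X hX0
    have hUU : U0 ≤ X ^ (1 / 12 : ℝ) := by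
      have h1 : (max U0 1) ^ 12 ≤ (X ^ (1 / 12 : ℝ)) ^ 12 := by
        rw [e1]
        exact (le_max_right _ _).trans hX
      have h2 : max U0 1 ≤ X ^ (1 / 12 : ℝ) := (pow_le_pow_iff_left₀ (by positivity) (by positivity) (by norm_num)).1 h1
      exact (le_max_left _ _).trans h2
    have h1 := h (X ^ (1 / 12 : ℝ)) hUU Y (by rw [e2]; exact hY1) (by rw [e1]; exact hY2)
    rw [e1, e3] at h1
    refine h1.trans ?_
    have hsub : {n : ℕ | X ≤ n ∧ (n : ℝ) ≤ X + Y ∧ Cl k M (m + 1) (16 * (m + 1)) n} ⊆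
        {n : ℕ | X ≤ n ∧ (n : ℝ) ≤ X + Y ∧ ∀ i : Fin (m + 1),
          Squarefree (n + dd k W (m + 1) i) ∧ n + dd k W (m + 1) i ≡ k [MOD 8 * M] ∧ Cong (n + dd k W (m + 1) i)} := by
      rintro n ⟨h2, h3, h4⟩
      refine ⟨h2, h3, fun i => ?_⟩
      have h5 := h4 i i.2
      rw [← hW] at h5
      exact ⟨h5.1, h5.2.1, h5.2.2.1⟩
    have hf : {n : ℕ | X ≤ n ∧ (n : ℝ) ≤ X + Y ∧ ∀ i : Fin (m + 1),
          Squarefree (n + dd k W (m + 1) i) ∧ n + dd k W (m + 1) i ≡ k [MOD 8 * M] ∧ Cong (n + dd k W (m + 1) i)}.Finite :=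
      (hfin (X + Y) (fun _ => True)).subset (fun n hn => ⟨hn.2.1, trivial⟩)
    exact_mod_cast Set.ncard_le_ncard hsub hf
  · intro ε hε
    obtain ⟨K, hK, c, U0, hc, h⟩ := clusters_ap M k (m + 1) hM hk hJ1 (12 * ε) (by positivity)
    refine ⟨7 * K, by omega, c, max (max 1 (dd k W (m + 1) (m + 1))) ((max U0 3) ^ 12), hc, ?_⟩
    intro X Y hX hY1 hY2
    have hX1 : 1 ≤ X := ((le_max_left _ _).trans (le_max_left _ _)).trans hX
    have hXD : (dd k W (m + 1) (m + 1) : ℝ) ≤ X := ((le_max_right _ _).trans (le_max_left _ _)).trans hX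
    have hX0 : 0 < X := by linarith
    obtain ⟨e1, e2, e3⟩ := hU X hX0
    have hUU : max U0 3 ≤ X ^ (1 / 12 : ℝ) := by
      have h1 : (max U0 3) ^ 12 ≤ (X ^ (1 / 12 : ℝ)) ^ 12 := by
        rw [e1]
        exact (le_max_right _ _).trans hX
      exact (pow_le_pow_iff_left₀ (by positivity) (by positivity) (by norm_num)).1 h1
    have e4 : (X ^ (1 / 12 : ℝ)) ^ (11 + 12 * ε) = X ^ (11 / 12 + ε) := by
      rw [← Real.rpow_mul hX0.le]
      congr 1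
      ring
    have h1 := h (X ^ (1 / 12 : ℝ)) ((le_max_left _ _).trans hUU) Y (by rw [e4]; exact hY1) (by rw [e1]; exact hY2)
    have hsub : {n : ℕ | X ≤ n ∧ (n : ℝ) ≤ X + Y ∧ Cl k M (m + 1) ⌊(X ^ (1 / 12 : ℝ)) ^ (2 / (K : ℝ))⌋₊ n} ⊆
        {n : ℕ | X ≤ n ∧ (n : ℝ) ≤ X + Y ∧ ∀ i : Fin (m + 1),
          Squarefree (n + dd k W (m + 1) i) ∧ n + dd k W (m + 1) i ≡ k [MOD 8 * M] ∧ Cong (n + dd k W (m + 1) i) ∧
          ∃ r : ℕ, n + dd k W (m + 1) i = k * r ∧ AP (7 * K) X r} := by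
      rintro n ⟨h2, h3, h4⟩
      refine ⟨h2, h3, fun i => ?_⟩
      have h5 := h4 i i.2
      have h6 := cl_ap k M (m + 1) K hK hk0 (X ^ (1 / 12 : ℝ)) Y ((le_max_right _ _).trans hUU) (by rw [e1]; exact hY2)
        (by rw [e1, ← hW]; exact hXD) n (by rw [e1]; exact h3)
        (by
          have : (0 : ℝ) < n := by linarith
          exact_mod_cast this)
        (fun i hi => by
          rw [← hW]
          exact (dd_lt k W (m + 1) hk0 hW0 i (m + 1) hi le_rfl).le) h4 i i.2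
      rw [e1] at h6
      rw [← hW] at h5 h6
      exact ⟨h5.1, h5.2.1, h5.2.2.1, h6⟩
    have hf : {n : ℕ | X ≤ n ∧ (n : ℝ) ≤ X + Y ∧ ∀ i : Fin (m + 1),
          Squarefree (n + dd k W (m + 1) i) ∧ n + dd k W (m + 1) i ≡ k [MOD 8 * M] ∧ Cong (n + dd k W (m + 1) i) ∧
          ∃ r : ℕ, n + dd k W (m + 1) i = k * r ∧ AP (7 * K) X r}.Finite :=
      (hfin (X + Y) (fun _ => True)).subset (fun n hn => ⟨hn.2.1, trivial⟩)
    rw [e1, e3] at h1
    refine h1.trans ?_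
    exact_mod_cast Set.ncard_le_ncard hsub hf

end Pool.Agent.CNC
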