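import Pool.Agent.CNC.B

/-!
# Squares dividing `(b + W t) ^ 2 + a`, a finite set of shifts
-/

set_option autoImplicit false

namespace Pool.Agent.CNC

open Finset Filter
open Pool.Agent.W123.RP Pool.Agent.H373R2.T7 Pool.Agent.TH464.PW Pool.Agent.TH464.PO

/-- at most two classes modulo `p²` -/
theorem mid_squares2 (W b : ℕ) (a : ℤ) (p : ℕ) (hp : p.Prime) (hp2 : p ≠ 2) (hpW : ¬ p ∣ W)
    (hpa : ¬ (p : ℤ) ∣ a) (t0 H : ℕ) :
    ((Ico t0 (t0 + H)).filter (fun t : ℕ => (p : ℤ) ^ 2 ∣ (b + W * t : ℤ) ^ 2 + a)).card ≤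
      2 * (H / p ^ 2 + 1) := by
  classical
  set S := (Ico t0 (t0 + H)).filter (fun t : ℕ => (p : ℤ) ^ 2 ∣ (b + W * t : ℤ) ^ 2 + a) with hSd
  rcases S.eq_empty_or_nonempty with h0 | ⟨s, hs⟩
  · rw [h0, card_empty]
    omega
  have hpi : Prime (p : ℤ) := Nat.prime_iff_prime_int.mp hp
  have hpWi : ¬ (p : ℤ) ∣ W := by exact_mod_cast hpW
  have hp2i : ¬ (p : ℤ) ∣ 2 := by
    intro h
    have h1 : p ∣ 2 := by exact_mod_cast h
    exact hp2 ((Nat.prime_dvd_prime_iff_eq hp Nat.prime_two).1 h1)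
  have hmem : ∀ t ∈ S, t0 ≤ t ∧ t < t0 + H ∧ (p : ℤ) ^ 2 ∣ (b + W * t : ℤ) ^ 2 + a := by
    intro t ht
    rw [hSd, mem_filter, mem_Ico] at ht
    exact ⟨ht.1.1, ht.1.2, ht.2⟩
  -- `p` does not divide `1 + W t`
  have hunit : ∀ t ∈ S, ¬ (p : ℤ) ∣ b + W * t := by
    intro t ht h
    obtain ⟨-, -, h1⟩ := hmem t ht
    have h2 : (p : ℤ) ∣ (b + W * t : ℤ) ^ 2 + a := (Dvd.intro_left _ (by ring : (p : ℤ) * p = p ^ 2)).trans h1
    exact hpa ((dvd_add_right (h.trans (Dvd.intro_left _ (by ring : (b + W * t : ℤ) * (b + W * t) = (b + W * t : ℤ) ^ 2)))).1 h2)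
  have hcop : IsCoprime ((p : ℤ) ^ 2) W := by
    apply IsCoprime.pow_left
    exact (hpi.coprime_iff_not_dvd).2 hpWi
  have hsplit : ∀ t ∈ S, (p : ℤ) ^ 2 ∣ (t : ℤ) - s ∨ (p : ℤ) ^ 2 ∣ 2 * b + W * (t + s) := by
    intro t ht
    obtain ⟨-, -, h1⟩ := hmem t ht
    obtain ⟨-, -, h2⟩ := hmem s hs
    have h3 : (p : ℤ) ^ 2 ∣ W * (((t : ℤ) - s) * (2 * b + W * (t + s))) := by
      have := dvd_sub h1 h2
      have e : (b + W * t : ℤ) ^ 2 + a - ((b + W * s : ℤ) ^ 2 + a) =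
        W * (((t : ℤ) - s) * (2 * b + W * (t + s))) := by ring
      rwa [e] at this
    have h4 : (p : ℤ) ^ 2 ∣ ((t : ℤ) - s) * (2 * b + W * (t + s)) := hcop.dvd_of_dvd_mul_left h3
    by_cases h5 : (p : ℤ) ∣ (t : ℤ) - s
    · left
      have h6 : ¬ (p : ℤ) ∣ 2 * b + W * (t + s) := by
        intro h7
        have h8 : (p : ℤ) ∣ 2 * (b + W * s) := by
          have e : 2 * (b + W * s : ℤ) = (2 * b + W * (t + s)) - W * ((t : ℤ) - s) := by ring
          rw [e]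
          exact dvd_sub h7 (Dvd.dvd.mul_left h5 _)
        rcases hpi.dvd_or_dvd h8 with h9 | h9
        · exact hp2i h9
        · exact hunit s hs h9
      have h7 : IsCoprime ((p : ℤ) ^ 2) (2 * b + W * (t + s)) :=
        IsCoprime.pow_left ((hpi.coprime_iff_not_dvd).2 h6)
      exact h7.dvd_of_dvd_mul_right h4
    · right
      have h7 : IsCoprime ((p : ℤ) ^ 2) ((t : ℤ) - s) :=
        IsCoprime.pow_left ((hpi.coprime_iff_not_dvd).2 h5)
      exact h7.dvd_of_dvd_mul_left h4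
  have hsub : S ⊆ S.filter (fun t : ℕ => (p : ℤ) ^ 2 ∣ (t : ℤ) - s) ∪
      S.filter (fun t : ℕ => (p : ℤ) ^ 2 ∣ 2 * b + W * ((t : ℤ) + s)) := by
    intro t ht
    rcases hsplit t ht with h | h
    · exact mem_union_left _ (mem_filter.2 ⟨ht, h⟩)
    · exact mem_union_right _ (mem_filter.2 ⟨ht, h⟩)
  have hp2pos : 0 < p ^ 2 := pow_pos hp.pos 2
  have c1 : (S.filter (fun t : ℕ => (p : ℤ) ^ 2 ∣ (t : ℤ) - s)).card ≤ H / p ^ 2 + 1 := by
    apply class_card (p ^ 2) t0 H hp2pos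
    · intro t ht
      rw [mem_filter] at ht
      exact ⟨(hmem t ht.1).1, (hmem t ht.1).2.1⟩
    · intro u hu t ht
      rw [mem_filter] at hu ht
      rw [Nat.modEq_iff_dvd]
      have := dvd_sub ht.2 hu.2
      push_cast
      have e : (t : ℤ) - s - ((u : ℤ) - s) = (t : ℤ) - u := by ring
      rwa [e] at this
  have c2 : (S.filter (fun t : ℕ => (p : ℤ) ^ 2 ∣ 2 * b + W * ((t : ℤ) + s))).card ≤ H / p ^ 2 + 1 := by
    apply class_card (p ^ 2) t0 H hp2pos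
    · intro t ht
      rw [mem_filter] at ht
      exact ⟨(hmem t ht.1).1, (hmem t ht.1).2.1⟩
    · intro u hu t ht
      rw [mem_filter] at hu ht
      rw [Nat.modEq_iff_dvd]
      have := dvd_sub ht.2 hu.2
      push_cast
      have e : (2 * b + W * ((t : ℤ) + s)) - (2 * b + W * ((u : ℤ) + s)) = W * ((t : ℤ) - u) := by ring
      rw [e] at this
      exact hcop.dvd_of_dvd_mul_left this
  have := (card_le_card hsub).trans (card_union_le _ _)
  omega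


/-- all squares of primes `> z` -/
theorem bad_card2 (W b : ℕ) (hW : 0 < W) (a : ℤ) (ha : a ≠ 0) (z : ℕ) (hz : 2 ≤ z)
    (hza : ∀ p : ℕ, p.Prime → z < p → ¬ p ∣ W ∧ ¬ (p : ℤ) ∣ a) (t0 H T P R : ℕ) (hzP : z ≤ P)
    (hT : 15 * a.natAbs ≤ T ^ 2) (hR : 4 * T ^ 2 + a.natAbs ≤ R * P ^ 2) (hT1 : T < b + W * t0)
    (hT2 : b + W * (t0 + H) ≤ 2 * T) (S : Finset ℕ) (hS : ∀ t ∈ S, t0 ≤ t ∧ t < t0 + H ∧
      ∃ p : ℕ, p.Prime ∧ z < p ∧ (p : ℤ) ^ 2 ∣ (b + W * t : ℤ) ^ 2 + a) :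
    (S.card : ℝ) ≤ 2 * H / z + 2 * P + R * (a.natAbs : ℝ) ^ 2 := by
  classical
  set S1 := ((Ioc z P).filter (fun p => p.Prime ∧ ¬ p ∣ W)).biUnion (fun p =>
    (Ico t0 (t0 + H)).filter (fun t : ℕ => (p : ℤ) ^ 2 ∣ (b + W * t : ℤ) ^ 2 + a)) with hS1
  set S2 := S.filter (fun t : ℕ => ∃ y : ℕ, P ≤ y ∧ (y : ℤ) ^ 2 ∣ (b + W * t : ℤ) ^ 2 + a) with hS2
  have hsub : S ⊆ S1 ∪ S2 := by
    intro t ht
    obtain ⟨h1, h2, p, h3, h4, h5⟩ := hS t ht
    rw [mem_union]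
    by_cases hpP : p ≤ P
    · left
      rw [hS1, mem_biUnion]
      refine ⟨p, ?_, ?_⟩
      · rw [mem_filter, mem_Ioc]
        exact ⟨⟨h4, hpP⟩, h3, (hza p h3 h4).1⟩
      · rw [mem_filter, mem_Ico]
        exact ⟨⟨h1, h2⟩, h5⟩
    · right
      rw [hS2, mem_filter]
      exact ⟨ht, p, by omega, h5⟩
  have c1 : (S1.card : ℝ) ≤ 2 * H / z + 2 * P := by
    have h1 : (S1.card : ℝ) ≤ ∑ p ∈ (Ioc z P).filter (fun p => p.Prime ∧ ¬ p ∣ W),
        (2 * ((H : ℝ) * ((p : ℝ) ^ 2)⁻¹ + 1)) := by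
      have h2 := card_biUnion_le (s := (Ioc z P).filter (fun p => p.Prime ∧ ¬ p ∣ W))
        (t := fun p => (Ico t0 (t0 + H)).filter (fun t : ℕ => (p : ℤ) ^ 2 ∣ (b + W * t : ℤ) ^ 2 + a))
      rw [← hS1] at h2
      have h3 : (S1.card : ℝ) ≤ ∑ p ∈ (Ioc z P).filter (fun p => p.Prime ∧ ¬ p ∣ W),
          (((Ico t0 (t0 + H)).filter (fun t : ℕ => (p : ℤ) ^ 2 ∣ (b + W * t : ℤ) ^ 2 + a)).card : ℝ) := by
        exact_mod_cast h2
      refine h3.trans (sum_le_sum ?_)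
      intro p hp
      rw [mem_filter, mem_Ioc] at hp
      obtain ⟨⟨hp1, hp2⟩, hp3, hp4⟩ := hp
      have h4 := mid_squares2 W b a p hp3 (by omega) hp4 (hza p hp3 hp1).2 t0 H
      have h5 : (((Ico t0 (t0 + H)).filter (fun t : ℕ => (p : ℤ) ^ 2 ∣ (b + W * t : ℤ) ^ 2 + a)).card : ℝ) ≤
          2 * (((H / p ^ 2 : ℕ) : ℝ) + 1) := by exact_mod_cast h4
      refine h5.trans ?_
      have h6 : ((H / p ^ 2 : ℕ) : ℝ) ≤ H * ((p : ℝ) ^ 2)⁻¹ := by
        have := @Nat.cast_div_le ℝ _ _ _ H (p ^ 2)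
        rw [Nat.cast_pow] at this
        rwa [div_eq_mul_inv] at this
      linarith
    have h7 : ∑ p ∈ (Ioc z P).filter (fun p => p.Prime ∧ ¬ p ∣ W), (2 * ((H : ℝ) * ((p : ℝ) ^ 2)⁻¹ + 1)) ≤
        ∑ p ∈ Ioc z P, (2 * ((H : ℝ) * ((p : ℝ) ^ 2)⁻¹ + 1)) := by
      apply sum_le_sum_of_subset_of_nonneg (filter_subset _ _)
      intro p _ _
      positivity
    have h8 : ∑ p ∈ Ioc z P, (2 * ((H : ℝ) * ((p : ℝ) ^ 2)⁻¹ + 1)) =
        2 * H * (∑ p ∈ Ioc z P, ((p : ℝ) ^ 2)⁻¹) + 2 * ((Ioc z P).card : ℝ) := by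
      rw [mul_sum, card_eq_sum_ones, Nat.cast_sum, mul_sum, ← sum_add_distrib]
      refine sum_congr rfl fun p _ => ?_
      push_cast
      ring
    have h9 : ∑ p ∈ Ioc z P, ((p : ℝ) ^ 2)⁻¹ ≤ (z : ℝ)⁻¹ := by
      have := sum_Ioc_inv_sq_le_sub (α := ℝ) (k := z) (n := P) (by omega) hzP
      have h10 : (0 : ℝ) ≤ (P : ℝ)⁻¹ := by positivity
      linarith
    have h10 : ((Ioc z P).card : ℝ) ≤ P := by
      rw [Nat.card_Ioc]
      have : P - z ≤ P := Nat.sub_le _ _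
      exact_mod_cast this
    have h11 : 2 * (H : ℝ) * (∑ p ∈ Ioc z P, ((p : ℝ) ^ 2)⁻¹) ≤ 2 * H * (z : ℝ)⁻¹ :=
      mul_le_mul_of_nonneg_left h9 (by positivity)
    calc (S1.card : ℝ) ≤ _ := h1
      _ ≤ _ := h7
      _ = _ := h8
      _ ≤ 2 * H * (z : ℝ)⁻¹ + 2 * P := by linarith
      _ = _ := by rw [div_eq_mul_inv]
  have c2 : S2.card ≤ R * a.natAbs ^ 2 := by
    have hinj : Function.Injective (fun t : ℕ => b + W * t) := by
      intro s t h
      simp only at h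
      exact Nat.eq_of_mul_eq_mul_left hW (by omega)
    rw [← card_image_of_injective S2 hinj]
    apply big_squares a ha T P R hT (by omega) hR
    intro x hx
    rw [mem_image] at hx
    obtain ⟨t, ht, rfl⟩ := hx
    rw [hS2, mem_filter] at ht
    obtain ⟨h1, h2, -⟩ := hS t ht.1
    have h3 : W * t0 ≤ W * t := Nat.mul_le_mul_left W h1
    have h4 : W * t ≤ W * (t0 + H) := Nat.mul_le_mul_left W (by omega)
    refine ⟨by omega, by omega, ?_⟩
    obtain ⟨y, hy1, hy2⟩ := ht.2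
    refine ⟨y, hy1, ?_⟩
    push_cast
    exact hy2
  have h1 := (card_le_card hsub).trans (card_union_le _ _)
  have h2 : (S.card : ℝ) ≤ S1.card + S2.card := by exact_mod_cast h1
  have h3 : (S2.card : ℝ) ≤ R * (a.natAbs : ℝ) ^ 2 := by exact_mod_cast c2
  linarith


/-- the values `(b + W t)² + a` -/
def Gv (W b : ℕ) (a : ℤ) (t : ℕ) : ℤ := (b + W * t : ℤ) ^ 2 + a

/-- no prime `≤ z` outside `W` divides a value -/
def Low2 (W b : ℕ) (A : Finset ℤ) (z t : ℕ) : Prop :=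
  ∀ a ∈ A, ∀ p : ℕ, p.Prime → p ≤ z → ¬ p ∣ W → ¬ (p : ℤ) ∣ Gv W b a t

/-- no square of a prime `> z` divides a value -/
def High2 (W b : ℕ) (A : Finset ℤ) (z t : ℕ) : Prop :=
  ∀ a ∈ A, ∀ p : ℕ, p.Prime → z < p → ¬ (p : ℤ) ^ 2 ∣ Gv W b a t

/-- the numerical hypotheses on the interval `s + 1 ≤ t ≤ s + H` -/
structure Num2 (B W b s H T P R : ℕ) : Prop where
  hT : 15 * B ≤ T ^ 2
  hR : 4 * T ^ 2 + B ≤ R * P ^ 2
  hT1 : T < b + W * (s + 1)
  hT2 : b + W * (s + 1 + H) ≤ 2 * T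

/-- the hypotheses on the shifts -/
structure Sh (A : Finset ℤ) (B W z0 : ℕ) : Prop where
  ne : ∀ a ∈ A, a ≠ 0
  le : ∀ a ∈ A, a.natAbs ≤ B
  pr : ∀ p : ℕ, p.Prime → z0 < p → ¬ p ∣ W ∧ ∀ a ∈ A, ¬ (p : ℤ) ∣ a

open Classical in
/-- few indices with a large square -/
theorem high_card2 (A : Finset ℤ) (B W b z0 z : ℕ) (hW : 0 < W) (hA : Sh A B W z0) (hz : 2 ≤ z) (hz0 : z0 ≤ z)
    (s H T P R : ℕ) (hzP : z ≤ P) (hN : Num2 B W b s H T P R) :
    ((((Ico (s + 1) (s + 1 + H)).filter (fun t => ¬ High2 W b A z t)).card : ℕ) : ℝ) ≤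
      A.card * (2 * H / z + 2 * P + R * (B : ℝ) ^ 2) := by
  have hsub : (Ico (s + 1) (s + 1 + H)).filter (fun t => ¬ High2 W b A z t) ⊆
      A.biUnion (fun a => (Ico (s + 1) (s + 1 + H)).filter (fun t =>
        ∃ p : ℕ, p.Prime ∧ z < p ∧ (p : ℤ) ^ 2 ∣ Gv W b a t)) := by
    intro t ht
    rw [mem_filter] at ht
    obtain ⟨h1, h2⟩ := ht
    unfold High2 at h2
    push Not at h2
    obtain ⟨q, hq, p, hp1, hp2, hp3⟩ := h2
    rw [mem_biUnion]
    exact ⟨q, hq, mem_filter.2 ⟨h1, p, hp1, hp2, hp3⟩⟩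
  have h1 := (card_le_card hsub).trans card_biUnion_le
  have h2 : ((((Ico (s + 1) (s + 1 + H)).filter (fun t => ¬ High2 W b A z t)).card : ℕ) : ℝ) ≤
      ∑ a ∈ A, ((((Ico (s + 1) (s + 1 + H)).filter (fun t =>
        ∃ p : ℕ, p.Prime ∧ z < p ∧ (p : ℤ) ^ 2 ∣ Gv W b a t)).card : ℕ) : ℝ) := by exact_mod_cast h1
  refine h2.trans ?_
  have h3 : ∀ a ∈ A, ((((Ico (s + 1) (s + 1 + H)).filter (fun t =>
        ∃ p : ℕ, p.Prime ∧ z < p ∧ (p : ℤ) ^ 2 ∣ Gv W b a t)).card : ℕ) : ℝ) ≤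
      2 * H / z + 2 * P + R * (B : ℝ) ^ 2 := by
    intro a ha
    have hab := hA.le a ha
    have := bad_card2 W b hW a (hA.ne a ha) z hz (fun p hp hpz =>
      ⟨(hA.pr p hp (by omega)).1, (hA.pr p hp (by omega)).2 a ha⟩) (s + 1) H T P R hzP
      (by have := hN.hT; omega) (by have := hN.hR; omega)
      hN.hT1 hN.hT2 ((Ico (s + 1) (s + 1 + H)).filter (fun t =>
        ∃ p : ℕ, p.Prime ∧ z < p ∧ (p : ℤ) ^ 2 ∣ Gv W b a t)) (by
        intro t ht
        rw [mem_filter, mem_Ico] at ht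
        obtain ⟨⟨h4, h5⟩, p, h6, h7, h8⟩ := ht
        exact ⟨h4, h5, p, h6, h7, h8⟩)
    refine this.trans ?_
    have h9 : (a.natAbs : ℝ) ≤ B := by exact_mod_cast hab
    have h10 : (a.natAbs : ℝ) ^ 2 ≤ (B : ℝ) ^ 2 := pow_le_pow_left₀ (by positivity) h9 2
    have h11 : (R : ℝ) * (a.natAbs : ℝ) ^ 2 ≤ R * (B : ℝ) ^ 2 :=
      mul_le_mul_of_nonneg_left h10 (by positivity)
    linarith
  refine (sum_le_sum h3).trans ?_
  rw [sum_const, nsmul_eq_mul]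

/-- the sieve conditions -/
def Qc2 (W b : ℕ) (A : Finset ℤ) (p t : ℕ) : Prop := ¬ p ∣ W ∧ ∃ a ∈ A, (p : ℤ) ∣ Gv W b a t

open Classical in
/-- one factor has at most two roots modulo `p` -/
lemma two_roots2 (W b p : ℕ) (hp : p.Prime) (hpW : ¬ p ∣ W) (a : ℤ) :
    ((range p).filter (fun t : ℕ => (p : ℤ) ∣ Gv W b a t)).card ≤ 2 := by
  obtain ⟨S, hS⟩ : ∃ S, S = (range p).filter (fun t : ℕ => (p : ℤ) ∣ Gv W b a t) := ⟨_, rfl⟩
  rw [← hS]
  rcases S.eq_empty_or_nonempty with h0 | ⟨s, hs⟩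
  · rw [h0, card_empty]
    omega
  have hpi : Prime (p : ℤ) := Nat.prime_iff_prime_int.mp hp
  have hpWi : ¬ (p : ℤ) ∣ W := by exact_mod_cast hpW
  have hmem : ∀ t ∈ S, t < p ∧ (p : ℤ) ∣ Gv W b a t := by
    intro t ht
    rw [hS, mem_filter, mem_range] at ht
    exact ht
  have hlt : ∀ u ∈ S, ∀ t ∈ S, (p : ℤ) ∣ (t : ℤ) - u → t = u := by
    intro u hu t ht h
    have h1 := (hmem u hu).1
    have h2 := (hmem t ht).1
    have h3 : (t : ℤ) - u = 0 := by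
      apply Int.eq_zero_of_abs_lt_dvd h
      rw [abs_lt]
      constructor <;> omega
    omega
  have hsplit : ∀ t ∈ S, (p : ℤ) ∣ (t : ℤ) - s ∨ (p : ℤ) ∣ 2 * b + W * ((t : ℤ) + s) := by
    intro t ht
    have h1 := (hmem t ht).2
    have h2 := (hmem s hs).2
    have h3 : (p : ℤ) ∣ W * (((t : ℤ) - s) * (2 * b + W * (t + s))) := by
      have := dvd_sub h1 h2
      have e : Gv W b a t - Gv W b a s = W * (((t : ℤ) - s) * (2 * b + W * (t + s))) := by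
        unfold Gv
        ring
      rwa [e] at this
    rcases hpi.dvd_or_dvd h3 with h | h
    · exact absurd h hpWi
    · exact hpi.dvd_or_dvd h
  have c1 : (S.filter (fun t : ℕ => (p : ℤ) ∣ (t : ℤ) - s)).card ≤ 1 := by
    rw [card_le_one]
    intro a ha b hb
    rw [mem_filter] at ha hb
    rw [hlt s hs a ha.1 ha.2, hlt s hs b hb.1 hb.2]
  have c2 : (S.filter (fun t : ℕ => (p : ℤ) ∣ 2 * b + W * ((t : ℤ) + s))).card ≤ 1 := by
    rw [card_le_one]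
    intro u hu v hv
    rw [mem_filter] at hu hv
    apply hlt v hv.1 u hu.1
    have := dvd_sub hu.2 hv.2
    have e : (2 * b + W * ((u : ℤ) + s)) - (2 * b + W * ((v : ℤ) + s)) = W * ((u : ℤ) - v) := by ring
    rw [e] at this
    rcases hpi.dvd_or_dvd this with h | h
    · exact absurd h hpWi
    · exact h
  have hsub : S ⊆ S.filter (fun t : ℕ => (p : ℤ) ∣ (t : ℤ) - s) ∪
      S.filter (fun t : ℕ => (p : ℤ) ∣ 2 * b + W * ((t : ℤ) + s)) := by
    intro t ht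
    rcases hsplit t ht with h | h
    · exact mem_union_left _ (mem_filter.2 ⟨ht, h⟩)
    · exact mem_union_right _ (mem_filter.2 ⟨ht, h⟩)
  have := (card_le_card hsub).trans (card_union_le _ _)
  omega

lemma Gv_mod (W b : ℕ) (a : ℤ) (p t : ℕ) : (p : ℤ) ∣ Gv W b a t ↔ (p : ℤ) ∣ Gv W b a (t % p) := by
  have e : Gv W b a t - Gv W b a (t % p) =
      (p : ℤ) * (W * (t / p : ℕ) * (2 * b + W * (t + (t % p : ℕ)))) := by
    have h := Nat.div_add_mod t p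
    have h' : (t : ℤ) = (p : ℤ) * (t / p : ℕ) + (t % p : ℕ) := by exact_mod_cast h.symm
    unfold Gv
    generalize hu : ((t / p : ℕ) : ℤ) = u at h' ⊢
    generalize hw : ((t % p : ℕ) : ℤ) = w at h' ⊢
    rw [h']
    ring
  constructor
  · intro h
    have h1 : (p : ℤ) ∣ Gv W b a t - Gv W b a (t % p) := by rw [e]; exact Dvd.intro _ rfl
    have h2 := dvd_sub h h1
    rwa [sub_sub_cancel] at h2
  · intro h
    have h1 : (p : ℤ) ∣ Gv W b a t - Gv W b a (t % p) := by rw [e]; exact Dvd.intro _ rfl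
    have h2 := dvd_add h1 h
    rwa [sub_add_cancel] at h2

lemma nu_le2 (W b : ℕ) (A : Finset ℤ) (p : ℕ) (hp : p.Prime) :
    nuB (Qc2 W b A) p ≤ 2 * A.card ∧ (p ∣ W → nuB (Qc2 W b A) p = 0) := by
  classical
  constructor
  · by_cases hpW : p ∣ W
    · unfold nuB
      rw [filter_eq_empty_iff.mpr (fun t _ h => h.1 hpW), card_empty]
      omega
    · unfold nuB
      have hsub : (range p).filter (fun t => Qc2 W b A p t) ⊆
          A.biUnion (fun a => (range p).filter (fun t : ℕ => (p : ℤ) ∣ Gv W b a t)) := by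
        intro t ht
        rw [mem_filter] at ht
        obtain ⟨h1, -, q, hq, h2⟩ := ht
        rw [mem_biUnion]
        exact ⟨q, hq, mem_filter.2 ⟨h1, h2⟩⟩
      refine (card_le_card hsub).trans (card_biUnion_le.trans ?_)
      refine (sum_le_sum (fun q _ => two_roots2 W b p hp hpW q)).trans ?_
      rw [sum_const, smul_eq_mul]
      omega
  · intro hpW
    unfold nuB
    rw [Finset.card_eq_zero]
    exact filter_eq_empty_iff.mpr (fun t _ h => h.1 hpW)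

lemma perB_Qc2 (W b : ℕ) (A : Finset ℤ) (c : ℕ) (hc : 2 * A.card ≤ c) : PerB (Qc2 W b A) c where
  per := by
    intro p t
    unfold Qc2
    constructor
    · rintro ⟨h1, q, h2, h3⟩
      exact ⟨h1, q, h2, (Gv_mod W b q p t).1 h3⟩
    · rintro ⟨h1, q, h2, h3⟩
      exact ⟨h1, q, h2, (Gv_mod W b q p t).2 h3⟩
  few := fun p hp => (nu_le2 W b A p hp).1.trans hc

open Classical in
/-- a positive proportion of the indices is good -/
theorem count_pos2 (A : Finset ℤ) (B W b z : ℕ) (hW : 0 < W) (hA : Sh A B W z) (hz : 8 * A.card ≤ z) (hz2 : 2 ≤ z)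
    (s H T P R : ℕ) (hzP : z ≤ P) (hN : Num2 B W b s H T P R)
    (hH : A.card * (2 * P + R * (B : ℝ) ^ 2) ≤ (H : ℝ) / 4) :
    (H : ℝ) / 2 ≤ (((Ico (s + 1) (s + 1 + H)).filter (fun t => High2 W b A z t)).card : ℝ) := by
  have h1 := high_card2 A B W b z z hW hA hz2 le_rfl s H T P R hzP hN
  have hz0 : (0 : ℝ) < z := by
    have : 0 < z := by omega
    exact_mod_cast this
  have h2 : (A.card : ℝ) * (2 * H / z) ≤ (H : ℝ) / 4 := by
    have h3 : 8 * (A.card : ℝ) ≤ z := by exact_mod_cast hz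
    rw [show (A.card : ℝ) * (2 * H / z) = (2 * A.card * H) / z by ring, div_le_iff₀ hz0]
    have h4 : (0 : ℝ) ≤ H := Nat.cast_nonneg _
    nlinarith
  have h5 : ((((Ico (s + 1) (s + 1 + H)).filter (fun t => ¬ High2 W b A z t)).card : ℕ) : ℝ) ≤ (H : ℝ) / 2 := by
    refine h1.trans ?_
    nlinarith
  have h6 := card_filter_add_card_filter_not (s := Ico (s + 1) (s + 1 + H)) (fun t => High2 W b A z t)
  have h7 : (((Ico (s + 1) (s + 1 + H)).filter (fun t => High2 W b A z t)).card : ℝ) +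
      (((Ico (s + 1) (s + 1 + H)).filter (fun t => ¬ High2 W b A z t)).card : ℝ) = H := by
    have h8 : (Ico (s + 1) (s + 1 + H)).card = H := by rw [Nat.card_Ico]; omega
    rw [h8] at h6
    exact_mod_cast h6
  linarith

open Classical in
/-- almost primes -/
theorem count_low2 (c : ℕ) (hc : 1 ≤ c) : ∃ K z1 : ℕ, 1 ≤ K ∧ 2 ≤ z1 ∧ ∃ v : ℝ, 0 < v ∧
    ∀ (A : Finset ℤ) (B W b z0 : ℕ), 2 * A.card ≤ c → 0 < W → Sh A B W z0 →
    (∀ p : ℕ, p.Prime → p ≤ c → p ∣ W) →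
    ∀ z s H T P R : ℕ, z1 ≤ z → z0 ≤ z → z ^ K ≤ H → z ≤ P → Num2 B W b s H T P R →
      v * (H / Real.log z ^ c) - A.card * (2 * H / z + 2 * P + R * (B : ℝ) ^ 2) ≤
        (((Ico (s + 1) (s + 1 + H)).filter (fun t => Low2 W b A z t ∧ High2 W b A z t)).card : ℝ) := by
  obtain ⟨K, z1, hK, hz1, v, hv, hS⟩ := sift_gen c hc
  refine ⟨K, z1, hK, hz1, v, hv, ?_⟩
  intro A B W b z0 hAc hW hA hpW z s H T P R hz hz0 hzH hzP hN
  have h1 := hS H z s hz hzH (Qc2 W b A) (perB_Qc2 W b A c hAc) (fun p hp => by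
    by_cases h : p ≤ c
    · rw [(nu_le2 W b A p hp).2 (hpW p hp h)]
      exact hp.pos
    · have := (nu_le2 W b A p hp).1
      omega)
  have h2 := high_card2 A B W b z0 z hW hA (by omega) hz0 s H T P R hzP hN
  have h3 : ((Ico (s + 1) (s + 1 + H)).filter (fun t => ∀ p ∈ pz z, ¬ Qc2 W b A p t)).card ≤
      ((Ico (s + 1) (s + 1 + H)).filter (fun t => Low2 W b A z t ∧ High2 W b A z t)).card +
      ((Ico (s + 1) (s + 1 + H)).filter (fun t => ¬ High2 W b A z t)).card := by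
    rw [← card_union_of_disjoint]
    · apply card_le_card
      intro t ht
      rw [mem_filter] at ht
      rw [mem_union, mem_filter, mem_filter]
      by_cases hh : High2 W b A z t
      · left
        refine ⟨ht.1, ?_, hh⟩
        intro q hq p hp hpz hpW hd
        exact ht.2 p (mem_pz.2 ⟨hpz, hp⟩) ⟨hpW, q, hq, hd⟩
      · exact Or.inr ⟨ht.1, hh⟩
    · rw [disjoint_left]
      intro t h4 h5
      rw [mem_filter] at h4 h5
      exact h5.2 h4.2.2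
  have h4 : (((Ico (s + 1) (s + 1 + H)).filter (fun t => ∀ p ∈ pz z, ¬ Qc2 W b A p t)).card : ℝ) ≤
      (((Ico (s + 1) (s + 1 + H)).filter (fun t => Low2 W b A z t ∧ High2 W b A z t)).card : ℝ) +
      (((Ico (s + 1) (s + 1 + H)).filter (fun t => ¬ High2 W b A z t)).card : ℝ) := by exact_mod_cast h3
  linarith

end Pool.Agent.CNC
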