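import Pool.Agent.CNC.G
import Pool.Agent.CNC.C

/-!
# Pairs of congruent numbers with a given difference: arithmetic
-/

set_option autoImplicit false

namespace Pool.Agent.CNC

open Finset

/-- a primitive representation `D² h = z⁴ - t⁴` -/
structure Rep (h D z t : ℕ) : Prop where
  hD : 4 ∣ D
  D0 : 0 < D
  t0 : 0 < t
  h0 : 0 < h
  cop : Nat.Coprime z t
  eq : D ^ 2 * h + t ^ 4 = z ^ 4

/-- `h` is a congruent number in the sense of the row -/
def CongE (a : ℕ) : Prop :=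
  ∃ x y z t : ℕ, 0 < x ∧ 0 < y ∧ 0 < z ∧ 0 < t ∧ x ^ 2 + a * y ^ 2 = z ^ 2 ∧ x ^ 2 = a * y ^ 2 + t ^ 2

lemma sq_ne_two_mul_sq (a b : ℕ) (hb : 0 < b) : a ^ 2 ≠ 2 * b ^ 2 := by
  intro h
  have h1 : Irrational (√2) := irrational_sqrt_two
  apply h1
  refine ⟨(a : ℚ) / b, ?_⟩
  have hb' : (0 : ℝ) < b := by exact_mod_cast hb
  have h2 : (a : ℝ) ^ 2 = 2 * (b : ℝ) ^ 2 := by exact_mod_cast h
  push_cast
  symm
  rw [Real.sqrt_eq_iff_mul_self_eq (by norm_num) (by positivity)]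
  field_simp
  linarith

/-- numbers `(s⁴ - z⁴) / D²` are congruent -/
lemma congE_of (n D z s : ℕ) (hn : 0 < n) (hD : 0 < D) (hz : 0 < z) (h : D ^ 2 * n + z ^ 4 = s ^ 4) : CongE n := by
  have hs : z < s := by
    have h1 : z ^ 4 < s ^ 4 := by
      have : 0 < D ^ 2 * n := by positivity
      omega
    exact lt_of_pow_lt_pow_left₀ 4 (by omega) h1
  have hs0 : 0 < s := by omega
  have hne : s ^ 4 ≠ z ^ 4 + 2 * s ^ 2 * z ^ 2 := by
    intro h1
    have h2 : z ^ 2 ≤ s ^ 2 := Nat.pow_le_pow_left hs.le 2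
    obtain ⟨d, hd⟩ := Nat.exists_eq_add_of_le h2
    have h3 : d ^ 2 = 2 * (z ^ 2) ^ 2 := by
      have h4 : s ^ 4 = (s ^ 2) ^ 2 := by ring
      rw [h4, hd] at h1
      have h5 : (z ^ 2 + d) ^ 2 = z ^ 4 + 2 * d * z ^ 2 + d ^ 2 := by ring
      have h6 : z ^ 4 + 2 * (z ^ 2 + d) * z ^ 2 = z ^ 4 + 2 * d * z ^ 2 + 2 * (z ^ 2) ^ 2 := by ring
      omega
    exact sq_ne_two_mul_sq d (z ^ 2) (by positivity) h3
  have h4 : z ^ 4 ≤ s ^ 4 := Nat.pow_le_pow_left hs.le 4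
  obtain ⟨q, hq⟩ := Nat.exists_eq_add_of_le h4
  have hqn : D ^ 2 * n = q := by omega
  -- `q = s⁴ - z⁴`
  have key : (s ^ 4 + z ^ 4) ^ 2 = q ^ 2 + (2 * s ^ 2 * z ^ 2) ^ 2 := by
    rw [hq]
    have : (2 * s ^ 2 * z ^ 2) ^ 2 = 4 * s ^ 4 * z ^ 4 := by ring
    rw [this, hq]
    ring
  have e1 : n * (2 * D * s * z) ^ 2 = 2 * q * (2 * s ^ 2 * z ^ 2) := by
    rw [← hqn]
    ring
  have hne2 : q ≠ 2 * s ^ 2 * z ^ 2 := by omega
  rcases lt_or_gt_of_ne hne2 with hlt | hlt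
  · obtain ⟨w, hw⟩ := Nat.exists_eq_add_of_lt hlt
    refine ⟨s ^ 4 + z ^ 4, 2 * D * s * z, q + 2 * s ^ 2 * z ^ 2, w + 1, by positivity, by positivity,
      by positivity, by positivity, ?_, ?_⟩
    · rw [e1, key]
      ring
    · rw [e1, key, hw]
      ring
  · obtain ⟨w, hw⟩ := Nat.exists_eq_add_of_lt hlt
    refine ⟨s ^ 4 + z ^ 4, 2 * D * s * z, q + 2 * s ^ 2 * z ^ 2, w + 1, by positivity, by positivity,
      by positivity, by positivity, ?_, ?_⟩
    · rw [e1, key]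
      ring
    · rw [e1, key, hw]
      ring

lemma Rep.odd {h D z t : ℕ} (R : Rep h D z t) : z % 2 = 1 ∧ t % 2 = 1 := by
  obtain ⟨E, hE⟩ := R.hD
  have h1 : z ^ 4 % 2 = t ^ 4 % 2 := by
    rw [← R.eq, hE]
    have : (4 * E) ^ 2 * h + t ^ 4 = t ^ 4 + 2 * (8 * E ^ 2 * h) := by ring
    rw [this, Nat.add_mul_mod_self_left]
  have h2 : ∀ x : ℕ, x ^ 4 % 2 = x % 2 := by
    intro x
    rw [Nat.pow_mod]
    rcases Nat.mod_two_eq_zero_or_one x with h | h <;> rw [h]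
  rw [h2, h2] at h1
  rcases Nat.mod_two_eq_zero_or_one z with h3 | h3
  · exfalso
    have h4 : 2 ∣ Nat.gcd z t := Nat.dvd_gcd (Nat.dvd_of_mod_eq_zero h3) (Nat.dvd_of_mod_eq_zero (by omega))
    rw [R.cop] at h4
    omega
  · exact ⟨h3, by omega⟩

/-- a squarefree congruent number has a primitive representation -/
lemma rep_of_cong (h : ℕ) (hs : Squarefree h) (hc : CongE h) : ∃ D z t : ℕ, Rep h D z t := by
  have hh0 : 0 < h := Nat.pos_of_ne_zero (fun h0 => by rw [h0] at hs; exact not_squarefree_zero hs)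
  obtain ⟨x', y', z', t', hx', hy', hz', ht', e1', e2'⟩ := hc
  -- remove the common factor
  obtain ⟨x, y, z, t, hx, hy, hz, ht, e1, e2, hxy⟩ : ∃ x y z t : ℕ, 0 < x ∧ 0 < y ∧ 0 < z ∧ 0 < t ∧
      x ^ 2 + h * y ^ 2 = z ^ 2 ∧ x ^ 2 = h * y ^ 2 + t ^ 2 ∧ Nat.Coprime x y := by
    obtain ⟨g, x, y, hg, hcop, hxg, hyg⟩ := Nat.exists_coprime' (m := x') (n := y') (Nat.gcd_pos_of_pos_left _ hx')
    have hg0 : 0 < g := by
      rcases Nat.eq_zero_or_pos g with h0 | h0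
      · rw [h0, mul_zero] at hxg
        omega
      · exact h0
    have hgz : g ∣ z' := by
      have : g ^ 2 ∣ z' ^ 2 := by
        rw [← e1', hxg, hyg]
        exact ⟨x ^ 2 + h * y ^ 2, by ring⟩
      exact (Nat.pow_dvd_pow_iff two_ne_zero).1 this
    have hgt : g ∣ t' := by
      have h1 : g ^ 2 ∣ t' ^ 2 + h * y' ^ 2 := by
        rw [add_comm, ← e2', hxg]
        exact ⟨x ^ 2, by ring⟩
      have h2 : g ^ 2 ∣ h * y' ^ 2 := by
        rw [hyg]
        exact ⟨h * y ^ 2, by ring⟩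
      exact (Nat.pow_dvd_pow_iff two_ne_zero).1 ((Nat.dvd_add_iff_left h2).2 h1)
    obtain ⟨z, rfl⟩ := hgz
    obtain ⟨t, rfl⟩ := hgt
    subst hxg hyg
    have hg2 : 0 < g ^ 2 := by positivity
    refine ⟨x, y, z, t, ?_, ?_, ?_, ?_, ?_, ?_, hcop⟩
    · exact Nat.pos_of_ne_zero (by rintro rfl; simp at hx')
    · exact Nat.pos_of_ne_zero (by rintro rfl; simp at hy')
    · exact Nat.pos_of_ne_zero (by rintro rfl; simp at hz')
    · exact Nat.pos_of_ne_zero (by rintro rfl; simp at ht')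
    · apply Nat.eq_of_mul_eq_mul_left hg2
      nlinarith
    · apply Nat.eq_of_mul_eq_mul_left hg2
      nlinarith
  -- `z² + t² = 2 x²`, `z² = t² + 2 h y²`
  have f1 : z ^ 2 + t ^ 2 = 2 * x ^ 2 := by omega
  have f2 : z ^ 2 = t ^ 2 + 2 * (h * y ^ 2) := by omega
  have hsq : ∀ p : ℕ, p.Prime → ¬ p ^ 2 ∣ h := by
    intro p hp hd
    rw [pow_two] at hd
    have := hs p hd
    exact hp.one_lt.ne' (Nat.isUnit_iff.1 this)
  have hodd : ∀ p : ℕ, p.Prime → p ∣ z → ¬ p ∣ t := by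
    intro p hp h1 h2
    have h3 : p ^ 2 ∣ 2 * x ^ 2 := by
      rw [← f1]
      exact dvd_add (pow_dvd_pow_of_dvd h1 2) (pow_dvd_pow_of_dvd h2 2)
    have h4 : p ^ 2 ∣ 2 * (h * y ^ 2) := by
      have h5 : p ^ 2 ∣ t ^ 2 := pow_dvd_pow_of_dvd h2 2
      rw [Nat.dvd_add_iff_right h5, ← f2]
      exact pow_dvd_pow_of_dvd h1 2
    by_cases hp2 : p = 2
    · subst hp2
      have hx2 : 2 ∣ x := by
        have h5 : 2 ∣ x ^ 2 := by
          have : 2 * 2 ∣ 2 * x ^ 2 := by simpa [pow_two] using h3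
          exact Nat.dvd_of_mul_dvd_mul_left (by norm_num) this
        exact Nat.prime_two.dvd_of_dvd_pow h5
      obtain ⟨x1, rfl⟩ := hx2
      obtain ⟨z1, rfl⟩ := h1
      obtain ⟨t1, rfl⟩ := h2
      have g1 : z1 ^ 2 + t1 ^ 2 = 2 * x1 ^ 2 := by nlinarith
      have g2 : 2 * z1 ^ 2 = 2 * t1 ^ 2 + h * y ^ 2 := by nlinarith
      have g3 : z1 % 2 = t1 % 2 := by
        have h5 : (z1 ^ 2 + t1 ^ 2) % 2 = 0 := by rw [g1]; omega
        have h6 : ∀ x : ℕ, x ^ 2 % 2 = x % 2 := by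
          intro x
          rw [Nat.pow_mod]
          rcases Nat.mod_two_eq_zero_or_one x with h | h <;> rw [h]
        have h7 := h6 z1
        have h8 := h6 t1
        omega
      have g4 : 4 ∣ h * y ^ 2 := by
        have h5 : z1 ^ 2 % 4 = t1 ^ 2 % 4 := by
          rw [Nat.pow_mod, Nat.pow_mod t1]
          have h6 : z1 % 4 < 4 := Nat.mod_lt _ (by norm_num)
          have h7 : t1 % 4 < 4 := Nat.mod_lt _ (by norm_num)
          have h8 : z1 % 4 % 2 = t1 % 4 % 2 := by omega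
          generalize z1 % 4 = u at h6 h8 ⊢
          generalize t1 % 4 = v at h7 h8 ⊢
          interval_cases u <;> interval_cases v <;> simp_all
        omega
      have hy2 : ¬ 2 ∣ y := by
        intro h5
        have h6 : 2 ∣ Nat.gcd (2 * x1) y := Nat.dvd_gcd (Dvd.intro _ rfl) h5
        rw [hxy] at h6
        omega
      have h5 : Nat.Coprime 4 (y ^ 2) := by
        have h6 : Nat.Coprime 2 y := (Nat.Prime.coprime_iff_not_dvd Nat.prime_two).2 hy2
        exact (Nat.Coprime.pow 2 2 h6)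
      have h6 : 4 ∣ h := h5.dvd_of_dvd_mul_right g4
      exact hsq 2 Nat.prime_two h6
    · have hc2 : Nat.Coprime (p ^ 2) 2 := by
        apply Nat.Coprime.pow_left
        exact (Nat.coprime_primes hp Nat.prime_two).2 hp2
      have h5 : p ∣ x := by
        have := (Nat.pow_dvd_pow_iff two_ne_zero).1 (hc2.dvd_of_dvd_mul_left h3)
        exact this
      have h6 : p ^ 2 ∣ h * y ^ 2 := hc2.dvd_of_dvd_mul_left h4
      have h7 : ¬ p ∣ y := by
        intro h8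
        have h9 : p ∣ Nat.gcd x y := Nat.dvd_gcd h5 h8
        rw [hxy] at h9
        exact hp.one_lt.ne' (Nat.dvd_one.1 h9)
      have h8 : Nat.Coprime (p ^ 2) (y ^ 2) :=
        Nat.Coprime.pow 2 2 ((Nat.Prime.coprime_iff_not_dvd hp).2 h7)
      exact hsq p hp (h8.dvd_of_dvd_mul_right h6)
  have hcop : Nat.Coprime z t := Nat.coprime_of_dvd hodd
  have hpar : z % 2 = 1 ∧ t % 2 = 1 := by
    have h6 : ∀ x : ℕ, x ^ 2 % 2 = x % 2 := by
      intro x
      rw [Nat.pow_mod]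
      rcases Nat.mod_two_eq_zero_or_one x with h | h <;> rw [h]
    have h7 := h6 z
    have h8 := h6 t
    have h9 : z % 2 = t % 2 := by omega
    rcases Nat.mod_two_eq_zero_or_one z with h3 | h3
    · exfalso
      exact hodd 2 Nat.prime_two (Nat.dvd_of_mod_eq_zero h3) (Nat.dvd_of_mod_eq_zero (by omega))
    · exact ⟨h3, by omega⟩
  have hy2 : 2 ∣ y := by
    by_contra hy2
    have h1 : ∀ x : ℕ, x % 2 = 1 → x ^ 2 % 8 = 1 := by
      intro x hx
      rw [Nat.pow_mod]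
      have h6 : x % 8 < 8 := Nat.mod_lt _ (by norm_num)
      have h7 : x % 8 % 2 = 1 := by omega
      generalize x % 8 = u at h6 h7 ⊢
      interval_cases u <;> simp_all
    have h2 := h1 z hpar.1
    have h3 := h1 t hpar.2
    have h4 : 4 ∣ h * y ^ 2 := by omega
    have h5 : Nat.Coprime 4 (y ^ 2) := by
      have h6 : Nat.Coprime 2 y := (Nat.Prime.coprime_iff_not_dvd Nat.prime_two).2 hy2
      exact (Nat.Coprime.pow 2 2 h6)
    exact hsq 2 Nat.prime_two (h5.dvd_of_dvd_mul_right h4)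
  obtain ⟨y1, rfl⟩ := hy2
  refine ⟨2 * x * (2 * y1), z, t, ⟨x * y1, by ring⟩, by positivity, ht, hh0, hcop, ?_⟩
  have g1 : z ^ 4 = t ^ 4 + (z ^ 2 + t ^ 2) * (2 * (h * (2 * y1) ^ 2)) := by
    have : z ^ 4 = (z ^ 2) * (z ^ 2) := by ring
    rw [this]
    nlinarith
  rw [g1, f1]
  ring

end Pool.Agent.CNC
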