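import Pool.Agent.CNC.H

/-!
# Pairs of congruent numbers with a given difference: local conditions
-/

set_option autoImplicit false

namespace Pool.Agent.CNC

open Finset

/-- the polynomial `(s ^ 4 - z ^ 4) / (8 e)` at `s = z + 2 e m` -/
def NN (e z m : ℕ) : ℕ := m * (z + e * m) * (z ^ 2 + 2 * e * z * m + 2 * e ^ 2 * m ^ 2)

lemma NN_eq (e z m : ℕ) : 8 * e * NN e z m + z ^ 4 = (z + 2 * e * m) ^ 4 := by
  unfold NN
  ring

lemma Rep.e {h D z t : ℕ} (R : Rep h D z t) : ∃ e : ℕ, D ^ 2 = 8 * e ∧ 2 ∣ e ∧ 0 < e := by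
  obtain ⟨E, hE⟩ := R.hD
  have hE0 : 0 < E := by
    rcases Nat.eq_zero_or_pos E with h0 | h0
    · have := R.D0
      rw [hE, h0] at this
      omega
    · exact h0
  exact ⟨2 * E ^ 2, by rw [hE]; ring, ⟨E ^ 2, rfl⟩, by positivity⟩

/-- the local condition at `2` -/
lemma local_two (e z r : ℕ) (he : 2 ∣ e) (hz : z % 2 = 1) (hr : ¬ 4 ∣ r) :
    ∃ m : ℕ, ∀ m' : ℕ, m' ≡ m [MOD 8] → NN e z m' % 8 = r % 8 := by
  have key : ∀ e z r : ZMod 8, (∃ f : ZMod 8, e = 2 * f) → (∃ f : ZMod 8, z = 2 * f + 1) → (¬ ∃ f : ZMod 8, r = 4 * f) →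
      ∃ m : ZMod 8, m * (z + e * m) * (z ^ 2 + 2 * e * z * m + 2 * e ^ 2 * m ^ 2) = r := by
    decide
  obtain ⟨f, hf⟩ := he
  have hz2 : z = 2 * (z / 2) + 1 := by omega
  obtain ⟨m, hm⟩ := key (e : ZMod 8) z r ⟨f, by rw [hf]; push_cast; ring⟩ ⟨(z / 2 : ℕ), by
    conv_lhs => rw [hz2]
    push_cast
    ring⟩ (by
    rintro ⟨g, hg⟩
    apply hr
    have h1 : ((r : ℕ) : ZMod 8) = ((4 * g.val : ℕ) : ZMod 8) := by
      push_cast
      rw [ZMod.natCast_zmod_val, hg]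
    have h2 : r ≡ 4 * g.val [MOD 8] := (ZMod.natCast_eq_natCast_iff _ _ _).1 h1
    have h3 : r % 8 = (4 * g.val) % 8 := h2
    omega)
  refine ⟨m.val, ?_⟩
  intro m' hm'
  have h1 : ((m' : ℕ) : ZMod 8) = m := by
    have := (ZMod.natCast_eq_natCast_iff _ _ _).2 hm'
    rw [this, ZMod.natCast_zmod_val]
  have h2 : ((NN e z m' : ℕ) : ZMod 8) = (r : ZMod 8) := by
    unfold NN
    push_cast
    rw [h1]
    exact hm
  exact (ZMod.natCast_eq_natCast_iff _ _ _).1 h2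

lemma three_fourth_powers (p : ℕ) (hp : p.Prime) (hp2 : p ≠ 2) (u v : ZMod (p ^ 2)) :
    ∃ x : ZMod (p ^ 2), x ^ 4 ≠ u ∧ x ^ 4 ≠ v := by
  have hp3 : 3 ≤ p := by
    have := hp.two_le
    omega
  have hcast : ∀ n : ℕ, ((n : ℕ) : ZMod (p ^ 2)) = 0 ↔ p ^ 2 ∣ n := fun n => ZMod.natCast_eq_zero_iff n (p ^ 2)
  have hpp : ((p ^ 2 : ℕ) : ZMod (p ^ 2)) = 0 := (hcast _).2 dvd_rfl
  have n01 : (1 : ZMod (p ^ 2)) ≠ 0 := by
    intro h
    have h1 : ((1 : ℕ) : ZMod (p ^ 2)) = 0 := by exact_mod_cast h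
    rw [hcast] at h1
    have := Nat.le_of_dvd one_pos h1
    nlinarith
  have hx : (1 + p : ZMod (p ^ 2)) ^ 4 = 1 + 4 * p := by
    push_cast at hpp
    linear_combination (6 + 4 * (p : ZMod (p ^ 2)) + (p : ZMod (p ^ 2)) ^ 2) * hpp
  have n02 : (1 + p : ZMod (p ^ 2)) ^ 4 ≠ 0 := by
    rw [hx]
    intro h
    have h1 : ((1 + 4 * p : ℕ) : ZMod (p ^ 2)) = 0 := by push_cast; exact h
    rw [hcast] at h1
    have h2 : p ∣ 1 + 4 * p := (Dvd.intro_left _ (by ring : p * p = p ^ 2)).trans h1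
    have h3 : p ∣ 1 := (Nat.dvd_add_iff_left (Dvd.intro_left _ rfl)).2 h2
    have := Nat.le_of_dvd one_pos h3
    omega
  have n12 : (1 + p : ZMod (p ^ 2)) ^ 4 ≠ 1 := by
    rw [hx]
    intro h
    have h1 : ((4 * p : ℕ) : ZMod (p ^ 2)) = 0 := by push_cast; linear_combination h
    rw [hcast, pow_two] at h1
    have h2 : p ∣ 4 := Nat.dvd_of_mul_dvd_mul_right hp.pos h1
    have h3 : p ∣ 2 ^ 2 := by simpa using h2
    have h4 := Nat.le_of_dvd (by norm_num) (hp.dvd_of_dvd_pow h3)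
    omega
  by_contra hcon
  push Not at hcon
  have c0 := hcon 0
  have c1 := hcon 1
  have c2 := hcon (1 + p)
  have e0 : (0 : ZMod (p ^ 2)) ^ 4 = 0 := by ring
  have e1 : (1 : ZMod (p ^ 2)) ^ 4 = 1 := by ring
  rw [e0] at c0
  rw [e1] at c1
  by_cases a0 : 0 = u
  · have b1 := c1 (fun h => n01 (h.trans a0.symm))
    have b2 := c2 (fun h => n02 (h.trans a0.symm))
    exact n12 (b2.trans b1.symm)
  · have b0 := c0 a0
    by_cases a1 : 1 = u
    · have b2 := c2 (fun h => n12 (h.trans a1.symm))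
      exact n02 (b2.trans b0.symm)
    · exact n01 ((c1 a1).trans b0.symm)

/-- the local condition at odd primes -/
lemma local_odd {h D z t e : ℕ} (R : Rep h D z t) (he : D ^ 2 = 8 * e) (p : ℕ) (hp : p.Prime) (hp2 : p ≠ 2) :
    ∃ m : ℕ, ∀ m' : ℕ, m' ≡ m [MOD p ^ 2] → ¬ p ^ 2 ∣ NN e z m' ∧ ¬ p ^ 2 ∣ NN e z m' + h := by
  have hcast : ∀ n : ℕ, ((n : ℕ) : ZMod (p ^ 2)) = 0 ↔ p ^ 2 ∣ n := fun n => ZMod.natCast_eq_zero_iff n (p ^ 2)
  have hc8 : Nat.Coprime (p ^ 2) 8 := by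
    have : Nat.Coprime (p ^ 2) (2 ^ 3) := Nat.Coprime.pow 2 3 ((Nat.coprime_primes hp Nat.prime_two).2 hp2)
    simpa using this
  by_cases hpD : p ∣ D
  · have h1 : p ^ 2 ∣ e := by
      have h2 : p ^ 2 ∣ 8 * e := by
        rw [← he]
        exact pow_dvd_pow_of_dvd hpD 2
      exact hc8.dvd_of_dvd_mul_left h2
    have he0 : ((e : ℕ) : ZMod (p ^ 2)) = 0 := (hcast _).2 h1
    have hpz : ¬ p ∣ z := by
      intro h2
      have h3 : p ∣ t ^ 4 := by
        have h4 : p ∣ D ^ 2 * h := Dvd.dvd.mul_right (dvd_pow hpD two_ne_zero) _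
        rw [Nat.dvd_add_iff_right h4, R.eq]
        exact dvd_pow h2 (by norm_num)
      have h4 := Nat.dvd_gcd h2 (hp.dvd_of_dvd_pow h3)
      rw [R.cop] at h4
      exact hp.one_lt.ne' (Nat.dvd_one.1 h4)
    have hcopz : ∀ k : ℕ, Nat.Coprime (p ^ 2) k → ¬ p ^ 2 ∣ k * z ^ 3 := by
      intro k hk h2
      have h3 : p ^ 2 ∣ z ^ 3 := hk.dvd_of_dvd_mul_left h2
      have h4 : p ∣ z ^ 3 := (Dvd.intro_left _ (by ring : p * p = p ^ 2)).trans h3
      exact hpz (hp.dvd_of_dvd_pow h4)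
    have hN : ∀ m m' : ℕ, m' ≡ m [MOD p ^ 2] → ((NN e z m' : ℕ) : ZMod (p ^ 2)) = ((m * z ^ 3 : ℕ) : ZMod (p ^ 2)) := by
      intro m m' hm
      have h2 := (ZMod.natCast_eq_natCast_iff _ _ _).2 hm
      unfold NN
      push_cast
      rw [he0, h2]
      ring
    by_cases h2 : p ^ 2 ∣ 1 * z ^ 3 + h
    · refine ⟨2, fun m' hm => ⟨?_, ?_⟩⟩
      · rw [← hcast, hN 2 m' hm, hcast]
        exact hcopz 2 (Nat.Coprime.pow_left 2 ((Nat.coprime_primes hp Nat.prime_two).2 hp2))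
      · rw [← hcast]
        push_cast
        rw [hN 2 m' hm]
        intro h3
        have h4 : ((1 * z ^ 3 + h : ℕ) : ZMod (p ^ 2)) = 0 := (hcast _).2 h2
        have h5 : ((1 * z ^ 3 : ℕ) : ZMod (p ^ 2)) = 0 := by
          push_cast at h3 h4 ⊢
          linear_combination h3 - h4
        exact hcopz 1 (Nat.coprime_one_right _) ((hcast _).1 h5)
    · refine ⟨1, fun m' hm => ⟨?_, ?_⟩⟩
      · rw [← hcast, hN 1 m' hm, hcast]
        exact hcopz 1 (Nat.coprime_one_right _)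
      · rw [← hcast]
        push_cast
        rw [hN 1 m' hm]
        intro h3
        apply h2
        rw [← hcast]
        push_cast at h3 ⊢
        exact h3
  · obtain ⟨x, hx1, hx2⟩ := three_fourth_powers p hp hp2 ((z : ZMod (p ^ 2)) ^ 4) ((t : ZMod (p ^ 2)) ^ 4)
    have hce : Nat.Coprime (2 * e) (p ^ 2) := by
      apply Nat.Coprime.pow_right
      rw [Nat.coprime_comm, Nat.Prime.coprime_iff_not_dvd hp]
      intro h1
      apply hpD
      have h2 : p ∣ D ^ 2 := by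
        rw [he]
        have : 8 * e = 4 * (2 * e) := by ring
        rw [this]
        exact Dvd.dvd.mul_left h1 _
      exact hp.dvd_of_dvd_pow h2
    obtain ⟨u, hu⟩ : ∃ u : ZMod (p ^ 2), ((2 * e : ℕ) : ZMod (p ^ 2)) * u = 1 :=
      ⟨_, ZMod.coe_mul_inv_eq_one (2 * e) hce⟩
    have hne : NeZero (p ^ 2) := ⟨pow_ne_zero 2 hp.ne_zero⟩
    obtain ⟨m, hm⟩ : ∃ m : ℕ, (m : ZMod (p ^ 2)) = (x - z) * u := ⟨((x - z) * u).val, ZMod.natCast_zmod_val _⟩
    refine ⟨m, fun m' hm' => ?_⟩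
    have h1 : (m' : ZMod (p ^ 2)) = (x - z) * u := by
      rw [(ZMod.natCast_eq_natCast_iff _ _ _).2 hm', hm]
    have h2 : (z : ZMod (p ^ 2)) + 2 * e * m' = x := by
      rw [h1]
      push_cast at hu
      linear_combination (x - z) * hu
    have h3 : ((8 * e * NN e z m' : ℕ) : ZMod (p ^ 2)) + (z : ZMod (p ^ 2)) ^ 4 = x ^ 4 := by
      have h4 := congrArg (Nat.cast : ℕ → ZMod (p ^ 2)) (NN_eq e z m')
      push_cast at h4
      rw [h2] at h4
      push_cast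
      exact h4
    constructor
    · rw [← hcast]
      intro h4
      apply hx1
      rw [← h3]
      push_cast
      rw [h4]
      ring
    · rw [← hcast]
      intro h4
      apply hx2
      rw [← h3]
      have h5 := congrArg (Nat.cast : ℕ → ZMod (p ^ 2)) R.eq
      rw [he] at h5
      push_cast at h4 h5 ⊢
      linear_combination 8 * (e : ZMod (p ^ 2)) * h4 - h5

/-- all local conditions at the primes `≤ z0` -/
lemma exists_m0 {h D z t e : ℕ} (R : Rep h D z t) (he : D ^ 2 = 8 * e) (he2 : 2 ∣ e) (r z0 : ℕ) (hz0 : 2 ≤ z0)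
    (hr : ¬ 4 ∣ r) :
    ∃ m0 : ℕ, ∀ m : ℕ, m ≡ m0 [MOD 8 * (z0.factorial) ^ 2] → NN e z m % 8 = r % 8 ∧
      ∀ p : ℕ, p.Prime → p ≠ 2 → p ≤ z0 → ¬ p ^ 2 ∣ NN e z m ∧ ¬ p ^ 2 ∣ NN e z m + h := by
  classical
  obtain ⟨m2, hm2⟩ := local_two e z r he2 R.odd.1 hr
  choose! c hc using fun (p : ℕ) (hpp : p.Prime ∧ p ≠ 2) => local_odd R he p hpp.1 hpp.2
  obtain ⟨m0, hm0⟩ := Nat.chineseRemainderOfFinset (fun p => if p = 2 then m2 else c p)
    (fun p => if p = 2 then 8 else p ^ 2) ((Icc 1 z0).filter Nat.Prime) (by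
      intro p hp
      rw [mem_filter] at hp
      have := hp.2.pos
      split_ifs
      · norm_num
      · positivity) (by
      intro p hp q hq hpq
      rw [coe_filter, Set.mem_ofPred_eq] at hp hq
      simp only [Function.onFun]
      split_ifs with h1 h2 h2
      · exact absurd (h1.trans h2.symm) hpq
      · have h3 : Nat.Coprime (2 ^ 3) (q ^ 2) := Nat.Coprime.pow 3 2 ((Nat.coprime_primes Nat.prime_two hq.2).2 (Ne.symm h2))
        simpa using h3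
      · have h3 : Nat.Coprime (p ^ 2) (2 ^ 3) := Nat.Coprime.pow 2 3 ((Nat.coprime_primes hp.2 Nat.prime_two).2 h1)
        simpa using h3
      · exact Nat.Coprime.pow 2 2 ((Nat.coprime_primes hp.2 hq.2).2 hpq))
  refine ⟨m0, fun m hm => ⟨?_, ?_⟩⟩
  · have h1 := hm0 2 (by rw [mem_filter, mem_Icc]; exact ⟨⟨by omega, hz0⟩, Nat.prime_two⟩)
    simp only [if_true] at h1
    exact hm2 m ((hm.of_dvd (Dvd.intro _ rfl)).trans h1)
  · intro p hp hp2 hpz
    have h1 := hm0 p (by rw [mem_filter, mem_Icc]; exact ⟨⟨hp.pos, hpz⟩, hp⟩)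
    simp only [if_neg hp2] at h1
    apply hc p ⟨hp, hp2⟩ m
    refine (hm.of_dvd ?_).trans h1
    apply Dvd.dvd.mul_left
    exact pow_dvd_pow_of_dvd (hp.dvd_factorial.2 hpz) 2

end Pool.Agent.CNC
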