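import Pool.Agent.CNC.D
import Pool.Agent.CNC.I

/-!
# Pairs of congruent numbers with a given difference: windows and values
-/

set_option autoImplicit false

namespace Pool.Agent.CNC

open Finset Filter

/-- the window of indices for the interval `[U ^ 12, U ^ 12 + Y]` -/
theorem window2 (W b B : ℕ) (c : ℝ) (hc0 : 0 ≤ c) (hW : 0 < W) (U Y : ℝ)
    (hU : c + b + 4 * W + 15 * B + 40 ≤ U) (hY1 : 256 * (b + 2) * W * (2 * U ^ 9) ≤ Y) (hY2 : Y ≤ U ^ 12) :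
    ∃ s H T P R : ℕ, Num2 B W b s H T P R ∧ U ^ 2 ≤ P ∧
      2 * (P : ℝ) + R * (B : ℝ) ^ 2 ≤ (4 + 21 * (B : ℝ) ^ 2) * U ^ 2 ∧
      Y / (2 * (256 * (b + 2) * W) * U ^ 9) ≤ H ∧
      ∀ t : ℕ, s + 1 ≤ t → t < s + 1 + H →
        U ^ 12 ≤ ((b + W * t : ℕ) : ℝ) ^ 4 - c ^ 2 ∧ ((b + W * t : ℕ) : ℝ) ^ 4 - c ^ 2 ≤ U ^ 12 + Y := by
  have hW' : (1 : ℝ) ≤ W := by exact_mod_cast hW
  have hb0 : (0 : ℝ) ≤ b := Nat.cast_nonneg b
  have hB0 : (0 : ℝ) ≤ B := Nat.cast_nonneg B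
  have hU40 : 40 ≤ U := by linarith
  have hUc : c ≤ U := by linarith
  have hU0 : 0 < U := by linarith
  have hU1 : 1 ≤ U := by linarith
  obtain ⟨x0, hx1, hx2, hx3⟩ := exists_x0 1 one_pos c (U ^ 12) (by positivity)
  rw [Nat.cast_one, one_mul] at hx2 hx3
  have hx1' : (1 : ℝ) ≤ x0 := by exact_mod_cast hx1
  -- upper bound of `x0`
  have hcU : c ^ 2 ≤ U ^ 2 := pow_le_pow_left₀ hc0 hUc 2
  have hU2 : U ^ 2 ≤ U ^ 12 := pow_le_pow_right₀ hU1 (by norm_num)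
  have hU3 : (40 : ℝ) ≤ U ^ 3 := hU40.trans (le_self_pow₀ hU1 (by norm_num))
  have hup : (x0 : ℝ) ≤ 2 * U ^ 3 := by
    by_contra hcon
    rw [not_le] at hcon
    have h1 : 3 / 2 * U ^ 3 ≤ (x0 : ℝ) - 1 := by linarith
    have h2 : (3 / 2 * U ^ 3) ^ 4 ≤ ((x0 : ℝ) - 1) ^ 4 := pow_le_pow_left₀ (by positivity) h1 4
    have h3 : (3 / 2 * U ^ 3) ^ 4 = 81 / 16 * U ^ 12 := by ring
    rw [h3] at h2
    have h12 : 0 ≤ U ^ 12 := by positivity
    linarith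
  -- lower bound of `x0`
  have hlow : U ^ 3 ≤ x0 := by
    by_contra hcon
    rw [not_le] at hcon
    have h1 : (x0 : ℝ) ^ 4 < (U ^ 3) ^ 4 := pow_lt_pow_left₀ hcon (by positivity) (by norm_num)
    have h4 : (U ^ 3) ^ 4 = U ^ 12 := by ring
    have := sq_nonneg c
    linarith
  have hlow2 : U ^ 2 ≤ x0 := by
    have : U ^ 2 ≤ U ^ 3 := pow_le_pow_right₀ hU1 (by norm_num)
    linarith
  obtain ⟨C1, hC1⟩ : ∃ C1 : ℝ, C1 = 256 * (b + 2) * W := ⟨_, rfl⟩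
  have hC10 : 0 < C1 := by rw [hC1]; positivity
  rw [← hC1] at hY1 ⊢
  obtain ⟨H, hH⟩ : ∃ H : ℕ, H = ⌊Y / (C1 * U ^ 9)⌋₊ := ⟨_, rfl⟩
  have hden : 0 < C1 * U ^ 9 := by positivity
  have hYd : 2 ≤ Y / (C1 * U ^ 9) := by
    rw [le_div_iff₀ hden]
    linarith
  have hY0 : 0 ≤ Y := le_trans (by positivity) hY1
  have hHup : (H : ℝ) ≤ Y / (C1 * U ^ 9) := by
    rw [hH]
    exact Nat.floor_le (by positivity)
  have hHlow : Y / (C1 * U ^ 9) < H + 1 := by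
    rw [hH]
    exact Nat.lt_floor_add_one _
  have hH1 : (1 : ℝ) ≤ H := by
    have h1 : (1 : ℝ) < H := by linarith
    exact h1.le
  have hHY : (H : ℝ) * (C1 * U ^ 9) ≤ Y := by
    rwa [le_div_iff₀ hden] at hHup
  -- `W H` is small compared with `x0`
  have hWH : 256 * ((b : ℝ) + 2) * (W * H) ≤ x0 := by
    have h1 : (H : ℝ) * (C1 * U ^ 9) ≤ U ^ 12 := hHY.trans hY2
    have h2 : (256 * ((b : ℝ) + 2) * (W * H)) * U ^ 9 ≤ U ^ 3 * U ^ 9 := by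
      calc (256 * ((b : ℝ) + 2) * (W * H)) * U ^ 9 = H * (C1 * U ^ 9) := by rw [hC1]; ring
        _ ≤ U ^ 12 := h1
        _ = U ^ 3 * U ^ 9 := by ring
    exact (le_of_mul_le_mul_right h2 (by positivity)).trans hlow
  have hWH1 : 1 ≤ (W : ℝ) * H := by nlinarith
  have hbWH : ((b : ℝ) + 2) * 1 ≤ (b + 2) * (W * H) := mul_le_mul_of_nonneg_left hWH1 (by linarith)
  have hWHb : (W : ℝ) * H ≤ (b + 2) * (W * H) := by nlinarith
  have hx0W : 2 * (1 + (W : ℝ)) ≤ x0 := by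
    have : U ≤ U ^ 2 := le_self_pow₀ hU1 (by norm_num)
    linarith
  have hsum : (b : ℝ) + W + W * H ≤ x0 := by linarith
  obtain ⟨s, hs⟩ : ∃ s : ℕ, s = x0 / W := ⟨_, rfl⟩
  have hs1 : W * s ≤ x0 := by rw [hs]; exact Nat.mul_div_le x0 W
  have hs2 : x0 < W * (s + 1) := by rw [hs]; exact Nat.lt_mul_div_succ x0 hW
  have hs1' : (W : ℝ) * s ≤ x0 := by exact_mod_cast hs1
  have hs2' : (x0 : ℝ) < W * (s + 1) := by exact_mod_cast hs2
  refine ⟨s, H, x0, ⌈U ^ 2⌉₊, ⌈20 * U ^ 2⌉₊, ?_, Nat.le_ceil _, ?_, ?_, ?_⟩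
  · refine ⟨?_, ?_, ?_, ?_⟩
    · have h1 : 15 * (B : ℝ) ≤ (x0 : ℝ) ^ 2 := by
        have h2 : (U ^ 2) ^ 2 ≤ (x0 : ℝ) ^ 2 := pow_le_pow_left₀ (by positivity) hlow2 2
        have h3 : U ≤ (U ^ 2) ^ 2 := by
          calc U ≤ U ^ 4 := le_self_pow₀ hU1 (by norm_num)
            _ = _ := by ring
        linarith
      exact_mod_cast h1
    · have h1 : U ^ 2 ≤ (⌈U ^ 2⌉₊ : ℝ) := Nat.le_ceil _
      have h2 : 20 * U ^ 2 ≤ (⌈20 * U ^ 2⌉₊ : ℝ) := Nat.le_ceil _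
      have h3 : 4 * (x0 : ℝ) ^ 2 + B ≤ (⌈20 * U ^ 2⌉₊ : ℝ) * (⌈U ^ 2⌉₊ : ℝ) ^ 2 := by
        have h4 : (x0 : ℝ) ^ 2 ≤ (2 * U ^ 3) ^ 2 := pow_le_pow_left₀ (by positivity) hup 2
        have h5 : (U ^ 2) ^ 2 ≤ (⌈U ^ 2⌉₊ : ℝ) ^ 2 := pow_le_pow_left₀ (by positivity) h1 2
        have h6 : 20 * U ^ 2 * (U ^ 2) ^ 2 ≤ (⌈20 * U ^ 2⌉₊ : ℝ) * (⌈U ^ 2⌉₊ : ℝ) ^ 2 :=
          mul_le_mul h2 h5 (by positivity) (by positivity)
        have h7 : (B : ℝ) ≤ U ^ 6 := by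
          have : U ≤ U ^ 6 := le_self_pow₀ hU1 (by norm_num)
          linarith
        have h8 : 20 * U ^ 2 * (U ^ 2) ^ 2 = 20 * U ^ 6 := by ring
        have h9 : (2 * U ^ 3) ^ 2 = 4 * U ^ 6 := by ring
        rw [h8] at h6
        rw [h9] at h4
        have h10 : 0 ≤ U ^ 6 := by positivity
        linarith
      exact_mod_cast h3
    · omega
    · have h1 : (b : ℝ) + W * (s + 1 + H) ≤ 2 * x0 := by nlinarith
      exact_mod_cast h1
  · have h1 : (⌈U ^ 2⌉₊ : ℝ) ≤ 2 * U ^ 2 := by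
      have := Nat.ceil_lt_add_one (show 0 ≤ U ^ 2 by positivity)
      nlinarith
    have h2 : (⌈20 * U ^ 2⌉₊ : ℝ) ≤ 21 * U ^ 2 := by
      have := Nat.ceil_lt_add_one (show 0 ≤ 20 * U ^ 2 by positivity)
      nlinarith
    have h3 : (⌈20 * U ^ 2⌉₊ : ℝ) * (B : ℝ) ^ 2 ≤ 21 * U ^ 2 * (B : ℝ) ^ 2 :=
      mul_le_mul_of_nonneg_right h2 (sq_nonneg _)
    linarith
  · have h1 : Y / (2 * C1 * U ^ 9) = Y / (C1 * U ^ 9) / 2 := by
      field_simp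
    rw [h1]
    linarith
  · intro t ht1 ht2
    obtain ⟨x, hx⟩ : ∃ x : ℕ, x = b + W * t := ⟨_, rfl⟩
    have hxr : (x : ℝ) = b + W * t := by rw [hx]; push_cast; ring
    rw [← hx]
    have ht1' : (s : ℝ) + 1 ≤ t := by exact_mod_cast ht1
    have ht2' : (t : ℝ) + 1 ≤ s + 1 + H := by exact_mod_cast ht2
    have hxlow : (x0 : ℝ) ≤ x := by
      rw [hxr]
      nlinarith
    have hxup : (x : ℝ) ≤ b + x0 + W * H := by
      rw [hxr]
      nlinarith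
    have hx4 : (x : ℝ) ≤ 4 * U ^ 3 := by linarith
    constructor
    · refine hx2.trans ?_
      have := pow_le_pow_left₀ (by positivity) hxlow 4
      linarith
    · obtain ⟨y, hy⟩ : ∃ y : ℝ, y = (x0 : ℝ) - 1 := ⟨_, rfl⟩
      rw [← hy] at hx3
      have hy0 : 0 ≤ y := by rw [hy]; linarith
      have hyx : y ≤ x := by rw [hy]; linarith
      have h1 : (x : ℝ) ^ 4 - y ^ 4 ≤ 4 * (x - y) * (x : ℝ) ^ 3 := by
        have e : (x : ℝ) ^ 4 - y ^ 4 = (x - y) * ((x : ℝ) ^ 3 + x ^ 2 * y + x * y ^ 2 + y ^ 3) := by ring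
        rw [e]
        have hx0' : (0 : ℝ) ≤ x := Nat.cast_nonneg x
        have e1 : (x : ℝ) ^ 2 * y ≤ x ^ 3 := by
          calc (x : ℝ) ^ 2 * y ≤ x ^ 2 * x := mul_le_mul_of_nonneg_left hyx (by positivity)
            _ = x ^ 3 := by ring
        have e2 : (x : ℝ) * y ^ 2 ≤ x ^ 3 := by
          calc (x : ℝ) * y ^ 2 ≤ x * x ^ 2 := mul_le_mul_of_nonneg_left (pow_le_pow_left₀ hy0 hyx 2) (by positivity)
            _ = x ^ 3 := by ring
        have e3 : y ^ 3 ≤ (x : ℝ) ^ 3 := pow_le_pow_left₀ hy0 hyx 3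
        have e4 : (x : ℝ) ^ 3 + x ^ 2 * y + x * y ^ 2 + y ^ 3 ≤ 4 * x ^ 3 := by linarith
        calc (x - y) * ((x : ℝ) ^ 3 + x ^ 2 * y + x * y ^ 2 + y ^ 3) ≤ (x - y) * (4 * x ^ 3) :=
              mul_le_mul_of_nonneg_left e4 (by linarith)
          _ = _ := by ring
      have h2 : (x : ℝ) - y ≤ (b + 2) * (W * H) := by
        rw [hy]
        have h5 : ((b : ℝ) + 1) * 1 ≤ (b + 1) * (W * H) := mul_le_mul_of_nonneg_left hWH1 (by linarith)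
        linarith
      have h3 : (x : ℝ) ^ 3 ≤ 64 * U ^ 9 := by
        calc (x : ℝ) ^ 3 ≤ (4 * U ^ 3) ^ 3 := pow_le_pow_left₀ (Nat.cast_nonneg x) hx4 3
          _ = _ := by ring
      have h4 : 4 * (x - y) * (x : ℝ) ^ 3 ≤ 4 * ((b + 2) * (W * H)) * (64 * U ^ 9) := by
        apply mul_le_mul _ h3 (by positivity) (by positivity)
        linarith
      have h5 : 4 * (((b : ℝ) + 2) * (W * H)) * (64 * U ^ 9) ≤ Y := by
        calc 4 * (((b : ℝ) + 2) * (W * H)) * (64 * U ^ 9) = H * (C1 * U ^ 9) := by rw [hC1]; ring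
          _ ≤ Y := hHY
      linarith

/-- the parameters of a pair -/
structure Par (h D z t e r z0 m0 W b : ℕ) : Prop where
  R : Rep h D z t
  he : D ^ 2 = 8 * e
  he2 : 2 ∣ e
  e0 : 0 < e
  hr : ¬ 4 ∣ r
  hrh : ¬ 4 ∣ r + h
  hz0 : 32 + D + z + t + e ≤ z0
  hm0 : ∀ m : ℕ, m ≡ m0 [MOD 8 * (z0.factorial) ^ 2] → NN e z m % 8 = r % 8 ∧
      ∀ p : ℕ, p.Prime → p ≠ 2 → p ≤ z0 → ¬ p ^ 2 ∣ NN e z m ∧ ¬ p ^ 2 ∣ NN e z m + h
  hW : W = 2 * e * (8 * (z0.factorial) ^ 2)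
  hb : b = z + 2 * e * m0

lemma exists_par (h : ℕ) (hs : Squarefree h) (hc : CongE h) (r : ℕ) (hr : ¬ 4 ∣ r) (hrh : ¬ 4 ∣ r + h) :
    ∃ D z t e z0 m0 W b : ℕ, Par h D z t e r z0 m0 W b := by
  obtain ⟨D, z, t, R⟩ := rep_of_cong h hs hc
  obtain ⟨e, he, he2, he0⟩ := R.e
  obtain ⟨m0, hm0⟩ := exists_m0 R he he2 r (32 + D + z + t + e) (by omega) hr
  exact ⟨D, z, t, e, _, m0, _, _, R, he, he2, he0, hr, hrh, le_rfl, hm0, rfl, rfl⟩

/-- the shifts -/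
def Aset (z t : ℕ) : Finset ℤ := {(z : ℤ) ^ 2, -(z : ℤ) ^ 2, (t : ℤ) ^ 2, -(t : ℤ) ^ 2}

lemma Aset_card (z t : ℕ) : (Aset z t).card ≤ 4 := by
  unfold Aset
  exact Finset.card_le_four

section

variable {h D z t e r z0 m0 W b : ℕ} (Q : Par h D z t e r z0 m0 W b)

include Q in
lemma Par.z_pos : 0 < z := by
  rcases Nat.eq_zero_or_pos z with h0 | h0
  · have := Q.R.odd.1
    rw [h0] at this
    omega
  · exact h0

include Q in
lemma Par.lt : t < z := by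
  have h1 := Q.R.eq
  have h2 : 0 < D ^ 2 * h := by
    have := Q.R.D0
    have := Q.R.h0
    positivity
  exact lt_of_pow_lt_pow_left₀ 4 (by omega) (by omega)

include Q in
lemma Par.W_pos : 0 < W := by
  rw [Q.hW]
  have := Q.e0
  have := Nat.factorial_pos z0
  positivity

include Q in
lemma Par.pW {p : ℕ} (hp : p.Prime) : p ∣ W ↔ p ≤ z0 := by
  have hz := Q.hz0
  constructor
  · intro h1
    rw [Q.hW] at h1
    rcases hp.dvd_mul.1 h1 with h2 | h2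
    · rcases hp.dvd_mul.1 h2 with h3 | h3
      · have := Nat.le_of_dvd (by norm_num) h3
        omega
      · have := Nat.le_of_dvd Q.e0 h3
        omega
    · rcases hp.dvd_mul.1 h2 with h3 | h3
      · have := Nat.le_of_dvd (by norm_num) h3
        omega
      · exact (hp.dvd_factorial).1 (hp.dvd_of_dvd_pow h3)
  · intro h1
    rw [Q.hW]
    apply Dvd.dvd.mul_left
    apply Dvd.dvd.mul_left
    exact dvd_pow (hp.dvd_factorial.2 h1) two_ne_zero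

include Q in
lemma Par.sh : Sh (Aset z t) (z ^ 2) W z0 where
  ne := by
    intro a ha
    have hz := Q.z_pos
    have ht := Q.R.t0
    have hz' : (z : ℤ) ≠ 0 := by exact_mod_cast hz.ne'
    have ht' : (t : ℤ) ≠ 0 := by exact_mod_cast ht.ne'
    unfold Aset at ha
    simp only [mem_insert, mem_singleton] at ha
    rcases ha with rfl | rfl | rfl | rfl
    · positivity
    · exact neg_ne_zero.2 (pow_ne_zero 2 hz')
    · positivity
    · exact neg_ne_zero.2 (pow_ne_zero 2 ht')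
  le := by
    intro a ha
    have h1 : t ^ 2 ≤ z ^ 2 := Nat.pow_le_pow_left Q.lt.le 2
    unfold Aset at ha
    simp only [mem_insert, mem_singleton] at ha
    rcases ha with rfl | rfl | rfl | rfl
    · simp [Int.natAbs_pow]
    · simp [Int.natAbs_pow]
    · simpa [Int.natAbs_pow] using h1
    · simpa [Int.natAbs_pow] using h1
  pr := by
    intro p hp hpz
    refine ⟨fun h1 => ?_, ?_⟩
    · have := (Q.pW hp).1 h1
      omega
    · intro a ha h1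
      have hz := Q.hz0
      have hpi : Prime (p : ℤ) := Nat.prime_iff_prime_int.mp hp
      have key : ∀ x : ℕ, 0 < x → x ≤ z0 → ¬ (p : ℤ) ∣ (x : ℤ) ^ 2 := by
        intro x hx hxz h2
        have h3 := hpi.dvd_of_dvd_pow h2
        have h4 : p ∣ x := by exact_mod_cast h3
        have := Nat.le_of_dvd hx h4
        omega
      unfold Aset at ha
      simp only [mem_insert, mem_singleton] at ha
      rcases ha with rfl | rfl | rfl | rfl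
      · exact key z Q.z_pos (by omega) h1
      · exact key z Q.z_pos (by omega) ((dvd_neg).1 h1)
      · exact key t Q.R.t0 (by omega) h1
      · exact key t Q.R.t0 (by omega) ((dvd_neg).1 h1)

/-- no large square divides `s⁴ - w⁴` -/
lemma no_large {p zs W b τ w : ℕ} {A : Finset ℤ} (hp : p.Prime) (hpW : ¬ p ∣ W) (hw : 0 < w) (hwp : w < p) (hp2 : 2 < p)
    (hA1 : (w : ℤ) ^ 2 ∈ A) (hA2 : -(w : ℤ) ^ 2 ∈ A) (hlow : Low2 W b A zs τ) (hhigh : High2 W b A zs τ)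
    {n c : ℕ} (hn : c * n + w ^ 4 = (b + W * τ) ^ 4) :
    ¬ p ^ 2 ∣ n ∧ (p ∣ n → zs < p) := by
  have hpi : Prime (p : ℤ) := Nat.prime_iff_prime_int.mp hp
  obtain ⟨s, hs⟩ : ∃ s : ℤ, s = (b + W * τ : ℤ) := ⟨_, rfl⟩
  have h1 : (c : ℤ) * n = (s ^ 2 + (w : ℤ) ^ 2) * (s ^ 2 + (-(w : ℤ) ^ 2)) := by
    have h2 : (c : ℤ) * n + (w : ℤ) ^ 4 = s ^ 4 := by rw [hs]; exact_mod_cast hn
    linear_combination h2
  have g1 : Gv W b ((w : ℤ) ^ 2) τ = s ^ 2 + (w : ℤ) ^ 2 := by rw [hs]; rfl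
  have g2 : Gv W b (-(w : ℤ) ^ 2) τ = s ^ 2 + (-(w : ℤ) ^ 2) := by rw [hs]; rfl
  have hd : p ∣ n → zs < p := by
    intro h2
    by_contra h3
    rw [not_lt] at h3
    have h4 : (p : ℤ) ∣ (s ^ 2 + (w : ℤ) ^ 2) * (s ^ 2 + (-(w : ℤ) ^ 2)) := by
      rw [← h1]
      exact Dvd.dvd.mul_left (by exact_mod_cast h2) _
    rcases hpi.dvd_or_dvd h4 with h5 | h5
    · exact hlow _ hA1 p hp h3 hpW (by rw [g1]; exact h5)
    · exact hlow _ hA2 p hp h3 hpW (by rw [g2]; exact h5)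
  refine ⟨?_, hd⟩
  intro h2
  have h3 : zs < p := hd ((Dvd.intro_left _ (by ring : p * p = p ^ 2)).trans h2)
  have h4 : (p : ℤ) ^ 2 ∣ (s ^ 2 + (w : ℤ) ^ 2) * (s ^ 2 + (-(w : ℤ) ^ 2)) := by
    rw [← h1]
    exact Dvd.dvd.mul_left (by exact_mod_cast h2) _
  by_cases h5 : (p : ℤ) ∣ s ^ 2 + (w : ℤ) ^ 2
  · have h6 : ¬ (p : ℤ) ∣ s ^ 2 + (-(w : ℤ) ^ 2) := by
      intro h7
      have h8 : (p : ℤ) ∣ 2 * (w : ℤ) ^ 2 := by
        have := dvd_sub h5 h7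
        have e : s ^ 2 + (w : ℤ) ^ 2 - (s ^ 2 + (-(w : ℤ) ^ 2)) = 2 * (w : ℤ) ^ 2 := by ring
        rwa [e] at this
      rcases hpi.dvd_or_dvd h8 with h9 | h9
      · have h10 : p ∣ 2 := by exact_mod_cast h9
        have := Nat.le_of_dvd (by norm_num) h10
        omega
      · have h10 : p ∣ w := by exact_mod_cast hpi.dvd_of_dvd_pow h9
        have := Nat.le_of_dvd hw h10
        omega
    have h7 : IsCoprime ((p : ℤ) ^ 2) (s ^ 2 + (-(w : ℤ) ^ 2)) :=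
      IsCoprime.pow_left ((hpi.coprime_iff_not_dvd).2 h6)
    have h8 := h7.dvd_of_dvd_mul_right h4
    exact hhigh _ hA1 p hp h3 (by rw [g1]; exact h8)
  · have h7 : IsCoprime ((p : ℤ) ^ 2) (s ^ 2 + (w : ℤ) ^ 2) :=
      IsCoprime.pow_left ((hpi.coprime_iff_not_dvd).2 h5)
    have h8 := h7.dvd_of_dvd_mul_left h4
    exact hhigh _ hA2 p hp h3 (by rw [g2]; exact h8)

include Q in
/-- the pair at a good index -/
lemma Par.good {zs τ : ℕ} (hlow : Low2 W b (Aset z t) zs τ) (hhigh : High2 W b (Aset z t) zs τ) :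
    ∃ n : ℕ, D ^ 2 * n + z ^ 4 = (b + W * τ) ^ 4 ∧ n % 8 = r % 8 ∧ Squarefree n ∧ Squarefree (n + h) ∧
      CongE n ∧ CongE (n + h) ∧ ∀ p : ℕ, p.Prime → z0 < p → (p ∣ n → zs < p) ∧ (p ∣ n + h → zs < p) := by
  obtain ⟨m, hm⟩ : ∃ m, m = m0 + (8 * (z0.factorial) ^ 2) * τ := ⟨_, rfl⟩
  have hmod : m ≡ m0 [MOD 8 * (z0.factorial) ^ 2] := by
    rw [hm]
    exact Nat.add_mul_mod_self_left _ _ _
  have hs : b + W * τ = z + 2 * e * m := by
    rw [Q.hb, Q.hW, hm]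
    ring
  obtain ⟨h1, h2⟩ := Q.hm0 m hmod
  obtain ⟨n, hn⟩ : ∃ n, n = NN e z m := ⟨_, rfl⟩
  rw [← hn] at h1 h2
  have hz := Q.hz0
  have hr := Q.hr
  have hrh := Q.hrh
  have e1 : D ^ 2 * n + z ^ 4 = (b + W * τ) ^ 4 := by
    rw [hs, Q.he, hn]
    exact NN_eq e z m
  have e2 : D ^ 2 * (n + h) + t ^ 4 = (b + W * τ) ^ 4 := by
    rw [← e1, ← Q.R.eq]
    ring
  have hn0 : 0 < n := by
    rcases Nat.eq_zero_or_pos n with h0 | h0
    · rw [h0] at h1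
      omega
    · exact h0
  have mem1 : (z : ℤ) ^ 2 ∈ Aset z t := by unfold Aset; simp
  have mem2 : -(z : ℤ) ^ 2 ∈ Aset z t := by unfold Aset; simp
  have mem3 : (t : ℤ) ^ 2 ∈ Aset z t := by unfold Aset; simp
  have mem4 : -(t : ℤ) ^ 2 ∈ Aset z t := by unfold Aset; simp
  have big1 : ∀ p : ℕ, p.Prime → z0 < p → ¬ p ^ 2 ∣ n ∧ (p ∣ n → zs < p) := fun p hp hpz =>
    no_large hp (fun h3 => by have := (Q.pW hp).1 h3; omega) Q.z_pos (by omega) (by omega) mem1 mem2 hlow hhigh e1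
  have big2 : ∀ p : ℕ, p.Prime → z0 < p → ¬ p ^ 2 ∣ n + h ∧ (p ∣ n + h → zs < p) := fun p hp hpz =>
    no_large hp (fun h3 => by have := (Q.pW hp).1 h3; omega) Q.R.t0 (by omega) (by omega) mem3 mem4 hlow hhigh e2
  refine ⟨n, e1, h1, ?_, ?_, congE_of n D z _ hn0 Q.R.D0 Q.z_pos e1,
    congE_of (n + h) D t _ (by omega) Q.R.D0 Q.R.t0 e2, fun p hp hpz => ⟨(big1 p hp hpz).2, (big2 p hp hpz).2⟩⟩
  · rw [Nat.squarefree_iff_prime_squarefree]
    intro p hp h3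
    by_cases hp2 : p = 2
    · rw [hp2] at h3
      omega
    · by_cases hpz : p ≤ z0
      · exact (h2 p hp hp2 hpz).1 (by rw [pow_two]; exact h3)
      · exact (big1 p hp (by omega)).1 (by rw [pow_two]; exact h3)
  · rw [Nat.squarefree_iff_prime_squarefree]
    intro p hp h3
    by_cases hp2 : p = 2
    · rw [hp2] at h3
      omega
    · by_cases hpz : p ≤ z0
      · exact (h2 p hp hp2 hpz).2 (by rw [pow_two]; exact h3)
      · exact (big2 p hp (by omega)).1 (by rw [pow_two]; exact h3)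

end

end Pool.Agent.CNC
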