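import Pool.Agent.CNC.E
import Pool.Agent.CNC.J

/-!
# Pairs of congruent numbers with a given difference: counting
-/

set_option autoImplicit false

namespace Pool.Agent.CNC

open Finset Filter

/-- `n` and `n + h` are squarefree congruent numbers, `n` lies in the class `r` modulo `8`, and the primes
above `z0` which divide `n (n + h)` are larger than `zs` -/
def PairP (h r z0 zs n : ℕ) : Prop :=
  n % 8 = r % 8 ∧ Squarefree n ∧ Squarefree (n + h) ∧ CongE n ∧ CongE (n + h) ∧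
    ∀ p : ℕ, p.Prime → z0 < p → (p ∣ n → zs < p) ∧ (p ∣ n + h → zs < p)

section

variable {h D z t e r z0 m0 W b : ℕ} (Q : Par h D z t e r z0 m0 W b)

open Classical in
include Q in
/-- from the indices to the numbers -/
theorem Par.transfer (zs s H : ℕ) (X Y : ℝ)
    (hX : ∀ τ : ℕ, s + 1 ≤ τ → τ < s + 1 + H →
        X ≤ ((b + W * τ : ℕ) : ℝ) ^ 4 - ((z : ℝ) ^ 2) ^ 2 ∧ ((b + W * τ : ℕ) : ℝ) ^ 4 - ((z : ℝ) ^ 2) ^ 2 ≤ X + Y) :
    (((Ico (s + 1) (s + 1 + H)).filter (fun τ => Low2 W b (Aset z t) zs τ ∧ High2 W b (Aset z t) zs τ)).card : ℝ) ≤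
      ({n : ℕ | X ≤ (D : ℝ) ^ 2 * n ∧ (D : ℝ) ^ 2 * n ≤ X + Y ∧ PairP h r z0 zs n}.ncard : ℝ) := by
  obtain ⟨G, hG⟩ : ∃ G, G = (Ico (s + 1) (s + 1 + H)).filter
    (fun τ => Low2 W b (Aset z t) zs τ ∧ High2 W b (Aset z t) zs τ) := ⟨_, rfl⟩
  rw [← hG]
  have hmem : ∀ τ ∈ G, (X ≤ ((b + W * τ : ℕ) : ℝ) ^ 4 - ((z : ℝ) ^ 2) ^ 2 ∧
      ((b + W * τ : ℕ) : ℝ) ^ 4 - ((z : ℝ) ^ 2) ^ 2 ≤ X + Y) ∧
      Low2 W b (Aset z t) zs τ ∧ High2 W b (Aset z t) zs τ := by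
    intro τ hτ
    rw [hG, mem_filter, mem_Ico] at hτ
    exact ⟨hX τ hτ.1.1 hτ.1.2, hτ.2⟩
  choose! f hf using fun (τ : ℕ) (hτ : τ ∈ G) => Q.good (hmem τ hτ).2.1 (hmem τ hτ).2.2
  have hW0 := Q.W_pos
  have hinj : Set.InjOn f (G : Set ℕ) := by
    intro x hx y hy hxy
    have h1 := (hf x hx).1
    have h2 := (hf y hy).1
    rw [hxy, h2] at h1
    have h3 : b + W * y = b + W * x := (pow_left_inj₀ (by omega) (by omega) (by norm_num)).1 h1
    exact (Nat.eq_of_mul_eq_mul_left hW0 (by omega)).symm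
  rw [← card_image_of_injOn hinj, ← Set.ncard_coe_finset]
  have hD1 : (1 : ℝ) ≤ (D : ℝ) ^ 2 := by
    have : (1 : ℝ) ≤ D := by exact_mod_cast Q.R.D0
    exact one_le_pow₀ this
  have hfin : {n : ℕ | X ≤ (D : ℝ) ^ 2 * n ∧ (D : ℝ) ^ 2 * n ≤ X + Y ∧ PairP h r z0 zs n}.Finite := by
    apply (Set.finite_le_nat ⌊X + Y⌋₊).subset
    intro n hn
    apply Nat.le_floor
    refine le_trans ?_ hn.2.1
    have : (0 : ℝ) ≤ n := Nat.cast_nonneg n
    nlinarith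
  have hsub : ((G.image f : Finset ℕ) : Set ℕ) ⊆
      {n : ℕ | X ≤ (D : ℝ) ^ 2 * n ∧ (D : ℝ) ^ 2 * n ≤ X + Y ∧ PairP h r z0 zs n} := by
    intro n hn
    rw [coe_image] at hn
    obtain ⟨τ, hτ, rfl⟩ := hn
    obtain ⟨⟨h1, h2⟩, -⟩ := hmem τ hτ
    obtain ⟨h3, h4⟩ := hf τ hτ
    have h5 : (D : ℝ) ^ 2 * (f τ : ℕ) + (z : ℝ) ^ 4 = ((b + W * τ : ℕ) : ℝ) ^ 4 := by exact_mod_cast h3
    have h6 : ((z : ℝ) ^ 2) ^ 2 = (z : ℝ) ^ 4 := by ring
    rw [h6] at h1 h2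
    exact ⟨by linarith, by linarith, h4⟩
  exact_mod_cast Set.ncard_le_ncard hsub hfin

include Q in
/-- **positive proportion** -/
theorem Par.pos : ∃ C c U0 : ℝ, 0 < c ∧ ∀ U : ℝ, U0 ≤ U → ∀ Y : ℝ, C * U ^ 11 ≤ Y → Y ≤ U ^ 12 →
      c * (Y / U ^ 9) ≤ ({n : ℕ | U ^ 12 ≤ (D : ℝ) ^ 2 * n ∧ (D : ℝ) ^ 2 * n ≤ U ^ 12 + Y ∧
        PairP h r z0 z0 n}.ncard : ℝ) := by
  classical
  have hW0 := Q.W_pos
  have hW' : (1 : ℝ) ≤ W := by exact_mod_cast hW0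
  have hz0 := Q.hz0
  have hb0 : (0 : ℝ) ≤ b := Nat.cast_nonneg b
  obtain ⟨B, hB⟩ : ∃ B : ℕ, B = z ^ 2 := ⟨_, rfl⟩
  have hB0 : (0 : ℝ) ≤ B := Nat.cast_nonneg B
  obtain ⟨q, hq⟩ : ∃ q : ℝ, q = 4 + 21 * (B : ℝ) ^ 2 := ⟨_, rfl⟩
  have hq0 : 4 ≤ q := by rw [hq]; linarith [sq_nonneg (B : ℝ)]
  obtain ⟨C1, hC1⟩ : ∃ C1 : ℝ, C1 = 256 * (b + 2) * W := ⟨_, rfl⟩
  have hC10 : 1 ≤ C1 := by rw [hC1]; nlinarith
  refine ⟨32 * C1 * q, 1 / (4 * C1), (z : ℝ) ^ 2 + b + 4 * W + 15 * B + 40 + z0, by positivity, ?_⟩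
  intro U hU Y hY1 hY2
  have hz0' : (0 : ℝ) ≤ z0 := Nat.cast_nonneg _
  have hU40 : 40 ≤ U := by
    have := sq_nonneg (z : ℝ)
    linarith
  have hUp : 0 < U := by linarith
  have hY1' : C1 * (2 * U ^ 9) ≤ Y := by
    refine le_trans ?_ hY1
    have h1 : 1 ≤ U ^ 2 := one_le_pow₀ (by linarith)
    have h2 : 2 ≤ 32 * q * U ^ 2 := by nlinarith
    calc C1 * (2 * U ^ 9) ≤ C1 * ((32 * q * U ^ 2) * U ^ 9) := by
          apply mul_le_mul_of_nonneg_left _ (by linarith)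
          exact mul_le_mul_of_nonneg_right h2 (by positivity)
      _ = _ := by ring
  obtain ⟨s, H, T, P, R, h1, h2, h3, h4, h5⟩ := window2 W b B ((z : ℝ) ^ 2) (by positivity) hW0 U Y
    (by linarith) (by rw [← hC1]; exact hY1') hY2
  rw [← hq] at h3
  rw [← hC1] at h4
  have hcard : ((Aset z t).card : ℝ) ≤ 4 := by exact_mod_cast Aset_card z t
  have hcard0 : (0 : ℝ) ≤ ((Aset z t).card : ℝ) := Nat.cast_nonneg _
  have hH : ((Aset z t).card : ℝ) * (2 * P + R * (B : ℝ) ^ 2) ≤ (H : ℝ) / 4 := by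
    have h6 : ((Aset z t).card : ℝ) * (2 * P + R * (B : ℝ) ^ 2) ≤ 4 * (q * U ^ 2) :=
      mul_le_mul hcard h3 (by positivity) (by norm_num)
    have h7 : 16 * (q * U ^ 2) ≤ Y / (2 * C1 * U ^ 9) := by
      rw [le_div_iff₀ (by positivity)]
      calc 16 * (q * U ^ 2) * (2 * C1 * U ^ 9) = 32 * C1 * q * U ^ 11 := by ring
        _ ≤ Y := hY1
    linarith
  have hzP : z0 ≤ P := by
    have h6 : (z0 : ℝ) ≤ P := by
      have : U ≤ U ^ 2 := le_self_pow₀ (by linarith) (by norm_num)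
      have := sq_nonneg (z : ℝ)
      linarith
    exact_mod_cast h6
  have hsh := Q.sh
  rw [← hB] at hsh
  have h8 := count_pos2 (Aset z t) B W b z0 hW0 hsh (by have := Aset_card z t; omega) (by omega)
    s H T P R hzP h1 hH
  have h9 := Q.transfer z0 s H (U ^ 12) Y h5
  refine le_trans ?_ (h8.trans ?_ |>.trans h9)
  · have h10 : 1 / (4 * C1) * (Y / U ^ 9) = Y / (2 * C1 * U ^ 9) / 2 := by
      field_simp
      ring
    rw [h10]
    linarith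
  · have : (Ico (s + 1) (s + 1 + H)).filter (fun τ => High2 W b (Aset z t) z0 τ) ⊆
        (Ico (s + 1) (s + 1 + H)).filter (fun τ => Low2 W b (Aset z t) z0 τ ∧ High2 W b (Aset z t) z0 τ) := by
      intro τ hτ
      rw [mem_filter] at hτ ⊢
      exact ⟨hτ.1, fun a _ p hp hpz hpW => absurd ((Q.pW hp).2 hpz) hpW, hτ.2⟩
    exact_mod_cast card_le_card this

include Q in
/-- **almost primes** -/
theorem Par.ap (ε : ℝ) (hε : 0 < ε) :
    ∃ K : ℕ, 1 ≤ K ∧ ∃ c U0 : ℝ, 0 < c ∧ ∀ U : ℝ, U0 ≤ U → ∀ Y : ℝ, U ^ (11 + ε) ≤ Y → Y ≤ U ^ 12 →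
      c * (Y / (U ^ 9 * Real.log (U ^ 12) ^ 8)) ≤
        ({n : ℕ | U ^ 12 ≤ (D : ℝ) ^ 2 * n ∧ (D : ℝ) ^ 2 * n ≤ U ^ 12 + Y ∧
          PairP h r z0 ⌊U ^ (2 / (K : ℝ))⌋₊ n}.ncard : ℝ) := by
  have hW0 := Q.W_pos
  have hW' : (1 : ℝ) ≤ W := by exact_mod_cast hW0
  have hz00 := Q.hz0
  have hb0 : (0 : ℝ) ≤ b := Nat.cast_nonneg b
  obtain ⟨B, hB⟩ : ∃ B : ℕ, B = z ^ 2 := ⟨_, rfl⟩
  have hB0 : (0 : ℝ) ≤ B := Nat.cast_nonneg B
  obtain ⟨q, hq⟩ : ∃ q : ℝ, q = 4 + 21 * (B : ℝ) ^ 2 := ⟨_, rfl⟩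
  have hq0 : 4 ≤ q := by rw [hq]; linarith [sq_nonneg (B : ℝ)]
  obtain ⟨C1, hC1⟩ : ∃ C1 : ℝ, C1 = 256 * (b + 2) * W := ⟨_, rfl⟩
  have hC10 : 1 ≤ C1 := by rw [hC1]; nlinarith
  obtain ⟨K, z1, hK, hz1, v, hv, hcount⟩ := count_low2 8 (by norm_num)
  have hK' : (1 : ℝ) ≤ K := by exact_mod_cast hK
  have hK0 : 0 < 2 / (K : ℝ) := by positivity
  have e1 := ev_log (2 * C1) ε hε 0
  have e2 := ev_log (64 / v) (2 / (K : ℝ)) hK0 8
  have e3 := ev_log (32 * C1 * q / v) ε hε 8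
  have e4 : ∀ᶠ U : ℝ in atTop, (z0 : ℝ) + z1 + 2 ≤ U ^ (2 / (K : ℝ)) :=
    (tendsto_rpow_atTop hK0).eventually_ge_atTop _
  obtain ⟨U1, hU1⟩ := eventually_atTop.1 ((e1.and e2).and (e3.and e4))
  refine ⟨K, hK, v / (4 * C1), max U1 ((z : ℝ) ^ 2 + b + 4 * W + 15 * B + 40 + z0), by positivity, ?_⟩
  intro U hU Y hY1 hY2
  obtain ⟨⟨f1, f2⟩, f3, f4⟩ := hU1 U ((le_max_left _ _).trans hU)
  have hU' := (le_max_right _ _).trans hU
  have hz0' : (0 : ℝ) ≤ z0 := Nat.cast_nonneg _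
  have hz2 := sq_nonneg (z : ℝ)
  have hU40 : 40 ≤ U := by linarith
  have hUp : 0 < U := by linarith
  have hU1' : 1 ≤ U := by linarith
  rw [pow_zero, mul_one] at f1
  have hsplit : U ^ (11 + ε) = U ^ 11 * U ^ ε := by
    rw [Real.rpow_add hUp]
    congr 1
    exact_mod_cast Real.rpow_natCast U 11
  have hY1' : C1 * (2 * U ^ 9) ≤ Y := by
    refine le_trans ?_ hY1
    rw [hsplit]
    calc C1 * (2 * U ^ 9) = U ^ 9 * (2 * C1) := by ring
      _ ≤ U ^ 11 * U ^ ε := by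
          apply mul_le_mul _ f1 (by positivity) (by positivity)
          exact pow_le_pow_right₀ hU1' (by norm_num)
  obtain ⟨s, H, T, P, R, h1, h2, h3, h4, h5⟩ := window2 W b B ((z : ℝ) ^ 2) (by positivity) hW0 U Y
    (by linarith) (by rw [← hC1]; exact hY1') hY2
  rw [← hq] at h3
  rw [← hC1] at h4
  obtain ⟨zs, hz⟩ : ∃ zs : ℕ, zs = ⌊U ^ (2 / (K : ℝ))⌋₊ := ⟨_, rfl⟩
  rw [← hz]
  have hzup : (zs : ℝ) ≤ U ^ (2 / (K : ℝ)) := by rw [hz]; exact Nat.floor_le (by positivity)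
  have hzlow : U ^ (2 / (K : ℝ)) < zs + 1 := by rw [hz]; exact Nat.lt_floor_add_one _
  have hzz0 : z0 + z1 + 1 ≤ zs := by
    have : (z0 : ℝ) + z1 + 1 < zs + 1 := by linarith
    have h6 : z0 + z1 + 1 < zs + 1 := by exact_mod_cast this
    omega
  have hHlow : U ^ 2 * U ^ ε / (2 * C1) ≤ H := by
    refine le_trans ?_ h4
    rw [div_le_div_iff₀ (by positivity) (by positivity)]
    calc U ^ 2 * U ^ ε * (2 * C1 * U ^ 9) = (U ^ 11 * U ^ ε) * (2 * C1) := by ring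
      _ ≤ Y * (2 * C1) := by
          apply mul_le_mul_of_nonneg_right _ (by positivity)
          rw [← hsplit]
          exact hY1
  have hH2 : U ^ 2 ≤ H := by
    refine le_trans ?_ hHlow
    rw [le_div_iff₀ (by positivity)]
    exact mul_le_mul_of_nonneg_left f1 (by positivity)
  have hU2K : (U ^ (2 / (K : ℝ))) ^ K = U ^ 2 := by
    rw [← Real.rpow_natCast, ← Real.rpow_mul hUp.le]
    have : 2 / (K : ℝ) * K = (2 : ℕ) := by
      push_cast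
      field_simp
    rw [this, Real.rpow_natCast]
  have hzH : zs ^ K ≤ H := by
    have h6 : (zs : ℝ) ^ K ≤ U ^ 2 := by
      rw [← hU2K]
      exact pow_le_pow_left₀ (Nat.cast_nonneg zs) hzup K
    have h7 : ((zs ^ K : ℕ) : ℝ) ≤ H := by
      push_cast
      exact h6.trans hH2
    exact_mod_cast h7
  have hzU2 : (zs : ℝ) ≤ U ^ 2 := by
    refine hzup.trans ?_
    rw [← hU2K]
    exact le_self_pow₀ (by
      have := Real.one_le_rpow hU1' hK0.le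
      exact this) (by omega)
  have hzP : zs ≤ P := by
    have : (zs : ℝ) ≤ P := hzU2.trans h2
    exact_mod_cast this
  have hsh := Q.sh
  rw [← hB] at hsh
  have hcardn := Aset_card z t
  have hcard : ((Aset z t).card : ℝ) ≤ 4 := by exact_mod_cast hcardn
  have hcard0 : (0 : ℝ) ≤ ((Aset z t).card : ℝ) := Nat.cast_nonneg _
  have h6 := hcount (Aset z t) B W b z0 (by omega) hW0 hsh
    (fun p hp hpz => (Q.pW hp).2 (by omega)) zs s H T P R (by omega) (by omega) hzH hzP h1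
  have h7 := Q.transfer zs s H (U ^ 12) Y h5
  refine le_trans ?_ (h6.trans h7)
  -- the main term
  have hz1' : (1 : ℝ) < zs := by
    have : 1 < zs := by omega
    exact_mod_cast this
  have hzs0' : (0 : ℝ) < zs := by linarith
  have hlz : 0 < Real.log zs := Real.log_pos hz1'
  have hU12 : (1 : ℝ) < U ^ 12 := one_lt_pow₀ (by linarith) (by norm_num)
  obtain ⟨L, hL⟩ : ∃ L : ℝ, L = Real.log (U ^ 12) ^ 8 := ⟨_, rfl⟩
  have hL0 : 0 < L := by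
    rw [hL]
    have := Real.log_pos hU12
    positivity
  have hLz : Real.log zs ^ 8 ≤ L := by
    rw [hL]
    apply pow_le_pow_left₀ hlz.le
    apply Real.log_le_log hzs0'
    exact hzU2.trans (pow_le_pow_right₀ hU1' (by norm_num))
  rw [← hL] at f2 f3 ⊢
  have hH0 : (0 : ℝ) < H := lt_of_lt_of_le (by positivity) hH2
  have g1 : v * (H / L) ≤ v * (H / Real.log zs ^ 8) := by
    apply mul_le_mul_of_nonneg_left _ hv.le
    exact div_le_div_of_nonneg_left hH0.le (by positivity) hLz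
  have g2 : ((Aset z t).card : ℝ) * (2 * H / zs) ≤ v * (H / L) / 4 := by
    have h8 : 64 * L ≤ v * (2 * zs) := by
      have h9 : 64 / v * L ≤ 2 * zs := by
        have : (zs : ℝ) + 1 ≤ 2 * zs := by linarith
        linarith
      rw [div_mul_eq_mul_div, div_le_iff₀ hv] at h9
      linarith
    have h9 : ((Aset z t).card : ℝ) * (2 * H / zs) ≤ 4 * (2 * H / zs) :=
      mul_le_mul_of_nonneg_right hcard (by positivity)
    refine h9.trans ?_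
    have h10 : 4 * (2 * (H : ℝ) / zs) = (8 * H) / zs := by ring
    have h11 : v * (H / L) / 4 = (v * H / 4) / L := by ring
    rw [h10, h11, div_le_div_iff₀ hzs0' hL0]
    nlinarith
  have g3 : ((Aset z t).card : ℝ) * (2 * P + R * (B : ℝ) ^ 2) ≤ v * (H / L) / 4 := by
    have h8 : ((Aset z t).card : ℝ) * (2 * P + R * (B : ℝ) ^ 2) ≤ 4 * (q * U ^ 2) :=
      mul_le_mul hcard h3 (by positivity) (by norm_num)
    refine h8.trans ?_
    have h9 : v * (H / L) / 4 = (v * H) / (4 * L) := by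
      field_simp
    rw [h9, le_div_iff₀ (by positivity)]
    have h10 : 32 * C1 * q / v * L ≤ U ^ ε := f3
    rw [div_mul_eq_mul_div, div_le_iff₀ hv] at h10
    have h11 : v * (U ^ 2 * U ^ ε / (2 * C1)) ≤ v * H := mul_le_mul_of_nonneg_left hHlow hv.le
    refine le_trans ?_ h11
    have h12 : v * (U ^ 2 * U ^ ε / (2 * C1)) = U ^ 2 * (U ^ ε * v) / (2 * C1) := by ring
    rw [h12, le_div_iff₀ (by positivity)]
    calc 4 * (q * U ^ 2) * (4 * L) * (2 * C1) = U ^ 2 * (32 * C1 * q * L) := by ring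
      _ ≤ U ^ 2 * (U ^ ε * v) := mul_le_mul_of_nonneg_left h10 (by positivity)
  have g4 : v / (4 * C1) * (Y / (U ^ 9 * L)) ≤ v * (H / L) / 2 := by
    have h8 : v / (4 * C1) * (Y / (U ^ 9 * L)) = v * ((Y / (2 * C1 * U ^ 9)) / L) / 2 := by
      field_simp
      ring
    rw [h8]
    have h9 : (Y / (2 * C1 * U ^ 9)) / L ≤ H / L := div_le_div_of_nonneg_right h4 hL0.le
    have h10 := mul_le_mul_of_nonneg_left h9 hv.le
    linarith
  have g5 : ((Aset z t).card : ℝ) * (2 * H / zs + 2 * P + R * (B : ℝ) ^ 2) =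
      ((Aset z t).card : ℝ) * (2 * H / zs) + ((Aset z t).card : ℝ) * (2 * P + R * (B : ℝ) ^ 2) := by ring
  rw [g5]
  linarith

end

end Pool.Agent.CNC
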