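import Pool.Agent.CNC.K

/-!
# Pairs of congruent numbers with a given difference: final form
-/

set_option autoImplicit false

namespace Pool.Agent.CNC

open Finset Filter

lemma ap_of (K : ℕ) (hK : 1 ≤ K) (U X : ℝ) (hU1 : 1 < U) (hX0 : 0 ≤ X) (hX : X ≤ U ^ 12) (q : ℕ) (hq0 : q ≠ 0)
    (hq : (q : ℝ) ≤ U ^ 13) (hp : ∀ p : ℕ, p.Prime → p ∣ q → ⌊U ^ (2 / (K : ℝ))⌋₊ < p) : AP (7 * K) X q := by
  have hU0 : (0 : ℝ) < U := by linarith
  have hK' : (1 : ℝ) ≤ K := by exact_mod_cast hK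
  obtain ⟨z, hz⟩ : ∃ z : ℕ, z = ⌊U ^ (2 / (K : ℝ))⌋₊ := ⟨_, rfl⟩
  rw [← hz] at hp
  have hz1 : U ^ (2 / (K : ℝ)) < z + 1 := by rw [hz]; exact Nat.lt_floor_add_one _
  constructor
  · have h1 := pow_len q (z + 1) hq0 (fun p hpp hpd => hp p hpp hpd)
    have h3 : (((z + 1) ^ q.primeFactorsList.length : ℕ) : ℝ) ≤ U ^ 13 := by
      have : (((z + 1) ^ q.primeFactorsList.length : ℕ) : ℝ) ≤ q := by exact_mod_cast h1
      exact this.trans hq
    have h4 : U ^ (2 / (K : ℝ) * q.primeFactorsList.length) ≤ U ^ (13 : ℝ) := by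
      rw [Real.rpow_mul hU0.le, Real.rpow_natCast]
      have h5 : (U ^ (2 / (K : ℝ))) ^ q.primeFactorsList.length ≤ ((z : ℝ) + 1) ^ q.primeFactorsList.length :=
        pow_le_pow_left₀ (by positivity) hz1.le _
      push_cast at h3
      have h6 : U ^ (13 : ℝ) = U ^ 13 := by exact_mod_cast Real.rpow_natCast U 13
      rw [h6]
      exact h5.trans h3
    have h5 : 2 / (K : ℝ) * q.primeFactorsList.length ≤ 13 :=
      (Real.rpow_le_rpow_left_iff hU1).1 h4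
    have h6 : 2 * (q.primeFactorsList.length : ℝ) ≤ 13 * K := by
      rw [div_mul_eq_mul_div, div_le_iff₀ (by linarith)] at h5
      exact h5
    have h7 : (q.primeFactorsList.length : ℝ) ≤ ((7 * K : ℕ) : ℝ) := by
      push_cast
      linarith
    exact_mod_cast h7
  · intro p hpp hpd
    have h1 : (z : ℝ) + 1 ≤ p := by
      have := hp p hpp hpd
      exact_mod_cast this
    refine lt_of_le_of_lt ?_ (lt_of_lt_of_le hz1 h1)
    have h2 : (U ^ 12) ^ (1 / ((7 * K : ℕ) : ℝ)) = U ^ (12 / (7 * (K : ℝ))) := by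
      have h12 : U ^ 12 = U ^ (12 : ℝ) := by exact_mod_cast (Real.rpow_natCast U 12).symm
      rw [h12, ← Real.rpow_mul hU0.le]
      congr 1
      push_cast
      field_simp
    refine (Real.rpow_le_rpow hX0 hX (by positivity)).trans ?_
    rw [h2]
    apply Real.rpow_le_rpow_of_exponent_le hU1.le
    rw [div_le_div_iff₀ (by positivity) (by positivity)]
    nlinarith

/-- `n` is a bounded number times an almost prime number -/
def APG (G R : ℕ) (X : ℝ) (n : ℕ) : Prop := ∃ g q : ℕ, n = g * q ∧ g ≤ G ∧ AP R X q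

lemma split_small (n z0 zs : ℕ) (hn : Squarefree n) (h : ∀ p : ℕ, p.Prime → z0 < p → p ∣ n → zs < p) :
    ∃ g q : ℕ, n = g * q ∧ g ≤ z0.factorial ∧ q ≠ 0 ∧ q ≤ n ∧ ∀ p : ℕ, p.Prime → p ∣ q → zs < p := by
  have hn0 : 0 < n := Nat.pos_of_ne_zero (fun h0 => by rw [h0] at hn; exact not_squarefree_zero hn)
  obtain ⟨g, hg⟩ : ∃ g, g = Nat.gcd n z0.factorial := ⟨_, rfl⟩
  have hgn : g ∣ n := by rw [hg]; exact Nat.gcd_dvd_left _ _
  obtain ⟨q, hq⟩ := hgn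
  have hg0 : 0 < g := Nat.pos_of_ne_zero (fun h0 => by rw [h0, zero_mul] at hq; omega)
  have hq0 : 0 < q := Nat.pos_of_ne_zero (fun h0 => by rw [h0, mul_zero] at hq; omega)
  refine ⟨g, q, hq, ?_, hq0.ne', ?_, ?_⟩
  · rw [hg]
    exact Nat.le_of_dvd (Nat.factorial_pos _) (Nat.gcd_dvd_right _ _)
  · rw [hq]
    exact Nat.le_mul_of_pos_left _ hg0
  · intro p hp hpq
    have hpn : p ∣ n := by rw [hq]; exact Dvd.dvd.mul_left hpq _
    by_cases hpz : p ≤ z0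
    · exfalso
      have h1 : p ∣ g := by
        rw [hg]
        exact Nat.dvd_gcd hpn (hp.dvd_factorial.2 hpz)
      have h2 : p * p ∣ n := by
        rw [hq]
        exact mul_dvd_mul h1 hpq
      have h3 := hn p h2
      exact hp.one_lt.ne' (Nat.isUnit_iff.1 h3)
    · exact h p hp (by omega) hpn

/-- **Pairs of squarefree congruent numbers with a given congruent difference.** -/
theorem pairs_main (h : ℕ) (hs : Squarefree h) (hc : CongE h) (r : ℕ) (hr : ¬ 4 ∣ r) (hrh : ¬ 4 ∣ r + h) :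
    (∃ C c X₀ : ℝ, 0 < c ∧ ∀ X Y : ℝ, X₀ ≤ X → C * X ^ (11 / 12 : ℝ) ≤ Y → Y ≤ X →
      c * (Y / X ^ (3 / 4 : ℝ)) ≤ ({n : ℕ | X ≤ n ∧ (n : ℝ) ≤ X + Y ∧ n % 8 = r % 8 ∧
        Squarefree n ∧ Squarefree (n + h) ∧ CongE n ∧ CongE (n + h)}.ncard : ℝ)) ∧
    ∃ G : ℕ, ∀ ε : ℝ, 0 < ε → ∃ R : ℕ, 1 ≤ R ∧ ∃ c X₀ : ℝ, 0 < c ∧ ∀ X Y : ℝ, X₀ ≤ X →
      X ^ (11 / 12 + ε) ≤ Y → Y ≤ X →
        c * (Y / (X ^ (3 / 4 : ℝ) * Real.log X ^ 8)) ≤
          ({n : ℕ | X ≤ n ∧ (n : ℝ) ≤ X + Y ∧ n % 8 = r % 8 ∧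
            Squarefree n ∧ Squarefree (n + h) ∧ CongE n ∧ CongE (n + h) ∧
            APG G R X n ∧ APG G R X (n + h)}.ncard : ℝ) := by
  obtain ⟨D, z, t, e, z0, m0, W, b, Q⟩ := exists_par h hs hc r hr hrh
  obtain ⟨δ, hδ⟩ : ∃ δ : ℝ, δ = (D : ℝ) ^ 2 := ⟨_, rfl⟩
  have hδ1 : 1 ≤ δ := by
    rw [hδ]
    have : (1 : ℝ) ≤ D := by exact_mod_cast Q.R.D0
    exact one_le_pow₀ this
  have hδ0 : 0 < δ := by linarith
  have hUU : ∀ X : ℝ, 0 < X → ((δ * X) ^ (1 / 12 : ℝ)) ^ 12 = δ * X ∧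
      ((δ * X) ^ (1 / 12 : ℝ)) ^ 11 ≤ δ * X ^ (11 / 12 : ℝ) ∧
      ((δ * X) ^ (1 / 12 : ℝ)) ^ 9 ≤ δ * X ^ (3 / 4 : ℝ) := by
    intro X hX
    have hX' : 0 < δ * X := by positivity
    refine ⟨?_, ?_, ?_⟩
    · rw [← Real.rpow_natCast, ← Real.rpow_mul hX'.le]
      norm_num
    · rw [← Real.rpow_natCast, ← Real.rpow_mul hX'.le, Real.mul_rpow hδ0.le hX.le]
      have h1 : δ ^ (1 / 12 * ((11 : ℕ) : ℝ)) ≤ δ := by
        conv_rhs => rw [← Real.rpow_one δ]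
        exact Real.rpow_le_rpow_of_exponent_le hδ1 (by norm_num)
      have h2 : (1 : ℝ) / 12 * ((11 : ℕ) : ℝ) = 11 / 12 := by norm_num
      rw [h2] at h1 ⊢
      exact mul_le_mul_of_nonneg_right h1 (by positivity)
    · rw [← Real.rpow_natCast, ← Real.rpow_mul hX'.le, Real.mul_rpow hδ0.le hX.le]
      have h1 : δ ^ (1 / 12 * ((9 : ℕ) : ℝ)) ≤ δ := by
        conv_rhs => rw [← Real.rpow_one δ]
        exact Real.rpow_le_rpow_of_exponent_le hδ1 (by norm_num)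
      have h2 : (1 : ℝ) / 12 * ((9 : ℕ) : ℝ) = 3 / 4 := by norm_num
      rw [h2] at h1 ⊢
      exact mul_le_mul_of_nonneg_right h1 (by positivity)
  have hge : ∀ (U0 X : ℝ), 0 < X → (max U0 1) ^ 12 ≤ X → U0 ≤ (δ * X) ^ (1 / 12 : ℝ) := by
    intro U0 X hX h1
    have h2 : (max U0 1) ^ 12 ≤ ((δ * X) ^ (1 / 12 : ℝ)) ^ 12 := by
      rw [(hUU X hX).1]
      refine h1.trans ?_
      nlinarith
    have h3 : max U0 1 ≤ (δ * X) ^ (1 / 12 : ℝ) :=
      (pow_le_pow_iff_left₀ (by positivity) (by positivity) (by norm_num)).1 h2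
    exact (le_max_left _ _).trans h3
  have hfin : ∀ (B : ℝ) (p : ℕ → Prop), {n : ℕ | (n : ℝ) ≤ B ∧ p n}.Finite := by
    intro B p
    apply (Set.finite_le_nat ⌊B⌋₊).subset
    intro n hn
    exact Nat.le_floor hn.1
  constructor
  · obtain ⟨C, c, U0, hc0, hpos⟩ := Q.pos
    refine ⟨max C 0, c, max 1 ((max U0 1) ^ 12), hc0, ?_⟩
    intro X Y hX hY1 hY2
    have hX1 : 1 ≤ X := (le_max_left _ _).trans hX
    have hX0 : 0 < X := by linarith
    obtain ⟨e1, e2, e3⟩ := hUU X hX0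
    obtain ⟨U, hU⟩ : ∃ U : ℝ, U = (δ * X) ^ (1 / 12 : ℝ) := ⟨_, rfl⟩
    have hU0 := hge U0 X hX0 ((le_max_right _ _).trans hX)
    have hUp : 0 < U := by rw [hU]; positivity
    rw [← hU] at e1 e2 e3 hU0
    have hY0 : 0 ≤ Y := le_trans (by positivity) hY1
    have h1 := hpos U hU0 (δ * Y) (by
      calc C * U ^ 11 ≤ max C 0 * U ^ 11 := mul_le_mul_of_nonneg_right (le_max_left _ _) (by positivity)
        _ ≤ max C 0 * (δ * X ^ (11 / 12 : ℝ)) := mul_le_mul_of_nonneg_left e2 (le_max_right _ _)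
        _ = δ * (max C 0 * X ^ (11 / 12 : ℝ)) := by ring
        _ ≤ δ * Y := mul_le_mul_of_nonneg_left hY1 hδ0.le) (by
      rw [e1]
      exact mul_le_mul_of_nonneg_left hY2 hδ0.le)
    have h2 : c * (Y / X ^ (3 / 4 : ℝ)) ≤ c * (δ * Y / U ^ 9) := by
      apply mul_le_mul_of_nonneg_left _ hc0.le
      rw [div_le_div_iff₀ (by positivity) (by positivity)]
      calc Y * U ^ 9 ≤ Y * (δ * X ^ (3 / 4 : ℝ)) := mul_le_mul_of_nonneg_left e3 hY0
        _ = _ := by ring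
    refine (h2.trans h1).trans ?_
    rw [e1]
    have hsub : {n : ℕ | δ * X ≤ (D : ℝ) ^ 2 * n ∧ (D : ℝ) ^ 2 * n ≤ δ * X + δ * Y ∧ PairP h r z0 z0 n} ⊆
        {n : ℕ | X ≤ n ∧ (n : ℝ) ≤ X + Y ∧ n % 8 = r % 8 ∧
        Squarefree n ∧ Squarefree (n + h) ∧ CongE n ∧ CongE (n + h)} := by
      rintro n ⟨h3, h4, h5⟩
      rw [← hδ] at h3 h4
      have h6 : X ≤ n := le_of_mul_le_mul_left h3 hδ0
      have h7 : (n : ℝ) ≤ X + Y := by
        rw [← mul_add] at h4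
        exact le_of_mul_le_mul_left h4 hδ0
      exact ⟨h6, h7, h5.1, h5.2.1, h5.2.2.1, h5.2.2.2.1, h5.2.2.2.2.1⟩
    have hf : {n : ℕ | X ≤ n ∧ (n : ℝ) ≤ X + Y ∧ n % 8 = r % 8 ∧
        Squarefree n ∧ Squarefree (n + h) ∧ CongE n ∧ CongE (n + h)}.Finite :=
      (hfin (X + Y) (fun _ => True)).subset (fun n hn => ⟨hn.2.1, trivial⟩)
    exact_mod_cast Set.ncard_le_ncard hsub hf
  · refine ⟨z0.factorial, ?_⟩
    intro ε hε
    obtain ⟨K, hK, c, U0, hc0, hap⟩ := Q.ap (12 * ε) (by positivity)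
    refine ⟨7 * K, by omega, c / 2 ^ 8, max (max 2 (max δ h)) ((max (max U0 3) 1) ^ 12), by positivity, ?_⟩
    intro X Y hX hY1 hY2
    have hX2 : 2 ≤ X := ((le_max_left _ _).trans (le_max_left _ _)).trans hX
    have hXδ : δ ≤ X := ((le_max_left _ _).trans ((le_max_right _ _).trans (le_max_left _ _))).trans hX
    have hXh : (h : ℝ) ≤ X := ((le_max_right _ _).trans ((le_max_right _ _).trans (le_max_left _ _))).trans hX
    have hX0 : 0 < X := by linarith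
    have hX1 : 1 < X := by linarith
    -- the exponent
    have hε12 : ε ≤ 1 / 12 := by
      have h1 : X ^ (11 / 12 + ε) ≤ X ^ (1 : ℝ) := by
        rw [Real.rpow_one]
        exact hY1.trans hY2
      have h2 := (Real.rpow_le_rpow_left_iff hX1).1 h1
      linarith
    obtain ⟨e1, e2, e3⟩ := hUU X hX0
    obtain ⟨U, hU⟩ : ∃ U : ℝ, U = (δ * X) ^ (1 / 12 : ℝ) := ⟨_, rfl⟩
    have hU03 := hge (max U0 3) X hX0 ((le_max_right _ _).trans hX)
    have hUp : 0 < U := by rw [hU]; positivity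
    rw [← hU] at e1 e2 e3 hU03
    have hU0 : U0 ≤ U := (le_max_left _ _).trans hU03
    have hU3 : 3 ≤ U := (le_max_right _ _).trans hU03
    have hY0 : 0 ≤ Y := le_trans (by positivity) hY1
    have e4 : U ^ (11 + 12 * ε) ≤ δ * X ^ (11 / 12 + ε) := by
      rw [hU, ← Real.rpow_mul (by positivity), Real.mul_rpow hδ0.le hX0.le]
      have h2 : (1 : ℝ) / 12 * (11 + 12 * ε) = 11 / 12 + ε := by ring
      rw [h2]
      apply mul_le_mul_of_nonneg_right _ (by positivity)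
      conv_rhs => rw [← Real.rpow_one δ]
      exact Real.rpow_le_rpow_of_exponent_le hδ1 (by linarith)
    have h1 := hap U hU0 (δ * Y) (e4.trans (mul_le_mul_of_nonneg_left hY1 hδ0.le)) (by
      rw [e1]
      exact mul_le_mul_of_nonneg_left hY2 hδ0.le)
    have hlogX : 0 < Real.log X := Real.log_pos hX1
    have hlogU : Real.log (U ^ 12) ≤ 2 * Real.log X := by
      rw [e1, Real.log_mul hδ0.ne' hX0.ne']
      have := Real.log_le_log hδ0 hXδ
      linarith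
    have hlogU0 : 0 < Real.log (U ^ 12) := Real.log_pos (one_lt_pow₀ (by linarith) (by norm_num))
    have h2 : c / 2 ^ 8 * (Y / (X ^ (3 / 4 : ℝ) * Real.log X ^ 8)) ≤
        c * (δ * Y / (U ^ 9 * Real.log (U ^ 12) ^ 8)) := by
      have h3 : c / 2 ^ 8 * (Y / (X ^ (3 / 4 : ℝ) * Real.log X ^ 8)) =
          c * (Y / (X ^ (3 / 4 : ℝ) * (2 * Real.log X) ^ 8)) := by
        rw [mul_pow]
        field_simp
      rw [h3]
      apply mul_le_mul_of_nonneg_left _ hc0.le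
      rw [div_le_div_iff₀ (by positivity) (by positivity)]
      have h4 : U ^ 9 * Real.log (U ^ 12) ^ 8 ≤ (δ * X ^ (3 / 4 : ℝ)) * (2 * Real.log X) ^ 8 :=
        mul_le_mul e3 (pow_le_pow_left₀ hlogU0.le hlogU 8) (by positivity) (by positivity)
      calc Y * (U ^ 9 * Real.log (U ^ 12) ^ 8) ≤ Y * ((δ * X ^ (3 / 4 : ℝ)) * (2 * Real.log X) ^ 8) :=
            mul_le_mul_of_nonneg_left h4 hY0
        _ = _ := by ring
    refine (h2.trans h1).trans ?_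
    have hsub : {n : ℕ | U ^ 12 ≤ (D : ℝ) ^ 2 * n ∧ (D : ℝ) ^ 2 * n ≤ U ^ 12 + δ * Y ∧
        PairP h r z0 ⌊U ^ (2 / (K : ℝ))⌋₊ n} ⊆
        {n : ℕ | X ≤ n ∧ (n : ℝ) ≤ X + Y ∧ n % 8 = r % 8 ∧
            Squarefree n ∧ Squarefree (n + h) ∧ CongE n ∧ CongE (n + h) ∧
            APG z0.factorial (7 * K) X n ∧ APG z0.factorial (7 * K) X (n + h)} := by
      rintro n ⟨h3, h4, h5⟩
      rw [e1, ← hδ] at h3 h4
      have h6 : X ≤ n := le_of_mul_le_mul_left h3 hδ0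
      have h7 : (n : ℝ) ≤ X + Y := by
        rw [← mul_add] at h4
        exact le_of_mul_le_mul_left h4 hδ0
      obtain ⟨g1, g2, g3, g4, g5, g6⟩ := h5
      have hXU : X ≤ U ^ 12 := by
        rw [e1]
        nlinarith
      have hU13 : 3 * U ^ 12 ≤ U ^ 13 := by
        have : U ^ 13 = U * U ^ 12 := by ring
        rw [this]
        exact mul_le_mul_of_nonneg_right hU3 (by positivity)
      have key : ∀ m : ℕ, Squarefree m → m ≤ n + h →
          (∀ p : ℕ, p.Prime → z0 < p → p ∣ m → ⌊U ^ (2 / (K : ℝ))⌋₊ < p) → APG z0.factorial (7 * K) X m := by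
        intro m hm hmn hmp
        obtain ⟨g, q, hgq, hg, hq0, hqm, hqp⟩ := split_small m z0 _ hm hmp
        refine ⟨g, q, hgq, hg, ap_of K hK U X (by linarith) hX0.le hXU q hq0 ?_ hqp⟩
        have h8 : (q : ℝ) ≤ n + h := by exact_mod_cast hqm.trans hmn
        linarith
      exact ⟨h6, h7, g1, g2, g3, g4, g5, key n g2 (by omega) (fun p hp hpz => (g6 p hp hpz).1),
        key (n + h) g3 le_rfl (fun p hp hpz => (g6 p hp hpz).2)⟩
    have hf : {n : ℕ | X ≤ n ∧ (n : ℝ) ≤ X + Y ∧ n % 8 = r % 8 ∧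
            Squarefree n ∧ Squarefree (n + h) ∧ CongE n ∧ CongE (n + h) ∧
            APG z0.factorial (7 * K) X n ∧ APG z0.factorial (7 * K) X (n + h)}.Finite :=
      (hfin (X + Y) (fun _ => True)).subset (fun n hn => ⟨hn.2.1, trivial⟩)
    exact_mod_cast Set.ncard_le_ncard hsub hf

end Pool.Agent.CNC
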